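import Pool.Agent.Lib.MP_666dc0_nt.LD.A3a
import Pool.Agent.Lib.MP_666dc0_nt.LD.A3b

namespace Pool.Agent.Lib.MP_666dc0_nt.LV

/-- The elements of `J` in increasing order. -/
noncomputable def jv (J : Finset ℤ) : Fin J.card → ℤ := fun a => J.orderEmbOfFin rfl a

theorem jv_strictMono (J : Finset ℤ) : StrictMono (jv J) := fun _ _ h =>
  (J.orderEmbOfFin rfl).strictMono h

/-- The numerators in Cramer's rule, indexed by `J`. -/
noncomputable def etaJ {L : Type} [Field L] (J : Finset ℤ) (k : Fin J.card → ℤ) (z : L)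
    (χ : Fin J.card → L) (l : ℤ) : L :=
  ∑ a, if jv J a = l then LD.eta (jv J) k z χ a else 0

/-- Sums over `J` (`Finset.sum_image`/`Finset.sum_bij` with `jv J`, `Finset.image_orderEmbOfFin`-like: the image of `jv J` is `J`). -/
theorem sum_jv {M : Type} [AddCommMonoid M] (J : Finset ℤ) (F : ℤ → M) :
    ∑ l ∈ J, F l = ∑ a, F (jv J a) := by
  have h := Finset.sum_map Finset.univ (J.orderEmbOfFin rfl).toEmbedding F
  rw [Finset.map_orderEmbOfFin_univ] at h
  rw [h]; rfl

theorem etaJ_jv {L : Type} [Field L] (J : Finset ℤ) (k : Fin J.card → ℤ) (z : L)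
    (χ : Fin J.card → L) (a : Fin J.card) :
    etaJ J k z χ (jv J a) = LD.eta (jv J) k z χ a := by
  classical
  unfold etaJ
  rw [Finset.sum_eq_single a]
  · simp
  · intro b _ hb
    rw [if_neg]
    exact fun h => hb ((jv_strictMono J).injective h)
  · intro h; exact absurd (Finset.mem_univ a) h

/-- Cramer's rule (`LD.cramer_identity`) indexed by `J`. -/
theorem cramerJ {L : Type} [Field L] (J : Finset ℤ) (k : Fin J.card → ℤ) (z : L)
    (χ : Fin J.card → L) (c : ℤ → L) (h : ∀ b, χ b = ∑ l ∈ J, c l * z ^ (l * k b)) (k' : ℤ) :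
    (LD.vdm (jv J) k z).det * (∑ l ∈ J, c l * z ^ (l * k')) = ∑ l ∈ J, etaJ J k z χ l * z ^ (l * k') := by
  rw [sum_jv J (fun l => c l * z ^ (l * k')), sum_jv J (fun l => etaJ J k z χ l * z ^ (l * k'))]
  have h1 : ∀ b, χ b = ∑ a, (fun a => c (jv J a)) a * z ^ (jv J a * k b) := by
    intro b
    rw [h b, sum_jv J (fun l => c l * z ^ (l * k b))]
  rw [LD.cramer_identity (jv J) k z χ (fun a => c (jv J a)) h1 k']
  exact Finset.sum_congr rfl fun a _ => by rw [etaJ_jv]

/-- A function `w ↦ det`, `w ↦ etaJ` with continuous ingredients is continuous: `LD.det_mem` and `LD.eta_mem` for the subalgebra of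
continuous functions (`continuousSubalgebra`), or directly. -/
theorem continuous_det {X L : Type} [TopologicalSpace X] [Field L] [TopologicalSpace L]
    [IsTopologicalRing L] (J : Finset ℤ) (k : Fin J.card → ℤ) (z : X → L)
    (hz : ∀ m : ℤ, Continuous fun x => z x ^ m) :
    Continuous fun x => (LD.vdm (jv J) k (z x)).det := by
  apply Continuous.matrix_det
  apply continuous_matrix
  intro a b
  exact hz _

theorem continuous_etaJ {X L : Type} [TopologicalSpace X] [Field L] [TopologicalSpace L]
    [IsTopologicalRing L] (J : Finset ℤ) (k : Fin J.card → ℤ) (z : X → L)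
    (hz : ∀ m : ℤ, Continuous fun x => z x ^ m) (χ : Fin J.card → X → L)
    (hχ : ∀ b, Continuous (χ b)) (l : ℤ) :
    Continuous fun x => etaJ J k (z x) (fun b => χ b x) l := by
  unfold etaJ
  refine continuous_finsetSum _ fun a _ => ?_
  by_cases ha : jv J a = l
  · simp only [ha, if_true]
    have h1 : Continuous fun x => LD.vdm (jv J) k (z x) := continuous_matrix fun a b => hz _
    have h2 : Continuous fun x => (fun b => χ b x) := continuous_pi hχ
    exact (continuous_apply a).comp (h2.matrix_vecMul h1.matrix_adjugate)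
  · simp only [ha, if_false]
    exact continuous_const

end Pool.Agent.Lib.MP_666dc0_nt.LV
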