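import Pool.Agent.Lib.MP_666dc0_nt.Mg.G043
import Pool.Agent.Lib.MP_666dc0_nt.LD.ECDefs

open MvPolynomial

namespace Pool.Agent.Lib.MP_666dc0_nt.LV

open Pool.Agent.Lib.MP_666dc0_nt.IG

variable {O : Type} [CommRing O] [HopfAlgebra ℚ O] {Γ : Type} [Group Γ] {A : HopfAction Γ O}
  {n : ℕ} (ρ : MatRep A n)

private theorem H2_evM {Ω : Type} [Field Ω] [Algebra ℚ Ω] (r : Γ →* A.LGroup Ω) (γ : Γ) :
    evM ρ r Ω γ = ρ.ev Ω (r γ) := by
  ext i j
  rfl

private theorem H2_trace {Ω : Type} [Field Ω] {J : Finset ℤ} (q : ℤ → Matrix (Fin n) (Fin n) Ω)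
    (c d : ℤ → Ω) (X Y : Matrix (Fin n) (Fin n) Ω)
    (hkey : ∀ i ∈ J, ∀ j ∈ J, i ≠ j → (q i * X * q j * Y).trace = 0) :
    ((∑ i ∈ J, c i • q i) * X * (∑ j ∈ J, d j • q j) * Y).trace =
      ∑ i ∈ J, c i * d i * (q i * X * q i * Y).trace := by
  rw [Finset.sum_mul, Finset.sum_mul, Finset.sum_mul, Matrix.trace_sum]
  refine Finset.sum_congr rfl fun i hi => ?_
  rw [Finset.mul_sum, Finset.sum_mul, Matrix.trace_sum, Finset.sum_eq_single i]
  · rw [smul_mul_assoc, smul_mul_assoc, mul_smul_comm, smul_smul, smul_mul_assoc,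
      Matrix.trace_smul, smul_eq_mul]
  · intro j hj hji
    rw [smul_mul_assoc, smul_mul_assoc, mul_smul_comm, smul_smul, smul_mul_assoc,
      Matrix.trace_smul, hkey i hi j hj (Ne.symm hji), smul_zero]
  · intro h
    exact absurd hi h

private theorem H2_mulsum {Ω : Type} [Field Ω] {J : Finset ℤ} {q : ℤ → Matrix (Fin n) (Fin n) Ω}
    (hq : LD.Proj J q) (c : ℤ → Ω) {l : ℤ} (hl : l ∈ J) :
    q l * (∑ i ∈ J, c i • q i) = c l • q l := by
  rw [Finset.mul_sum, Finset.sum_eq_single l]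
  · rw [mul_smul_comm, hq.idem l hl]
  · intro j hj hjl
    rw [mul_smul_comm, hq.orth l hl j hj (Ne.symm hjl), smul_zero]
  · intro h
    exact absurd hl h

private theorem H2_summul {Ω : Type} [Field Ω] {J : Finset ℤ} {q : ℤ → Matrix (Fin n) (Fin n) Ω}
    (hq : LD.Proj J q) (c : ℤ → Ω) {l : ℤ} (hl : l ∈ J) :
    (∑ i ∈ J, c i • q i) * q l = c l • q l := by
  rw [Finset.sum_mul, Finset.sum_eq_single l]
  · rw [smul_mul_assoc, hq.idem l hl]
  · intro j hj hjl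
    rw [smul_mul_assoc, hq.orth j hj l hl hjl, smul_zero]
  · intro h
    exact absurd hl h

/-- A minimal point commutes with the grading. `q l ∈ spA`, `l ∈ J`, projectors (`LD.Proj`) such that
`trace (q i X q j X') = 0` for `i ≠ j` and all `X, X'` of the form `ρ.ev (r γ)`, and `∑ l, 2 ^ l • q l` is the matrix of a point
`z` of `Ĝ`. Then all `ρ.ev (r γ)` commute with all `q l`.

Proof. `evM ρ r Ω γ = ρ.ev Ω (r γ)` (`algebraMap Ω Ω = id`). For `i ≠ j` and each `γ` the matrix `q i * ev (r γ) * q j` is in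
`spA ρ r Ω` (`spA_mul`) and has trace zero against all `ev (r δ)`, so it is in `NilR ρ r Ω`. Let `N = ρ.gm z = ∑ 2 ^ l • q l`,
`N' = ρ.gm z⁻¹ = ∑ 2 ^ (-l) • q l` (the inverse matrix), `X = ev (r γ)`, `X' = ev (r γ)⁻¹`. Put `u = N X N' X'`,
`u' = X N X' N'` (inverse pair). `u - 1 = (N X N' - X) X' = ∑ i j, (2 ^ (i - j) - 1) • q i * X * q j * X'`, the terms `i = j` vanish,
so `u - 1 ∈ NilR` (`NilR_mul_right`, sums and multiples). `act u u' T₀ = T₀`: `act N N' T₀ = T₀` (`TD.fix`, `N` is in `G` by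
`hG`), `act X X' T₀ = mix (DmR ρ hG TD Ω γ) T₀` (`act_ev`), `act` and `mix` commute (`act_mix`), `act_mul`. By
`unipotent_trivial` (GBb.lean, `κ = Ω`) `u = 1`, so `N X = X N`. Each `q l` is a polynomial in `N` (the `2 ^ l` are different:
`Lagrange`), so it commutes with `X`. -/
theorem commute_of_key {G : Red n} (hG : IsRedG ρ G) (hρ : Faithful ρ) (TD : TensorData G)
    {K : Type} [Field K] [CharZero K] {V : Γ → O → K} {Ω : Type} [Field Ω] [IsAlgClosed Ω]
    [Algebra ℚ Ω] [Algebra K Ω] {r : Γ →* A.LGroup Ω} (h : IsMinPt ρ V Ω r) {J : Finset ℤ}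
    {q : ℤ → Matrix (Fin n) (Fin n) Ω} (hq : LD.Proj J q)
    (hsp : ∀ l ∈ J, q l ∈ spA ρ r Ω)
    (hkey : ∀ i ∈ J, ∀ j ∈ J, i ≠ j → ∀ γ δ,
      (q i * ρ.ev Ω (r γ) * q j * ρ.ev Ω (r δ)).trace = 0)
    (z : Pts O Ω) (hz : ρ.gm z = ∑ l ∈ J, (2 : Ω) ^ l • q l) (γ : Γ) (l : ℤ) (hl : l ∈ J) :
    q l * ρ.ev Ω (r γ) = ρ.ev Ω (r γ) * q l := by
  have _ : CharZero Ω := algebraRat.charZero Ω
  have h20 : (2 : Ω) ≠ 0 := two_ne_zero
  set N : Matrix (Fin n) (Fin n) Ω := ρ.gm z with hN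
  set N' : Matrix (Fin n) (Fin n) Ω := ρ.gm z⁻¹ with hN'
  set X : Matrix (Fin n) (Fin n) Ω := ρ.ev Ω (r γ) with hX
  set X' : Matrix (Fin n) (Fin n) Ω := ρ.ev Ω (r γ)⁻¹ with hX'
  have hNN' : N * N' = 1 := by rw [hN, hN', ← ρ.gm_mul, mul_inv_cancel, ρ.gm_one]
  have hN'N : N' * N = 1 := by rw [hN, hN', ← ρ.gm_mul, inv_mul_cancel, ρ.gm_one]
  have hXX' : X * X' = 1 := ev_mul_inv ρ (r γ)
  have hX'X : X' * X = 1 := ev_inv_mul ρ (r γ)
  have hN'' : N' = ∑ l ∈ J, (2 : Ω) ^ (-l) • q l := by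
    have h1 : N * (∑ l ∈ J, (2 : Ω) ^ (-l) • q l) = 1 := by
      rw [Finset.mul_sum, ← hq.sum_eq]
      refine Finset.sum_congr rfl fun l hl => ?_
      rw [mul_smul_comm, hz, H2_summul hq (fun l => (2 : Ω) ^ l) hl, smul_smul, zpow_neg,
        inv_mul_cancel₀ (zpow_ne_zero l h20), one_smul]
    calc N' = N' * (N * (∑ l ∈ J, (2 : Ω) ^ (-l) • q l)) := by rw [h1, mul_one]
      _ = _ := by rw [← mul_assoc, hN'N, one_mul]
  have hXsp : ∀ δ, ρ.ev Ω (r δ) ∈ spA ρ r Ω := fun δ =>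
    Submodule.subset_span ⟨δ, H2_evM ρ r δ⟩
  have hX'sp : X' ∈ spA ρ r Ω := by
    rw [hX', ← map_inv]
    exact hXsp γ⁻¹
  have hNsp : N ∈ spA ρ r Ω := by
    rw [hz]
    exact Submodule.sum_mem _ fun l hl => Submodule.smul_mem _ _ (hsp l hl)
  have hN'sp : N' ∈ spA ρ r Ω := by
    rw [hN'']
    exact Submodule.sum_mem _ fun l hl => Submodule.smul_mem _ _ (hsp l hl)
  have hnil : NilR ρ r Ω (N * X * N' - X) := by
    refine ⟨Submodule.sub_mem _ (spA_mul ρ r Ω (spA_mul ρ r Ω hNsp (hXsp γ)) hN'sp) (hXsp γ),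
      fun δ => ?_⟩
    rw [H2_evM, sub_mul, Matrix.trace_sub, sub_eq_zero]
    have e1 : X = (∑ i ∈ J, (1 : Ω) • q i) * X * (∑ i ∈ J, (1 : Ω) • q i) := by
      simp only [one_smul, hq.sum_eq, one_mul, mul_one]
    have e2 : (N * X * N' * ρ.ev Ω (r δ)).trace =
        ∑ i ∈ J, (2 : Ω) ^ i * (2 : Ω) ^ (-i) * (q i * X * q i * ρ.ev Ω (r δ)).trace := by
      rw [hz, hN'']
      exact H2_trace q (fun i => (2 : Ω) ^ i) (fun i => (2 : Ω) ^ (-i)) X (ρ.ev Ω (r δ))
        fun i hi j hj hij => hkey i hi j hj hij γ δ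
    have e3 : (X * ρ.ev Ω (r δ)).trace =
        ∑ i ∈ J, (1 : Ω) * 1 * (q i * X * q i * ρ.ev Ω (r δ)).trace := by
      conv_lhs => rw [e1]
      exact H2_trace q (fun i => (1 : Ω)) (fun i => 1) X (ρ.ev Ω (r δ))
        fun i hi j hj hij => hkey i hi j hj hij γ δ
    rw [e2, e3]
    refine Finset.sum_congr rfl fun i hi => ?_
    rw [zpow_neg, mul_inv_cancel₀ (zpow_ne_zero i h20), one_mul]
    ring
  have hu : NilR ρ r Ω (N * (X * (N' * X')) - 1) := by
    have h1 := NilR_mul_right ρ r Ω hnil hX'sp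
    rw [sub_mul, hXX'] at h1
    have e : N * (X * (N' * X')) = N * X * N' * X' := by simp only [mul_assoc]
    rw [e]
    exact h1
  have h1 : (N * (X * (N' * X'))) * (X * N * X' * N') = 1 := by
    calc (N * (X * (N' * X'))) * (X * N * X' * N')
        = N * X * N' * (X' * X) * N * X' * N' := by simp only [mul_assoc]
      _ = N * X * (N' * N) * X' * N' := by rw [hX'X]; simp only [mul_assoc, one_mul]
      _ = N * (X * X') * N' := by rw [hN'N]; simp only [mul_assoc, one_mul]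
      _ = 1 := by rw [hXX', mul_one, hNN']
  have h2 : (X * N * X' * N') * (N * (X * (N' * X'))) = 1 := by
    calc (X * N * X' * N') * (N * (X * (N' * X')))
        = X * N * X' * (N' * N) * X * N' * X' := by simp only [mul_assoc]
      _ = X * N * (X' * X) * N' * X' := by rw [hN'N]; simp only [mul_assoc, one_mul]
      _ = X * (N * N') * X' := by rw [hX'X]; simp only [mul_assoc, one_mul]
      _ = 1 := by rw [hNN', mul_one, hXX']
  have hfix : act N N' (inA Ω TD.T₀) = inA Ω TD.T₀ :=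
    TD.fix Ω N N' ((hG Ω N N').mpr ⟨z, rfl, rfl⟩)
  have hfix' : act N' N (inA Ω TD.T₀) = inA Ω TD.T₀ :=
    TD.fix Ω N' N ((hG Ω N' N).mpr ⟨z⁻¹, rfl, by rw [inv_inv]⟩)
  have hT : act (N * (X * (N' * X'))) (X * N * X' * N') (inA Ω TD.T₀) = inA Ω TD.T₀ := by
    have h3 := act_ev ρ hG TD (r γ)⁻¹
    rw [inv_inv] at h3
    rw [act_mul, act_mul, act_mul]
    have e1 : act N' N (act X' X (inA Ω TD.T₀)) = act X' X (inA Ω TD.T₀) := by
      rw [hX', hX, h3, act_mix, hfix']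
    have e4 : act X X' (act X' X (inA Ω TD.T₀)) = inA Ω TD.T₀ := by
      rw [← act_mul, hXX', act_one]
    rw [e1, e4, hfix]
  have hu1 := unipotent_trivial ρ hG hρ TD h Ω _ _ h1 h2 hu hT
  have hNX : N * X = X * N := by
    calc N * X = (N * (X * (N' * X'))) * X * N := by
          rw [show (N * (X * (N' * X'))) * X * N = N * (X * (N' * ((X' * X) * N))) by
            simp only [mul_assoc], hX'X, one_mul, hN'N, mul_one]
      _ = X * N := by rw [hu1, one_mul]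
  have hzero : ∀ i ∈ J, ∀ j ∈ J, i ≠ j → q i * X * q j = 0 := by
    intro i hi j hj hij
    have e1 : q i * (N * X) * q j = (2 : Ω) ^ i • (q i * X * q j) := by
      rw [← mul_assoc, hz, H2_mulsum hq (fun l => (2 : Ω) ^ l) hi, smul_mul_assoc, smul_mul_assoc]
    have e2 : q i * (X * N) * q j = (2 : Ω) ^ j • (q i * X * q j) := by
      rw [mul_assoc, mul_assoc, hz, H2_summul hq (fun l => (2 : Ω) ^ l) hj, mul_smul_comm,
        mul_smul_comm, mul_assoc]
    rw [hNX, e2] at e1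
    rw [← sub_eq_zero, ← sub_smul, smul_eq_zero] at e1
    rcases e1 with e1 | e1
    · exfalso
      rw [sub_eq_zero] at e1
      have e3 : (((2 : ℚ) ^ j : ℚ) : Ω) = (((2 : ℚ) ^ i : ℚ) : Ω) := by
        push_cast
        exact e1
      exact hij ((zpow_right_injective₀ (by norm_num : (0 : ℚ) < 2) (by norm_num))
        (Rat.cast_injective e3)).symm
    · exact e1
  have e1 : q l * X = q l * X * q l := by
    calc q l * X = q l * X * ∑ j ∈ J, q j := by rw [hq.sum_eq, mul_one]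
      _ = ∑ j ∈ J, q l * X * q j := Finset.mul_sum _ _ _
      _ = q l * X * q l := Finset.sum_eq_single l
          (fun j hj hjl => hzero l hl j hj (Ne.symm hjl)) (fun h => absurd hl h)
  have e2 : X * q l = q l * X * q l := by
    calc X * q l = (∑ j ∈ J, q j) * X * q l := by rw [hq.sum_eq, one_mul]
      _ = ∑ j ∈ J, q j * X * q l := by rw [Finset.sum_mul, Finset.sum_mul]
      _ = q l * X * q l := Finset.sum_eq_single l
          (fun j hj hjl => hzero j hj l hl hjl) (fun h => absurd hl h)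
  rw [e1, e2]

end Pool.Agent.Lib.MP_666dc0_nt.LV
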