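import Pool.Agent.Lib.MP_666dc0_nt.IG.GAa

open Polynomial

namespace Pool.Agent.Lib.MP_666dc0_nt.LV

open Pool.Agent.Lib.MP_666dc0_nt.IG

variable {O : Type} [CommRing O] [HopfAlgebra ℚ O] {Γ : Type} [Group Γ] {A : HopfAction Γ O}
  {n : ℕ} (ρ : MatRep A n)

/-- A conjugate of a minimal point under `Ĝ(Ω)` is a minimal point. `r' γ = inl h * r γ * (inl h)⁻¹`: right component `γ`, the same values of
invariant functions (`eqv_conj_inl` in Eqv.lean), `spA ρ r' Ω` is the image of `spA ρ r Ω` under the linear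
equivalence `X ↦ gm h * X * gm h⁻¹` (`evM ρ r Ω γ = ρ.ev Ω (r γ)`, `algebraMap Ω Ω = id`), so the dimensions agree. -/
theorem exists_conj_min {K : Type} [Field K] {V : Γ → O → K} {Ω : Type} [Field Ω]
    [Algebra ℚ Ω] [Algebra K Ω] {r : Γ →* A.LGroup Ω} (h : IsMinPt ρ V Ω r) (g : Pts O Ω) :
    ∃ r' : Γ →* A.LGroup Ω, IsMinPt ρ V Ω r' ∧
      ∀ γ, r' γ = SemidirectProduct.inl g * r γ * (SemidirectProduct.inl g)⁻¹ := by
  have hself : ∀ (s : Γ →* A.LGroup Ω) (γ : Γ), evM ρ s Ω γ = ρ.ev Ω (s γ) := fun s γ =>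
    Matrix.ext fun i j => rfl
  let r' : Γ →* A.LGroup Ω := (MulAut.conj (SemidirectProduct.inl g : A.LGroup Ω)).toMonoidHom.comp r
  have hr' : ∀ γ, r' γ = SemidirectProduct.inl g * r γ * (SemidirectProduct.inl g)⁻¹ := fun γ => rfl
  have hE : ∀ γ, A.Eqv (r' γ) (r γ) := fun γ => HopfAction.eqv_conj_inl (r γ) g
  have hproj : ∀ γ, (r' γ).right = γ := fun γ => (hE γ).1.trans (h.val.proj γ)
  let L : Matrix (Fin n) (Fin n) Ω →ₗ[Ω] Matrix (Fin n) (Fin n) Ω :=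
    (LinearMap.mulLeft Ω (ρ.ev Ω (SemidirectProduct.inl g))).comp
      (LinearMap.mulRight Ω (ρ.ev Ω (SemidirectProduct.inl g)⁻¹))
  have hL : ∀ γ, evM ρ r' Ω γ = L (evM ρ r Ω γ) := by
    intro γ
    rw [hself, hself, hr', map_mul, map_mul, mul_assoc]
    rfl
  have hsp : spA ρ r' Ω = (spA ρ r Ω).map L := by
    unfold spA
    rw [Submodule.map_span]
    congr 1
    ext X
    constructor
    · rintro ⟨γ, rfl⟩
      exact ⟨_, ⟨γ, rfl⟩, (hL γ).symm⟩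
    · rintro ⟨_, ⟨γ, rfl⟩, rfl⟩
      exact ⟨γ, hL γ⟩
  refine ⟨r', ⟨⟨hproj, fun γ f hf => ?_⟩, fun Ω' _ _ _ r'' h'' => ?_⟩, hr'⟩
  · rw [← h.val.val γ f hf]
    exact (hE γ).2 f (by rw [hproj]; exact hf)
  · refine le_trans ?_ (h.min Ω' r'' h'')
    rw [hsp]
    exact Submodule.finrank_map_le L _

/-- Polynomials in `ρ.ev Ω (r σ)` are in the span (`spA_mul`, `evM_one`; `evM ρ r Ω γ = ρ.ev Ω (r γ)`). -/
theorem aeval_mem_spA {Ω : Type} [Field Ω] [Algebra ℚ Ω] (r : Γ →* A.LGroup Ω) (σ : Γ) (Q : Polynomial Ω) :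
    aeval (ρ.ev Ω (r σ)) Q ∈ spA ρ r Ω := by
  rw [Polynomial.aeval_eq_sum_range]
  refine Submodule.sum_mem _ fun k _ => Submodule.smul_mem _ _ ?_
  have h1 : ρ.ev Ω (r σ) ^ k = evM ρ r Ω (σ ^ k) := by
    have h2 : evM ρ r Ω (σ ^ k) = ρ.ev Ω (r (σ ^ k)) := Matrix.ext fun i j => rfl
    rw [h2, map_pow, map_pow]
  rw [h1]
  exact Submodule.subset_span ⟨_, rfl⟩

end Pool.Agent.Lib.MP_666dc0_nt.LV
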