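import Pool.Agent.Lib.MP_666dc0_nt.LV.P1
import Pool.Agent.Lib.MP_666dc0_nt.LV.N2
import Pool.Agent.Lib.MP_666dc0_nt.LD.EA1
import Pool.Agent.Lib.MP_666dc0_nt.LD.EA2

open Polynomial

namespace Pool.Agent.Lib.MP_666dc0_nt.LV

open Pool.Agent.Lib.MP_666dc0_nt.IG

variable {K L : Type} [Field K] [Field L] [Algebra K L] {n : ℕ} {Γ : Type} [Group Γ]

/-- The monoid of pairs of natural numbers, written multiplicatively. -/
abbrev NN : Type := Multiplicative ℕ × Multiplicative ℕ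

/-- The element `σ ^ a * γ * σ ^ b * δ` of `Γ` for `x = (a, b)`. -/
def wd (σ γ δ : Γ) (x : NN) : Γ := σ ^ x.1.toAdd * γ * σ ^ x.2.toAdd * δ

/-- Characters: `s (wd σ γ δ x) ^ m = s (γ δ) ^ m * χ x` with the character `χ x = (s σ ^ m) ^ (a + b)` of `NN` with values in `Kˣ`. -/
theorem char_wd_mem (s : Γ →* Kˣ) (σ γ δ : Γ) (m : ℤ) :
    (fun x : NN => (algebraMap K L (s (wd σ γ δ x) : K)) ^ m) ∈ LD.CH NN K L := by
  have h : (fun x : NN => (algebraMap K L (s (wd σ γ δ x) : K)) ^ m) =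
      (algebraMap K L (((s γ * s δ) ^ m : Kˣ) : K)) • fun x : NN => algebraMap K L
        (((((powersHom Kˣ) (s σ ^ m)).comp (MonoidHom.fst (Multiplicative ℕ) (Multiplicative ℕ)) *
          ((powersHom Kˣ) (s σ ^ m)).comp (MonoidHom.snd (Multiplicative ℕ) (Multiplicative ℕ)) :
            NN →* Kˣ) x : Kˣ) : K) := by
    funext x
    rw [Pi.smul_apply, smul_eq_mul, ← map_mul, ← Units.val_mul, ← map_zpow₀,
      ← Units.val_zpow_eq_zpow_val]
    congr 2
    simp only [wd, map_mul, map_pow, MonoidHom.mul_apply, MonoidHom.comp_apply, MonoidHom.coe_fst,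
      MonoidHom.coe_snd, powersHom_apply]
    rw [mul_zpow, mul_zpow, mul_zpow, mul_zpow]
    have e : ∀ k : ℕ, (s σ ^ k) ^ m = (s σ ^ m) ^ k := fun k => by
      rw [← zpow_natCast, ← zpow_natCast, ← zpow_mul, ← zpow_mul, mul_comm]
    rw [e, e]
    ac_rfl
  rw [h]
  exact Subalgebra.smul_mem _ (LD.char_mem_CH _) _

private theorem M1_mul {F G : NN → Matrix (Fin n) (Fin n) L}
    (hF : ∀ i j, (fun x => F x i j) ∈ LD.CH NN K L)
    (hG : ∀ i j, (fun x => G x i j) ∈ LD.CH NN K L) (i j : Fin n) :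
    (fun x => (F x * G x) i j) ∈ LD.CH NN K L := by
  have h : (fun x => (F x * G x) i j) = ∑ k, (fun x => F x i k) * (fun x => G x k j) := by
    funext x
    rw [Matrix.mul_apply, Finset.sum_apply]
    rfl
  rw [h]
  exact Subalgebra.sum_mem _ fun k _ => Subalgebra.mul_mem _ (hF i k) (hG k j)

private theorem M1_const (c : L) : (fun _ : NN => c) ∈ LD.CH NN K L :=
  Subalgebra.algebraMap_mem (LD.CH NN K L) c

/-- Traces: `ρ (wd σ γ δ x) = ρ σ ^ a * ρ γ * ρ σ ^ b * ρ δ`; the entries of the powers are in `CH` (`LD.pow_entries_mem_CH` with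
`DG.exists_Lam`, the projections `NN →* Multiplicative ℕ`), the trace is a sum of products of entries. -/
theorem trace_wd_mem (ρ : Γ →* Matrix (Fin n) (Fin n) K) (σ γ δ : Γ) (hd : DG (ρ σ)) :
    (fun x : NN => algebraMap K L (ρ (wd σ γ δ x)).trace) ∈ LD.CH NN K L := by
  obtain ⟨Λ, h0, hX⟩ := DG.exists_Lam hd L
  have hp : ∀ (a : NN →* Multiplicative ℕ) (i j : Fin n),
      (fun x => (((ρ σ).map (algebraMap K L)) ^ (Multiplicative.toAdd (a x))) i j) ∈
        LD.CH NN K L := fun a i j =>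
    LD.pow_entries_mem_CH ((ρ σ).map (algebraMap K L)) Λ h0 hX a i j
  have h1 := M1_mul (M1_mul (M1_mul (hp (MonoidHom.fst _ _))
    (G := fun _ => (ρ γ).map (algebraMap K L)) (fun i j => M1_const _))
      (hp (MonoidHom.snd _ _))) (G := fun _ => (ρ δ).map (algebraMap K L)) (fun i j => M1_const _)
  have h : (fun x : NN => algebraMap K L (ρ (wd σ γ δ x)).trace) = ∑ i, fun x : NN =>
      (((ρ σ).map (algebraMap K L)) ^ (Multiplicative.toAdd ((MonoidHom.fst _ _ : NN →* _) x)) *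
        (ρ γ).map (algebraMap K L) *
        ((ρ σ).map (algebraMap K L)) ^ (Multiplicative.toAdd ((MonoidHom.snd _ _ : NN →* _) x)) *
        (ρ δ).map (algebraMap K L)) i i := by
    funext x
    rw [Finset.sum_apply]
    have e : (ρ (wd σ γ δ x)).map (algebraMap K L) =
        ((ρ σ).map (algebraMap K L)) ^ (Multiplicative.toAdd ((MonoidHom.fst _ _ : NN →* _) x)) *
        (ρ γ).map (algebraMap K L) *
        ((ρ σ).map (algebraMap K L)) ^ (Multiplicative.toAdd ((MonoidHom.snd _ _ : NN →* _) x)) *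
        (ρ δ).map (algebraMap K L) := by
      simp only [wd, map_mul, map_pow, Matrix.map_mul, Matrix.map_pow, MonoidHom.coe_fst,
        MonoidHom.coe_snd]
    rw [← e, Matrix.trace, map_sum]
    rfl
  rw [h]
  exact Subalgebra.sum_mem _ fun i _ => h1 i i

/-- `D` and `E l` along `wd` (`LD.map_vdm_det`, `LD.map_eta`, `LD.det_mem`, `LD.eta_mem` with `𝒮 = LD.CH NN K L`). -/
theorem det_wd_mem (J : Finset ℤ) (kv : Fin J.card → ℤ) (s : Γ →* Kˣ) (σ γ δ : Γ) :
    (fun x : NN => algebraMap K L (LD.vdm (jv J) kv (s (wd σ γ δ x) : K)).det) ∈ LD.CH NN K L := by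
  have h : (fun x : NN => algebraMap K L (LD.vdm (jv J) kv (s (wd σ γ δ x) : K)).det) =
      fun x => (LD.vdm (jv J) kv (algebraMap K L (s (wd σ γ δ x) : K))).det := by
    funext x
    exact LD.map_vdm_det _ _ _ _
  rw [h]
  exact LD.det_mem (LD.CH NN K L) (jv J) kv _ fun m => char_wd_mem s σ γ δ m

theorem eta_wd_mem (J : Finset ℤ) (kv : Fin J.card → ℤ) (s : Γ →* Kˣ)
    (ρ : Fin J.card → Γ →* Matrix (Fin n) (Fin n) K) (σ γ δ : Γ) (hd : ∀ b, DG (ρ b σ)) (l : ℤ) :
    (fun x : NN => algebraMap K L (etaJ J kv (s (wd σ γ δ x) : K)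
      (fun b => (ρ b (wd σ γ δ x)).trace) l)) ∈ LD.CH NN K L := by
  have h : (fun x : NN => algebraMap K L (etaJ J kv (s (wd σ γ δ x) : K)
      (fun b => (ρ b (wd σ γ δ x)).trace) l)) = ∑ a, if jv J a = l then
        (fun x => LD.eta (jv J) kv (algebraMap K L (s (wd σ γ δ x) : K))
          (fun b => algebraMap K L (ρ b (wd σ γ δ x)).trace) a) else 0 := by
    funext x
    rw [Finset.sum_apply, etaJ, map_sum]
    refine Finset.sum_congr rfl fun a _ => ?_
    split_ifs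
    · exact LD.map_eta _ _ _ _ _ _
    · exact map_zero _
  rw [h]
  refine Subalgebra.sum_mem _ fun a _ => ?_
  split_ifs
  · exact LD.eta_mem (LD.CH NN K L) (jv J) kv _ (fun m => char_wd_mem s σ γ δ m)
      (fun b x => algebraMap K L (ρ b (wd σ γ δ x)).trace)
      (fun b => trace_wd_mem (ρ b) σ γ δ (hd b)) a
  · exact Subalgebra.zero_mem _

end Pool.Agent.Lib.MP_666dc0_nt.LV
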