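import Pool.Agent.Lib.MP_666dc0_nt.LeviDefs
import Pool.Agent.Lib.MP_666dc0_nt.Transport

open LaurentPolynomial

namespace Pool.Agent.Lib.MP_666dc0_nt.LV

variable {O O' : Type} [CommRing O] [HopfAlgebra ℚ O] [CommRing O'] [HopfAlgebra ℚ O'] {Γ : Type}
  [Group Γ] {A : HopfAction Γ O} {A' : HopfAction Γ O'} {π : O →ₐc[ℚ] O'}
  {μ : O →ₐc[ℚ] ℚ[T;T⁻¹]}

/-- `Pts.incl` is a homomorphism of groups. -/
theorem incl_mul {R : Type} [CommRing R] [Algebra ℚ R] (π : O →ₐc[ℚ] O') (g h : Pts O' R) :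
    Pts.incl π (g * h) = Pts.incl π g * Pts.incl π h := by
  have h : ∀ (f : O), (Pts.incl π (g * h)).hom f = (Pts.incl π g * Pts.incl π h).hom f := by
    intro f
    change (g * h).hom (π f) = _
    rw [Pts.mul_hom_apply, Pts.mul_hom_apply]
    have e : CoalgebraStruct.comul (R := ℚ) (π f) = TensorProduct.map (π : O →ₐ[ℚ] O').toLinearMap
        (π : O →ₐ[ℚ] O').toLinearMap (CoalgebraStruct.comul (R := ℚ) f) :=
      (CoalgHomClass.map_comp_comul_apply π f).symm
    rw [e]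
    generalize CoalgebraStruct.comul (R := ℚ) f = z
    induction z using TensorProduct.induction_on with
    | zero => simp
    | tmul a b =>
      rw [TensorProduct.map_tmul, Algebra.TensorProduct.lift_tmul, Algebra.TensorProduct.lift_tmul]
      rfl
    | add a b ha hb => simp only [map_add, ha, hb]
  ext f
  exact h f

theorem incl_one {R : Type} [CommRing R] [Algebra ℚ R] (π : O →ₐc[ℚ] O') :
    Pts.incl π (1 : Pts O' R) = 1 := by
  ext f
  change (1 : Pts O' R).hom (π f) = _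
  rw [Pts.one_hom_apply, Pts.one_hom_apply]
  congr 1
  exact CoalgHomClass.counit_comp_apply π f

/-- Follows from `incl_mul`, `incl_one`. -/
theorem incl_inv {R : Type} [CommRing R] [Algebra ℚ R] (π : O →ₐc[ℚ] O') (g : Pts O' R) :
    Pts.incl π g⁻¹ = (Pts.incl π g)⁻¹ := by
  rw [eq_inv_iff_mul_eq_one, ← incl_mul, inv_mul_cancel, incl_one]

theorem incl_injective {R : Type} [CommRing R] [Algebra ℚ R] {π : O →ₐc[ℚ] O'}
    (hπ : Function.Surjective π) : Function.Injective (Pts.incl (R := R) π) := by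
  intro g h hgh
  ext f
  obtain ⟨f, rfl⟩ := hπ f
  exact congrArg (fun x : Pts O R => x.hom f) hgh

theorem incl_map {R S : Type} [CommRing R] [Algebra ℚ R] [CommRing S] [Algebra ℚ S] (ψ : R →ₐ[ℚ] S)
    (π : O →ₐc[ℚ] O') (g : Pts O' R) : Pts.map ψ (Pts.incl π g) = Pts.incl π (Pts.map ψ g) := by
  rfl

theorem incl_onPts {R : Type} [CommRing R] [Algebra ℚ R] (hM : IsLevi A A' π μ) (γ : Γ)
    (g : Pts O' R) : A.onPts R γ (Pts.incl π g) = Pts.incl π (A'.onPts R γ g) := by
  ext f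
  change g.hom (π (A.act γ⁻¹ f)) = g.hom (A'.act γ⁻¹ (π f))
  rw [hM.act]

/-- `cochar` is multiplicative in `t`: both sides of
`(evalUnit (s * t)) f = (lift (evalUnit s) (evalUnit t)) (comul f)` are algebra homomorphisms of `f : ℚ[T;T⁻¹]`, compare on
`T 1` and `T (-1)` (`LaurentPolynomial.comul_T`), and `μ` is a homomorphism of coalgebras. -/
theorem cochar_mul {R : Type} [CommRing R] [Algebra ℚ R] (μ : O →ₐc[ℚ] ℚ[T;T⁻¹]) (s t : Rˣ) :
    Pts.cochar μ (s * t) = Pts.cochar μ s * Pts.cochar μ t := by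
  have key : ∀ p : ℚ[T;T⁻¹], evalUnit (s * t) p =
      Algebra.TensorProduct.lift (evalUnit s) (evalUnit t) (fun _ _ => Commute.all _ _)
        (CoalgebraStruct.comul (R := ℚ) p) := by
    intro p
    induction p using LaurentPolynomial.induction_on' with
    | add p q hp hq => simp only [map_add, hp, hq]
    | C_mul_T n a =>
      have e : (C a * T n : ℚ[T;T⁻¹]) = a • T n := by
        rw [Algebra.smul_def]; rfl
      have e2 : ∀ u : Rˣ, evalUnit u (T n : ℚ[T;T⁻¹]) = ((u ^ n : Rˣ) : R) := fun u =>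
        LaurentPolynomial.eval₂_T (algebraMap ℚ R) u n
      rw [e, map_smul, map_smul, LaurentPolynomial.comul_T, map_smul,
        Algebra.TensorProduct.lift_tmul, e2, e2, e2, mul_zpow, Units.val_mul]
  ext f
  change evalUnit (s * t) (μ f) = _
  rw [key, Pts.mul_hom_apply]
  have e : CoalgebraStruct.comul (R := ℚ) (μ f) =
      TensorProduct.map (μ : O →ₐ[ℚ] ℚ[T;T⁻¹]).toLinearMap (μ : O →ₐ[ℚ] ℚ[T;T⁻¹]).toLinearMap
        (CoalgebraStruct.comul (R := ℚ) f) :=
    (CoalgHomClass.map_comp_comul_apply μ f).symm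
  rw [e]
  generalize CoalgebraStruct.comul (R := ℚ) f = z
  induction z using TensorProduct.induction_on with
  | zero => simp
  | tmul a b =>
    rw [TensorProduct.map_tmul, Algebra.TensorProduct.lift_tmul, Algebra.TensorProduct.lift_tmul]
    rfl
  | add a b ha hb => simp only [map_add, ha, hb]

theorem cochar_one {R : Type} [CommRing R] [Algebra ℚ R] (μ : O →ₐc[ℚ] ℚ[T;T⁻¹]) :
    Pts.cochar μ (1 : Rˣ) = 1 := by
  have h := cochar_mul μ (1 : Rˣ) 1
  rw [mul_one] at h
  exact left_eq_mul.mp h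

theorem cochar_map {R S : Type} [CommRing R] [Algebra ℚ R] [CommRing S] [Algebra ℚ S] (ψ : R →ₐ[ℚ] S)
    (μ : O →ₐc[ℚ] ℚ[T;T⁻¹]) (t : Rˣ) :
    Pts.map ψ (Pts.cochar μ t) = Pts.cochar μ (Units.map (ψ : R →* S) t) := by
  have key : ∀ p : ℚ[T;T⁻¹], ψ (evalUnit t p) = evalUnit (Units.map (ψ : R →* S) t) p := by
    intro p
    induction p using LaurentPolynomial.induction_on' with
    | add p q hp hq => simp only [map_add, hp, hq]
    | C_mul_T n a =>
      have e : (C a * T n : ℚ[T;T⁻¹]) = a • T n := by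
        rw [Algebra.smul_def]; rfl
      have e1 : evalUnit t (T n : ℚ[T;T⁻¹]) = ((t ^ n : Rˣ) : R) :=
        LaurentPolynomial.eval₂_T (algebraMap ℚ R) t n
      have e2 : evalUnit (Units.map (ψ : R →* S) t) (T n : ℚ[T;T⁻¹]) =
          ((Units.map (ψ : R →* S) t ^ n : Sˣ) : S) :=
        LaurentPolynomial.eval₂_T (algebraMap ℚ S) _ n
      rw [e, map_smul, map_smul, map_smul, e1, e2, ← map_zpow]
      rfl
  ext f
  exact key (μ f)

theorem cochar_onPts {R : Type} [CommRing R] [Algebra ℚ R] (hM : IsLevi A A' π μ) (γ : Γ) (t : Rˣ) :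
    A.onPts R γ (Pts.cochar μ t) = Pts.cochar μ t := by
  ext f
  change evalUnit t (μ (A.act γ⁻¹ f)) = evalUnit t (μ f)
  rw [hM.fixed]

/-- Points of `M̂` commute with `μ(t)` (`hM.cent` for `S = R`, `ψ = id`). -/
theorem incl_comm {R : Type} [CommRing R] [Algebra ℚ R] (hM : IsLevi A A' π μ) (g : Pts O' R)
    (t : Rˣ) : Commute (Pts.incl π g) (Pts.cochar μ t) := by
  have h := (hM.cent R (Pts.incl π g)).mp ⟨g, rfl⟩ R (AlgHom.id ℚ R) t
  exact h

/-- `μ(t)` is itself a point of `M̂` (`hM.cent`; it commutes with all `μ(t')`: `cochar_mul`, `mul_comm`, `cochar_map`). -/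
theorem exists_cochar' {R : Type} [CommRing R] [Algebra ℚ R] (hM : IsLevi A A' π μ) (t : Rˣ) :
    ∃ z : Pts O' R, Pts.incl π z = Pts.cochar μ t := by
  refine (hM.cent R (Pts.cochar μ t)).mpr fun S _ _ ψ t' => ?_
  rw [cochar_map]
  change _ * _ = _ * _
  rw [← cochar_mul, ← cochar_mul, mul_comm]

/-- `ᴸM(R) → ᴸG(R)`. -/
theorem exists_inclL (hM : IsLevi A A' π μ) (R : Type) [CommRing R] [Algebra ℚ R] :
    ∃ ι : A'.LGroup R →* A.LGroup R, Function.Injective ι ∧
      ∀ x, (ι x).left = Pts.incl π x.left ∧ (ι x).right = x.right := by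
  let f : Pts O' R →* Pts O R := ⟨⟨Pts.incl π, incl_one π⟩, incl_mul π⟩
  refine ⟨SemidirectProduct.map f (MonoidHom.id Γ) (fun γ => ?_), ?_, fun x => ⟨rfl, rfl⟩⟩
  · ext1 g
    exact (incl_onPts hM γ g).symm
  · intro x y hxy
    have h1 : Pts.incl π x.left = Pts.incl π y.left := congrArg (fun z => z.left) hxy
    have h2 : x.right = y.right := congrArg (fun z => z.right) hxy
    exact SemidirectProduct.ext (incl_injective hM.surj h1) h2

end Pool.Agent.Lib.MP_666dc0_nt.LV
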