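import Pool.Agent.Lib.MP_666dc0_nt.LV.W1b
import Pool.Agent.Lib.MP_666dc0_nt.LV.W2

open LaurentPolynomial

namespace Pool.Agent.Lib.MP_666dc0_nt.LV

open Pool.Agent.Lib.MP_666dc0_nt.IG

variable {O O' : Type} [CommRing O] [HopfAlgebra ℚ O] [CommRing O'] [HopfAlgebra ℚ O'] {Γ : Type}
  [Group Γ] {A : HopfAction Γ O} {A' : HopfAction Γ O'} {π : O →ₐc[ℚ] O'}
  {μ : O →ₐc[ℚ] ℚ[T;T⁻¹]} {n : ℕ}

private lemma W3_sum_mul {R : Type} [CommRing R] {J : Finset ℤ}
    {q : ℤ → Matrix (Fin n) (Fin n) R}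
    (hq : ∀ l ∈ J, ∀ l' ∈ J, q l * q l' = if l = l' then q l else 0) (a b : ℤ → R) :
    (∑ l ∈ J, a l • q l) * (∑ l ∈ J, b l • q l) = ∑ l ∈ J, (a l * b l) • q l := by
  rw [Finset.sum_mul]
  refine Finset.sum_congr rfl fun l hl => ?_
  rw [Finset.mul_sum, Finset.sum_eq_single l]
  · rw [Matrix.smul_mul, Matrix.mul_smul, smul_smul, hq l hl l hl, if_pos rfl]
  · intro l' hl' hne
    rw [Matrix.smul_mul, Matrix.mul_smul, hq l hl l' hl', if_neg (Ne.symm hne), smul_zero, smul_zero]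
  · intro h
    exact absurd hl h

/-- The projections are polynomials in the matrix of `μ(2)`: the `2 ^ l` are different rational numbers, Lagrange
interpolation gives `Q l : ℚ[X]` with `(Q l).eval (2 ^ l') = if l = l' then 1 else 0` for `l' ∈ J`. -/
theorem pj_mem_adjoin {ρ : MatRep A n} {J : Finset ℤ} {p : ℤ → Matrix (Fin n) (Fin n) ℚ}
    (hW : Wts μ ρ J p) {l : ℤ} (hl : l ∈ J) :
    p l ∈ Algebra.adjoin ℚ {ρ.gm (Pts.cochar μ (Units.mk0 (2 : ℚ) two_ne_zero))} := by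
  have hM2 : ρ.gm (Pts.cochar μ (Units.mk0 (2 : ℚ) two_ne_zero)) = ∑ l ∈ J, ((2 : ℚ) ^ l) • p l := by
    rw [hW.gm ℚ]
    refine Finset.sum_congr rfl fun l _ => ?_
    have h1 : (p l).map (algebraMap ℚ ℚ) = p l := by
      ext i j
      simp
    rw [h1]
    simp
  have key : ∀ Q : Polynomial ℚ,
      Polynomial.aeval (ρ.gm (Pts.cochar μ (Units.mk0 (2 : ℚ) two_ne_zero))) Q =
        ∑ l ∈ J, (Q.eval ((2 : ℚ) ^ l)) • p l := by
    intro Q
    induction Q using Polynomial.induction_on with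
    | C a =>
      rw [Polynomial.aeval_C, Algebra.algebraMap_eq_smul_one, ← hW.sum, Finset.smul_sum]
      simp
    | add P Q hP hQ =>
      rw [map_add, hP, hQ, ← Finset.sum_add_distrib]
      refine Finset.sum_congr rfl fun l _ => ?_
      rw [Polynomial.eval_add, add_smul]
    | monomial k a h =>
      rw [pow_succ, ← mul_assoc, map_mul, h, Polynomial.aeval_X, hM2, W3_sum_mul hW.idem]
      refine Finset.sum_congr rfl fun l _ => ?_
      simp only [Polynomial.eval_mul, Polynomial.eval_X]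
  have hinj : Set.InjOn (fun l : ℤ => (2 : ℚ) ^ l) (J : Set ℤ) := fun a _ b _ hab =>
    zpow_right_injective₀ (by norm_num) (by norm_num) hab
  have h1 := key (Lagrange.basis J (fun l : ℤ => (2 : ℚ) ^ l) l)
  rw [Finset.sum_eq_single l] at h1
  · rw [Lagrange.eval_basis_self hinj hl, one_smul] at h1
    rw [← h1]
    exact Polynomial.aeval_mem_adjoin_singleton ℚ _
  · intro l' hl' hne
    have h2 := Lagrange.eval_basis_of_ne (v := fun l : ℤ => (2 : ℚ) ^ l) (Ne.symm hne) hl'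
    rw [h2, zero_smul]
  · intro h
    exact absurd hl h

/-- The matrices of points of `M̂` commute with the projections. Let `t = 2 ∈ Rˣ` (image of `2 ∈ ℚˣ`). By `incl_comm`
`ρ.gm (incl π g)` commutes with `ρ.gm (cochar μ 2)`, which is the image of the rational matrix of
`pj_mem_adjoin` (`cochar_map` for `ℚ → R`, `MatRep.gm_map`), so it commutes with the image of `p l`. -/
theorem gm_incl_comm (hM : IsLevi A A' π μ) {ρ : MatRep A n} {J : Finset ℤ}
    {p : ℤ → Matrix (Fin n) (Fin n) ℚ} (hW : Wts μ ρ J p) {R : Type} [CommRing R] [Algebra ℚ R]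
    (g : Pts O' R) {l : ℤ} (hl : l ∈ J) :
    pj R p l * ρ.gm (Pts.incl π g) = ρ.gm (Pts.incl π g) * pj R p l := by
  have h1 := pj_mem_adjoin hW hl
  have h2 : Pts.cochar (R := R) μ (Units.map ((Algebra.ofId ℚ R : ℚ →ₐ[ℚ] R) : ℚ →* R)
      (Units.mk0 (2 : ℚ) two_ne_zero)) =
      Pts.map (Algebra.ofId ℚ R) (Pts.cochar μ (Units.mk0 (2 : ℚ) two_ne_zero)) := by
    rw [cochar_map]
  have h3 := incl_comm hM g (Units.map ((Algebra.ofId ℚ R : ℚ →ₐ[ℚ] R) : ℚ →* R)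
      (Units.mk0 (2 : ℚ) two_ne_zero))
  rw [h2] at h3
  have h4 : ρ.gm (Pts.incl π g) *
      (ρ.gm (Pts.cochar μ (Units.mk0 (2 : ℚ) two_ne_zero))).map (Algebra.ofId ℚ R) =
      (ρ.gm (Pts.cochar μ (Units.mk0 (2 : ℚ) two_ne_zero))).map (Algebra.ofId ℚ R) *
        ρ.gm (Pts.incl π g) := by
    rw [MatRep.gm_map, ← MatRep.gm_mul, ← MatRep.gm_mul, h3.eq]
  have h5 : ∀ B ∈ Algebra.adjoin ℚ {ρ.gm (Pts.cochar μ (Units.mk0 (2 : ℚ) two_ne_zero))},
      (AlgHom.mapMatrix (Algebra.ofId ℚ R)) B * ρ.gm (Pts.incl π g) =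
        ρ.gm (Pts.incl π g) * (AlgHom.mapMatrix (Algebra.ofId ℚ R)) B := by
    intro B hB
    induction hB using Algebra.adjoin_induction with
    | mem x hx =>
      rw [Set.mem_singleton_iff] at hx
      rw [hx]
      exact h4.symm
    | algebraMap r =>
      rw [AlgHom.commutes]
      exact Algebra.commutes r _
    | add x y _ _ hx hy => rw [map_add, add_mul, mul_add, hx, hy]
    | mul x y _ _ hx hy => rw [map_mul, mul_assoc, hy, ← mul_assoc, hx, mul_assoc]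
  exact h5 _ h1

/-- The same for elements of `ᴸM(R)` (`pm_comm`). -/
theorem ev_incl_comm (hM : IsLevi A A' π μ) {ρ : MatRep A n} {J : Finset ℤ}
    {p : ℤ → Matrix (Fin n) (Fin n) ℚ} (hW : Wts μ ρ J p) {R : Type} [CommRing R] [Algebra ℚ R]
    (g : Pts O' R) (σ : Γ) {l : ℤ} (hl : l ∈ J) :
    pj R p l * ρ.ev R (⟨Pts.incl π g, σ⟩ : A.LGroup R) =
      ρ.ev R (⟨Pts.incl π g, σ⟩ : A.LGroup R) * pj R p l := by
  rw [MatRep.ev_apply]
  rw [← mul_assoc, gm_incl_comm hM hW g hl, mul_assoc, pm_comm hW R σ hl, mul_assoc]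

/-- `ρ(g μ(t), σ) = ρ(g, σ) ρ(μ(t))` (`ρ.pm R σ` commutes with `ρ.gm (cochar μ t)`: `pm_mul_gm` and `cochar_onPts`, or `hW.gm`
and `pm_comm`). -/
theorem ev_mul_cochar (hM : IsLevi A A' π μ) (ρ : MatRep A n) {R : Type} [CommRing R] [Algebra ℚ R]
    (g : Pts O R) (t : Rˣ) (σ : Γ) :
    ρ.ev R (⟨g * Pts.cochar μ t, σ⟩ : A.LGroup R) =
      ρ.ev R (⟨g, σ⟩ : A.LGroup R) * ρ.gm (Pts.cochar μ t) := by
  rw [MatRep.ev_apply, MatRep.ev_apply]
  have h1 := ρ.pm_mul_gm (R := R) σ (Pts.cochar μ t)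
  rw [cochar_onPts hM] at h1
  rw [MatRep.gm_mul, mul_assoc, mul_assoc, ← h1]

/-- A point of `Ĝ` whose matrix commutes with the projections is in `M̂` (`hM.cent`; for `ψ : R → S` and `t : Sˣ` the matrix of
`Pts.map ψ g` commutes with `ρ.gm (cochar μ t) = ∑ t ^ l • pj S p l` (`hW.gm`, `pj_map`), and `ρ` is faithful: `gm_injective`
in IG/J8.lean or nearby: two points with the same matrix are equal). -/
theorem exists_incl_of_comm (hM : IsLevi A A' π μ) {ρ : MatRep A n} (hρ : Faithful ρ) {J : Finset ℤ}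
    {p : ℤ → Matrix (Fin n) (Fin n) ℚ} (hW : Wts μ ρ J p) {R : Type} [CommRing R] [Algebra ℚ R]
    (g : Pts O R) (h : ∀ l ∈ J, pj R p l * ρ.gm g = ρ.gm g * pj R p l) :
    ∃ g' : Pts O' R, Pts.incl π g' = g := by
  refine (hM.cent R g).mpr fun S _ _ ψ t => ?_
  refine gm_injective ρ hρ ?_
  rw [MatRep.gm_mul, MatRep.gm_mul, hW.gm S t, ← MatRep.gm_map, Finset.mul_sum, Finset.sum_mul]
  refine Finset.sum_congr rfl fun l hl => ?_
  rw [Matrix.mul_smul, Matrix.smul_mul]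
  congr 1
  have h1 := congrArg (fun B => B.map (ψ : R →+* S)) (h l hl)
  simp only [Matrix.map_mul] at h1
  rw [pj_map] at h1
  exact h1.symm

end Pool.Agent.Lib.MP_666dc0_nt.LV
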