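import Pool.Agent.Lib.MP_666dc0_nt.LD.EC3
import Pool.Agent.Lib.MP_666dc0_nt.LD.ED1
import Pool.Agent.Lib.MP_666dc0_nt.LV.H2
import Pool.Agent.Lib.MP_666dc0_nt.LV.H4
import Pool.Agent.Lib.MP_666dc0_nt.LV.M1
import Pool.Agent.Lib.MP_666dc0_nt.LV.W3

open Polynomial LaurentPolynomial

namespace Pool.Agent.Lib.MP_666dc0_nt.LV

open Pool.Agent.Lib.MP_666dc0_nt.IG

variable {O O' : Type} [CommRing O] [HopfAlgebra ℚ O] [CommRing O'] [HopfAlgebra ℚ O'] {Γ : Type}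
  [Group Γ] {A : HopfAction Γ O} {A' : HopfAction Γ O'} {π : O →ₐc[ℚ] O'}
  {μ : O →ₐc[ℚ] ℚ[T;T⁻¹]} {n : ℕ}

/-- The matrix of `x = (incl m · μ(c), σ)` (`ev_mul_cochar`, `Wts.dg`, `incl_map`, `MatRep.ev_mapL`). -/
theorem ev_eq_dg (hM : IsLevi A A' π μ) {ρ : MatRep A n} {J : Finset ℤ}
    {p : ℤ → Matrix (Fin n) (Fin n) ℚ} (hW : Wts μ ρ J p) {K Ω : Type} [Field K] [Algebra ℚ K]
    [Field Ω] [Algebra ℚ Ω] [Algebra K Ω] (m : Pts O' K) (c : Ωˣ) (x : A.LGroup Ω)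
    (hx : x.left = Pts.incl π (Pts.map (algebraMap K Ω).toRatAlgHom m) * Pts.cochar μ c) :
    ρ.ev Ω x = (ρ.ev K (⟨Pts.incl π m, x.right⟩ : A.LGroup K)).map (algebraMap K Ω) *
      LD.dg J (pj Ω p) (c : Ω) := by
  obtain ⟨g, σ⟩ := x
  change g = _ at hx
  subst hx
  rw [ev_mul_cochar hM, hW.dg]
  congr 1
  rw [← incl_map]
  exact ρ.ev_mapL (algebraMap K Ω).toRatAlgHom (⟨Pts.incl π m, σ⟩ : A.LGroup K)

/-- THE HEART. A minimal point with `r σ = (incl m · μ(c σ), σ)` satisfying identity I commutes with the cocharacter `μ`.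

Proof. Let `e l = pj Ω p l` (`hW.proj Ω : LD.Proj J e`), `X = (ρ.ev K (incl m, σ)).map (algebraMap K Ω)`, `T = c σ`; `ρ.ev Ω (r σ) = X * dg J e T` (`ev_eq_dg`,
`h.val.proj`). `X` commutes with the `e l` (`ev_incl_comm` over `K`, mapped to `Ω`, `pj_map`) and is killed by `∏ α ∈ Λ, (X - α)` (`DG.exists_Lam hm Ω`);
`hT` of the LD lemmas is `types_of_transcendental hc`. (1) `LD.exists_proj_poly`: `e i` is a polynomial in `ρ.ev Ω (r σ)`, so it is in `spA ρ r Ω`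
(`aeval_mem_spA`). (2) For `γ, δ`: `LD.trace_offdiag` with `G = ρ.ev Ω (r γ)`, `H = ρ.ev Ω (r δ)`,
`δ a b = algebraMap K Ω (D (wd σ γ δ (a, b)))`, `η l a b = (c γ * c δ) ^ l * algebraMap K Ω (E l (wd σ γ δ (a, b)))` (a constant multiple of an element of `CH`);
`hδ0` from `hD0 (γ * δ)` (`wd σ γ δ (a, 0) = σ ^ a * (γ * δ)`, `algebraMap` injective); `h` is `hid (wd σ γ δ (a, b))`:
`ρ.ev (r (wd ..)) = (ρ.ev (r σ)) ^ a * G * (ρ.ev (r σ)) ^ b * H` and `c (wd ..) = (c σ) ^ (a + b) * (c γ * c δ)`. So `trace (e i * G * e j * H) = 0` for `i ≠ j`.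
(3) `commute_of_key` (H2.lean) with `z = Pts.cochar μ 2` (`hW.gm`). -/
theorem heart_comm {G : Red n} (hM : IsLevi A A' π μ) {ρ : MatRep A n} (hG : IsRedG ρ G)
    (hρ : Faithful ρ) (TD : TensorData G) {J : Finset ℤ} {p : ℤ → Matrix (Fin n) (Fin n) ℚ}
    (hW : Wts μ ρ J p) {K K1 Ω : Type} [Field K] [IsAlgClosed K] [CharZero K] [Algebra ℚ K]
    [Field K1] [CharZero K1] [Field Ω] [IsAlgClosed Ω] [Algebra ℚ Ω] [Algebra K1 Ω] [Algebra K Ω]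
    {V : Γ → O → K1} {r : Γ →* A.LGroup Ω} (h : IsMinPt ρ V Ω r) (σ : Γ) (m : Pts O' K)
    (c : Γ →* Ωˣ) (hc : Transcendental K (c σ : Ω))
    (hrσ : (r σ).left = Pts.incl π (Pts.map (algebraMap K Ω).toRatAlgHom m) * Pts.cochar μ (c σ))
    (hm : DG (ρ.ev K (⟨Pts.incl π m, σ⟩ : A.LGroup K))) (D : Γ → K) (E : ℤ → Γ → K)
    (hid : ∀ w, algebraMap K Ω (D w) * (ρ.ev Ω (r w)).trace =
      ∑ l ∈ J, (c w : Ω) ^ l * algebraMap K Ω (E l w))
    (hD0 : ∀ γ, {a : ℕ | D (σ ^ a * γ) = 0}.Finite)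
    (hDch : ∀ γ δ, (fun x : NN => algebraMap K Ω (D (wd σ γ δ x))) ∈ LD.CH NN K Ω)
    (hEch : ∀ l, ∀ γ δ, (fun x : NN => algebraMap K Ω (E l (wd σ γ δ x))) ∈ LD.CH NN K Ω) :
    ∀ γ, ∀ l ∈ J, pj Ω p l * ρ.ev Ω (r γ) = ρ.ev Ω (r γ) * pj Ω p l := by
  haveI : CharZero Ω := algebraRat.charZero Ω
  have hq := hW.proj Ω
  have hr : ∀ γ, (r γ).right = γ := h.val.proj
  obtain ⟨Y, hY⟩ : ∃ Y, Y = (ρ.ev K (⟨Pts.incl π m, σ⟩ : A.LGroup K)).map (algebraMap K Ω) :=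
    ⟨_, rfl⟩
  have hev : ρ.ev Ω (r σ) = Y * LD.dg J (pj Ω p) (c σ : Ω) := by
    rw [ev_eq_dg hM hW m (c σ) (r σ) hrσ, hr σ, hY]
  have hYe : ∀ j ∈ J, pj Ω p j * Y = Y * pj Ω p j := by
    intro j hj
    have h1 := congrArg (fun B => B.map (algebraMap K Ω)) (ev_incl_comm hM hW m σ hj)
    simp only [Matrix.map_mul] at h1
    rw [pj_map, ← hY] at h1
    exact h1
  obtain ⟨Λ, h0, hΛ⟩ := DG.exists_Lam hm Ω
  rw [← hY] at hΛ
  have hT : ∀ (α β : K) (i j : ℤ), α ≠ 0 → β ≠ 0 →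
      algebraMap K Ω α * (c σ : Ω) ^ i = algebraMap K Ω β * (c σ : Ω) ^ j → i = j :=
    fun α β i j hα hβ h => types_of_transcendental hc α β i j hα hβ h
  have hsp : ∀ l ∈ J, pj Ω p l ∈ spA ρ r Ω := by
    intro i hi
    obtain ⟨Q, hQ⟩ := LD.exists_proj_poly (n := n) (c σ : Ω) (c σ).ne_zero hT J Λ h0 i
    have h1 := hQ (pj Ω p) hq Y hYe hΛ hi
    rw [← h1, ← hev]
    exact aeval_mem_spA ρ r σ Q
  have hkey : ∀ i ∈ J, ∀ j ∈ J, i ≠ j → ∀ γ δ,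
      (pj Ω p i * ρ.ev Ω (r γ) * pj Ω p j * ρ.ev Ω (r δ)).trace = 0 := by
    intro i hi j hj hij γ δ
    refine LD.trace_offdiag (c σ : Ω) (c σ).ne_zero hT hq Y hYe Λ h0 hΛ (ρ.ev Ω (r γ))
      (ρ.ev Ω (r δ))
      (fun a b => algebraMap K Ω (D (wd σ γ δ (Multiplicative.ofAdd a, Multiplicative.ofAdd b))))
      (fun l a b => (((c γ * c δ : Ωˣ) : Ω) ^ l) *
        algebraMap K Ω (E l (wd σ γ δ (Multiplicative.ofAdd a, Multiplicative.ofAdd b))))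
      (hDch γ δ) ?_ ?_ ?_ hi hj hij
    · intro l _
      exact Subalgebra.mul_mem _
        ((LD.CH NN K Ω).algebraMap_mem (((c γ * c δ : Ωˣ) : Ω) ^ l)) (hEch l γ δ)
    · refine (hD0 (γ * δ)).subset fun a ha => ?_
      have h1 : algebraMap K Ω (D (wd σ γ δ (Multiplicative.ofAdd a, Multiplicative.ofAdd 0))) = 0 :=
        ha
      rw [map_eq_zero] at h1
      have h2 : wd σ γ δ (Multiplicative.ofAdd a, Multiplicative.ofAdd 0) = σ ^ a * (γ * δ) := by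
        change σ ^ a * γ * σ ^ 0 * δ = _
        rw [pow_zero, mul_one, mul_assoc]
      rw [h2] at h1
      exact h1
    · intro a b
      have h1 := hid (wd σ γ δ (Multiplicative.ofAdd a, Multiplicative.ofAdd b))
      have h2 : ρ.ev Ω (r (wd σ γ δ (Multiplicative.ofAdd a, Multiplicative.ofAdd b))) =
          (Y * LD.dg J (pj Ω p) (c σ : Ω)) ^ a * ρ.ev Ω (r γ) *
            (Y * LD.dg J (pj Ω p) (c σ : Ω)) ^ b * ρ.ev Ω (r δ) := by
        change ρ.ev Ω (r (σ ^ a * γ * σ ^ b * δ)) = _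
        rw [map_mul, map_mul, map_mul, map_mul, map_mul, map_mul, map_pow, map_pow, map_pow,
          map_pow, hev]
      have h3 : c (wd σ γ δ (Multiplicative.ofAdd a, Multiplicative.ofAdd b)) =
          c σ ^ (a + b) * (c γ * c δ) := by
        change c (σ ^ a * γ * σ ^ b * δ) = _
        rw [map_mul, map_mul, map_mul, map_pow, map_pow, pow_add]
        simp only [mul_assoc]
        rw [mul_left_comm (c γ)]
      rw [h2, h3] at h1
      rw [h1]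
      refine Finset.sum_congr rfl fun l _ => ?_
      rw [Units.val_mul, Units.val_pow_eq_pow_val, mul_zpow, ← mul_assoc]
      congr 2
      rw [← zpow_natCast, ← zpow_mul]
      congr 1
      push_cast
      ring
  have h2 : (2 : Ω) ≠ 0 := two_ne_zero
  have hz : ρ.gm (Pts.cochar μ (Units.mk0 (2 : Ω) h2)) = ∑ l ∈ J, (2 : Ω) ^ l • pj Ω p l := by
    rw [hW.gm Ω]
    refine Finset.sum_congr rfl fun l _ => ?_
    rw [Units.val_zpow_eq_zpow_val, Units.val_mk0]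
    rfl
  intro γ l hl
  exact commute_of_key ρ hG hρ TD h hq hsp hkey _ hz γ l hl

end Pool.Agent.Lib.MP_666dc0_nt.LV
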