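import Pool.Agent.Lib.MP_666dc0_nt.Mg.G042
import Pool.Agent.Lib.MP_666dc0_nt.RepL

open Polynomial TensorProduct
open scoped TensorProduct

namespace Pool.Agent.Lib.MP_666dc0_nt.LV

open Pool.Agent.Lib.MP_666dc0_nt.IG

variable {O : Type} [CommRing O] [HopfAlgebra ℚ O] {Γ : Type} [Group Γ] {A : HopfAction Γ O}
  {n : ℕ} (ρ : MatRep A n)

/-- If the action has finite image then the elements of `Γ` act with finite order. -/
theorem exists_pow_act (hfin : (Set.range A.act).Finite) (γ : Γ) :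
    ∃ m : ℕ, 0 < m ∧ A.act γ ^ m = 1 := by
  have h1 : Finite A.act.range := by
    have h3 : Set.range A.act = (A.act.range : Set (O ≃ₐ[ℚ] O)) := by ext; simp
    rw [h3] at hfin
    exact hfin
  obtain ⟨g, hg⟩ : ∃ g : A.act.range, (g : O ≃ₐ[ℚ] O) = A.act γ := ⟨⟨A.act γ, ⟨γ, rfl⟩⟩, rfl⟩
  refine ⟨orderOf g, orderOf_pos g, ?_⟩
  have h2 : ((g ^ orderOf g : A.act.range) : O ≃ₐ[ℚ] O) = 1 := by
    rw [pow_orderOf_eq_one]; rfl
  rw [← hg, ← h2]
  rfl

/-- Finite order passes to equivariant quotients. -/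
theorem act_pow_of_surjective {O' : Type} [CommRing O'] [HopfAlgebra ℚ O'] {A' : HopfAction Γ O'}
    (π : O → O') (hπ : Function.Surjective π) (h : ∀ γ f, π (A.act γ f) = A'.act γ (π f)) {γ : Γ}
    {m : ℕ} (hm : A.act γ ^ m = 1) : A'.act γ ^ m = 1 := by
  have h1 : A.act (γ ^ m) = 1 := by rw [map_pow, hm]
  rw [← map_pow]
  ext f
  obtain ⟨f, rfl⟩ := hπ f
  rw [← h, h1]
  rfl

/-- The linear combinations of the matrix coefficients. -/
private noncomputable def H0_em (K : Type) [Field K] [Algebra ℚ K] :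
    Matrix (Fin n) (Fin n) K →ₗ[K] K ⊗[ℚ] O where
  toFun C := ∑ i, ∑ j, C j i ⊗ₜ[ℚ] ρ.a i j
  map_add' C D := by
    simp only [Matrix.add_apply, TensorProduct.add_tmul, Finset.sum_add_distrib]
  map_smul' c C := by
    simp only [Matrix.smul_apply, RingHom.id_apply, Finset.smul_sum, TensorProduct.smul_tmul']

private lemma H0_em_apply {K : Type} [Field K] [Algebra ℚ K] (C : Matrix (Fin n) (Fin n) K) :
    H0_em ρ K C = ∑ i, ∑ j, C j i ⊗ₜ[ℚ] ρ.a i j := rfl

private lemma H0_act (γ : Γ) (k j : Fin n) :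
    A.act γ⁻¹ (ρ.a k j) = ∑ l, ∑ q, (ρ.P γ k l * ρ.P γ⁻¹ q j) • ρ.a l q := by
  have h1 : ∀ l, ∑ q, ρ.P γ⁻¹ q j • ρ.a l q = ∑ q, ρ.P γ⁻¹ l q • A.act γ⁻¹ (ρ.a q j) := fun l =>
    ρ.act_a γ⁻¹ l j
  have h2 : ∀ q, ∑ l, ρ.P γ k l * ρ.P γ⁻¹ l q = if k = q then 1 else 0 := by
    intro q
    rw [← Matrix.mul_apply, ← map_mul, mul_inv_cancel, map_one, Matrix.one_apply]
  calc A.act γ⁻¹ (ρ.a k j) = ∑ q, (if k = q then (1 : ℚ) else 0) • A.act γ⁻¹ (ρ.a q j) := by
        simp
    _ = ∑ q, (∑ l, ρ.P γ k l * ρ.P γ⁻¹ l q) • A.act γ⁻¹ (ρ.a q j) := by simp only [h2]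
    _ = ∑ l, ρ.P γ k l • ∑ q, ρ.P γ⁻¹ l q • A.act γ⁻¹ (ρ.a q j) := by
        simp only [Finset.sum_smul, Finset.smul_sum, smul_smul]
        exact Finset.sum_comm
    _ = ∑ l, ρ.P γ k l • ∑ q, ρ.P γ⁻¹ q j • ρ.a l q := by simp only [h1]
    _ = _ := by simp only [Finset.smul_sum, smul_smul]

private lemma H0_transl {K : Type} [Field K] [Algebra ℚ K] (x : A.LGroup K)
    (C : Matrix (Fin n) (Fin n) K) :
    A.transl x.left x.right (H0_em ρ K C) =
      H0_em ρ K (ρ.pm K x.right⁻¹ * C * ρ.ev K x) := by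
  have h1 : ∀ (c : K) (i j : Fin n), A.transl x.left x.right (c ⊗ₜ[ℚ] ρ.a i j) =
      ∑ l, ∑ q, (ρ.pm K x.right⁻¹ q j * c * ρ.ev K x i l) ⊗ₜ[ℚ] ρ.a l q := by
    intro c i j
    rw [HopfAction.transl, LinearMap.liftBaseChange_tmul, LinearMap.comp_apply, ρ.comul_a, map_sum]
    simp only [TensorProduct.map_tmul]
    have h2 : ∀ k, (x.left.hom.toLinearMap (ρ.a i k)) ⊗ₜ[ℚ]
        ((A.act x.right⁻¹).toLinearMap (ρ.a k j)) =
        ∑ l, ∑ q, (x.left.hom (ρ.a i k) * algebraMap ℚ K (ρ.P x.right k l) *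
          algebraMap ℚ K (ρ.P x.right⁻¹ q j)) ⊗ₜ[ℚ] ρ.a l q := by
      intro k
      change (x.left.hom (ρ.a i k)) ⊗ₜ[ℚ] (A.act x.right⁻¹ (ρ.a k j)) = _
      rw [H0_act, TensorProduct.tmul_sum]
      refine Finset.sum_congr rfl fun l _ => ?_
      rw [TensorProduct.tmul_sum]
      refine Finset.sum_congr rfl fun q _ => ?_
      rw [TensorProduct.tmul_smul, TensorProduct.smul_tmul', Algebra.smul_def, map_mul]
      congr 1
      ring
    rw [Finset.sum_congr rfl fun k _ => h2 k, Finset.sum_comm, Finset.smul_sum]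
    refine Finset.sum_congr rfl fun l _ => ?_
    rw [Finset.sum_comm, Finset.smul_sum]
    refine Finset.sum_congr rfl fun q _ => ?_
    rw [← TensorProduct.sum_tmul, TensorProduct.smul_tmul', smul_eq_mul]
    congr 1
    rw [MatRep.ev_apply, Matrix.mul_apply, Finset.mul_sum, Finset.mul_sum]
    refine Finset.sum_congr rfl fun k _ => ?_
    rw [MatRep.pm_apply, MatRep.pm_apply, MatRep.gm, Matrix.map_apply]
    change c * (x.left.hom (ρ.a i k) * _ * _) = _
    ring
  rw [H0_em_apply, map_sum]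
  simp only [map_sum, h1]
  rw [H0_em_apply]
  calc ∑ i, ∑ j, ∑ l, ∑ q, (ρ.pm K x.right⁻¹ q j * C j i * ρ.ev K x i l) ⊗ₜ[ℚ] ρ.a l q =
      ∑ l, ∑ q, ∑ i, ∑ j, (ρ.pm K x.right⁻¹ q j * C j i * ρ.ev K x i l) ⊗ₜ[ℚ] ρ.a l q := by
        rw [Finset.sum_congr rfl fun i _ => Finset.sum_comm, Finset.sum_comm]
        refine Finset.sum_congr rfl fun l _ => ?_
        rw [Finset.sum_congr rfl fun i _ => Finset.sum_comm, Finset.sum_comm]
    _ = _ := by
        refine Finset.sum_congr rfl fun l _ => Finset.sum_congr rfl fun q _ => ?_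
        simp only [← TensorProduct.sum_tmul]
        congr 1
        rw [Matrix.mul_apply]
        refine Finset.sum_congr rfl fun i _ => ?_
        rw [Matrix.mul_apply, Finset.sum_mul]

private lemma H0_counit {K : Type} [Field K] [Algebra ℚ K] (C : Matrix (Fin n) (Fin n) K)
    (h : H0_em ρ K C = 0) : C.trace = 0 := by
  have h1 := congrArg (fun z => (TensorProduct.rid ℚ K)
    (LinearMap.lTensor K (Coalgebra.counit (R := ℚ) (A := O)) z)) h
  simp only [H0_em_apply, map_sum, LinearMap.lTensor_tmul, ρ.counit_a, TensorProduct.rid_tmul,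
    map_zero] at h1
  rw [← h1, Matrix.trace]
  refine Finset.sum_congr rfl fun i _ => ?_
  simp

private lemma H0_expand {K : Type} [Field K] [CharZero K] {M M' : Matrix (Fin n) (Fin n) K}
    (hM : M' * M = 1) {m : ℕ} (hm : 0 < m) {p : K[X]} (hp : Squarefree p)
    (h : aeval (M ^ m) p = 0) : ∃ q : K[X], Squarefree q ∧ aeval M q = 0 := by
  -- drop the root zero
  obtain ⟨p1, hp1, h01, h1⟩ : ∃ p1 : K[X], Squarefree p1 ∧ p1.coeff 0 ≠ 0 ∧
      aeval (M ^ m) p1 = 0 := by
    by_cases h0 : p.coeff 0 = 0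
    · obtain ⟨p1, rfl⟩ := X_dvd_iff.2 h0
      refine ⟨p1, hp.squarefree_of_dvd (dvd_mul_left _ _), fun h2 => ?_, ?_⟩
      · obtain ⟨p2, rfl⟩ := X_dvd_iff.2 h2
        have h3 := hp X ⟨p2, by ring⟩
        exact not_isUnit_X h3
      · rw [map_mul, aeval_X] at h
        have h2 : M' ^ m * M ^ m = 1 := by
          clear h hp hm h0
          induction m with
          | zero => simp
          | succ m ih => rw [pow_succ, pow_succ', mul_assoc, ← mul_assoc M', hM, one_mul, ih]
        calc aeval (M ^ m) p1 = M' ^ m * (M ^ m * aeval (M ^ m) p1) := by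
              rw [← mul_assoc, h2, one_mul]
          _ = 0 := by rw [h, mul_zero]
    · exact ⟨p, hp, h0, h⟩
  refine ⟨expand K m p1, ?_, ?_⟩
  · have hsep : p1.Separable := PerfectField.separable_iff_squarefree.2 hp1
    apply Separable.squarefree
    rw [Separable, derivative_expand]
    have h2 : IsCoprime (expand K m p1) (expand K m (derivative p1)) :=
      IsCoprime.map hsep (expand K m : K[X] →ₐ[K] K[X]).toRingHom
    have h3 : IsCoprime (expand K m p1) X := by
      rw [isCoprime_comm, irreducible_X.coprime_iff_not_dvd, X_dvd_iff]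
      intro h4
      rw [coeff_expand hm] at h4
      simp at h4
      exact h01 h4
    have h4 : IsUnit ((m : ℕ) : K[X]) := by
      rw [← C_eq_natCast]
      exact isUnit_C.2 (isUnit_iff_ne_zero.2 (Nat.cast_ne_zero.2 hm.ne'))
    exact h2.mul_right ((isCoprime_one_right.of_isCoprime_of_dvd_right h4.dvd).mul_right (h3.pow_right))
  · rw [expand_aeval]
    exact h1

/-- Semisimple elements act semisimply in every matrix representation `ρ`, if the second component acts with
finite order. The space `W` of all `∑ c_ij ⊗ ρ.a i j` is stable under `T = A.transl x.left x.right`, and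
`T ^ m (C a) = (C ev(x) ^ m a)`; `T ^ m` is semisimple on `W`, so a squarefree polynomial kills `ev(x) ^ m`. -/
theorem exists_squarefree_ev {K : Type} [Field K] [Algebra ℚ K] {x : A.LGroup K}
    (hact : ∃ m : ℕ, 0 < m ∧ A.act x.right ^ m = 1)
    (hx : A.IsSemisimpleElt x) : ∃ p : K[X], Squarefree p ∧ aeval (ρ.ev K x) p = 0 := by
  have hK : CharZero K := algebraRat.charZero K
  obtain ⟨m, hm, hact⟩ := hact
  set T := A.transl x.left x.right with hT
  have h1 : LinearMap.range (H0_em ρ K) ∈ Module.End.invtSubmodule T := by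
    rw [Module.End.mem_invtSubmodule]
    rintro _ ⟨v, rfl⟩
    rw [Submodule.mem_comap, hT, H0_transl]
    exact ⟨_, rfl⟩
  have h1' : ∀ z ∈ LinearMap.range (H0_em ρ K), T z ∈ LinearMap.range (H0_em ρ K) := h1
  have h2 : Module.End.IsSemisimple (LinearMap.restrict T h1') :=
    Module.End.IsSemisimple.restrict h1 hx
  have h3 : Module.End.IsSemisimple ((LinearMap.restrict T h1') ^ m) :=
    h2.pow m
  have hpow : ∀ (k : ℕ) (C : Matrix (Fin n) (Fin n) K), (T ^ k) (H0_em ρ K C) =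
      H0_em ρ K (ρ.pm K x.right⁻¹ ^ k * C * ρ.ev K x ^ k) := by
    intro k
    induction k with
    | zero => intro C; simp
    | succ k ih =>
      intro C
      rw [pow_succ', Module.End.mul_apply, ih, hT, H0_transl]
      congr 1
      rw [pow_succ', pow_succ, Matrix.mul_assoc, Matrix.mul_assoc, Matrix.mul_assoc,
        Matrix.mul_assoc, Matrix.mul_assoc]
  have hPm : ρ.pm K x.right⁻¹ ^ m = 1 := by
    rw [← map_pow, MatRep.pm, MonoidHom.comp_apply, ρ.P_eq, map_one]
    rw [map_pow, map_inv, inv_pow, hact, inv_one]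
  have hpow' : ∀ C : Matrix (Fin n) (Fin n) K, (T ^ m) (H0_em ρ K C) =
      H0_em ρ K (C * ρ.ev K x ^ m) := by
    intro C
    rw [hpow, hPm, Matrix.one_mul]
  set p := minpoly K ((LinearMap.restrict T h1') ^ m) with hp
  have hcomm : ∀ (q : K[X]) (C : Matrix (Fin n) (Fin n) K),
      ((aeval ((LinearMap.restrict T h1') ^ m) q) ⟨H0_em ρ K C, ⟨C, rfl⟩⟩ : K ⊗[ℚ] O) =
        H0_em ρ K (C * aeval (ρ.ev K x ^ m) q) := by
    intro q
    induction q using Polynomial.induction_on' with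
    | add q r hq hr =>
      intro C
      rw [map_add, map_add, LinearMap.add_apply, Submodule.coe_add, hq, hr, Matrix.mul_add, map_add]
    | monomial k a =>
      intro C
      rw [aeval_monomial, aeval_monomial, Algebra.algebraMap_eq_smul_one, smul_one_mul,
        Algebra.algebraMap_eq_smul_one, smul_one_mul, LinearMap.smul_apply, Submodule.coe_smul,
        Matrix.mul_smul, map_smul]
      congr 1
      induction k generalizing C with
      | zero => simp
      | succ k ih =>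
        have h4 : ((LinearMap.restrict T h1') ^ m) ⟨H0_em ρ K C, ⟨C, rfl⟩⟩ =
            ⟨H0_em ρ K (C * ρ.ev K x ^ m), ⟨_, rfl⟩⟩ := by
          apply Subtype.ext
          rw [Module.End.pow_restrict, LinearMap.restrict_apply]
          exact hpow' C
        rw [pow_succ, Module.End.mul_apply, h4, ih, pow_succ' (ρ.ev K x ^ m) k,
          Matrix.mul_assoc]
  have h5 : aeval (ρ.ev K x ^ m) p = 0 := by
    have h6 : ∀ C : Matrix (Fin n) (Fin n) K, (C * aeval (ρ.ev K x ^ m) p).trace = 0 := by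
      intro C
      apply H0_counit ρ
      rw [← hcomm, hp]
      have h8 := minpoly.aeval K ((LinearMap.restrict T h1') ^ m)
      exact congrArg (fun f : Module.End K (LinearMap.range (H0_em ρ K)) =>
        ((f ⟨H0_em ρ K C, ⟨C, rfl⟩⟩ : LinearMap.range (H0_em ρ K)) : K ⊗[ℚ] O)) h8
    ext i j
    have h7 := h6 (Matrix.single j i 1)
    rw [Matrix.trace_single_mul] at h7
    simpa using h7
  have hinv : ρ.ev K x⁻¹ * ρ.ev K x = 1 := by
    rw [← map_mul, inv_mul_cancel, map_one]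
  exact H0_expand hinv hm h3.minpoly_squarefree h5

/-- The same in the form `DG` over an algebraically closed field (`DG_of_squarefree`, J11a.lean). -/
theorem DG_ev {K : Type} [Field K] [IsAlgClosed K] [Algebra ℚ K] {x : A.LGroup K}
    (hact : ∃ m : ℕ, 0 < m ∧ A.act x.right ^ m = 1)
    (hx : A.IsSemisimpleElt x) : DG (ρ.ev K x) := by
  obtain ⟨p, h1, h2⟩ := exists_squarefree_ev ρ hact hx
  refine DG_of_squarefree (M' := ρ.ev K x⁻¹) ?_ ?_ h1 h2
  · rw [← map_mul, mul_inv_cancel, map_one]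
  · rw [← map_mul, inv_mul_cancel, map_one]

/-- If the action of `Γ` has finite image then every finite set of functions is contained in a finite stable set. -/
theorem exists_stable_of_finite (hfin : (Set.range A.act).Finite) (Φ : Set O) (hΦ : Φ.Finite) :
    ∃ Φ' : Set O, Φ'.Finite ∧ Φ ⊆ Φ' ∧ ∀ γ, ∀ f ∈ Φ', A.act γ f ∈ Φ' := by
  refine ⟨Set.image2 (fun (g : O ≃ₐ[ℚ] O) f => g f) (Set.range A.act) Φ, hfin.image2 _ hΦ, ?_, ?_⟩
  · intro f hf
    exact ⟨1, ⟨1, map_one _⟩, f, hf, rfl⟩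
  · rintro γ _ ⟨_, ⟨δ, rfl⟩, f, hf, rfl⟩
    refine ⟨A.act (γ * δ), ⟨_, rfl⟩, f, hf, ?_⟩
    rw [map_mul]
    rfl

end Pool.Agent.Lib.MP_666dc0_nt.LV
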