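import Pool.Agent.Lib.MP_666dc0_nt.LV.P2
import Pool.Agent.Lib.MP_666dc0_nt.LV.W3

open LaurentPolynomial Polynomial

namespace Pool.Agent.Lib.MP_666dc0_nt.LV

open Pool.Agent.Lib.MP_666dc0_nt.IG

variable {O O' : Type} [CommRing O] [HopfAlgebra ℚ O] [CommRing O'] [HopfAlgebra ℚ O'] {Γ : Type}
  [Group Γ] {A : HopfAction Γ O} {A' : HopfAction Γ O'} {π : O →ₐc[ℚ] O'}
  {μ : O →ₐc[ℚ] ℚ[T;T⁻¹]} {n : ℕ}

private theorem N1_tr (hM : IsLevi A A' π μ) {ρ : MatRep A n} {J : Finset ℤ}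
    {p : ℤ → Matrix (Fin n) (Fin n) ℚ} (hW : Wts μ ρ J p) {K : Type} [Field K] [Algebra ℚ K]
    (x : A.LGroup K) (m : Pts O' K) (t : Kˣ)
    (hx : ∀ f ∈ A.inv x.right, x.left.hom f = (Pts.incl π m * Pts.cochar μ t).hom f) (a : ℕ) :
    (ρ.ev K x ^ a).trace =
      ((ρ.ev K (⟨Pts.incl π m, x.right⟩ : A.LGroup K) * LD.dg J (pj K p) (t : K)) ^ a).trace := by
  have hE : A.Eqv x (⟨Pts.incl π m * Pts.cochar μ t, x.right⟩ : A.LGroup K) := ⟨rfl, hx⟩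
  have h1 := ρ.trace_eq (hE.pow a)
  rw [map_pow, map_pow, ev_mul_cochar hM, hW.dg] at h1
  exact h1

/-- Traces of powers. Let `x ∈ ᴸG(K)` and `(incl m · μ(t), x.right)` have the same values of invariant functions. They are
`Eqv` (Eqv.lean), so are their powers (`Eqv.pow`), and `MatRep.trace_eq` gives the equality of the traces. By `ev_mul_cochar`, `Wts.dg`,
`ev_incl_comm` and `LD.Proj.pow` the `a`-th power of the matrix of the second element is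
`∑ l ∈ J, t ^ (l a) • (pj l * M ^ a)`, `M = ρ.ev K (incl m, x.right)`. -/
theorem trace_pow_of_values (hM : IsLevi A A' π μ) {ρ : MatRep A n} {J : Finset ℤ}
    {p : ℤ → Matrix (Fin n) (Fin n) ℚ} (hW : Wts μ ρ J p) {K : Type} [Field K] [Algebra ℚ K]
    (x : A.LGroup K) (m : Pts O' K) (t : Kˣ)
    (hx : ∀ f ∈ A.inv x.right, x.left.hom f = (Pts.incl π m * Pts.cochar μ t).hom f) (a : ℕ) :
    (ρ.ev K x ^ a).trace = ∑ l ∈ J, (t : K) ^ (l * (a : ℤ)) *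
      (pj K p l * ρ.ev K (⟨Pts.incl π m, x.right⟩ : A.LGroup K) ^ a).trace := by
  rw [N1_tr hM hW x m t hx a, (hW.proj K).pow _ (fun j hj => ev_incl_comm hM hW m x.right hj) _ t.ne_zero a,
    Matrix.trace_sum]
  apply Finset.sum_congr rfl
  intro l _
  rw [Matrix.trace_smul, smul_eq_mul]

/-- The traces of `M_k(w)` for `w` conjugate to a power of `σ`. `r k (δ σ ^ a δ⁻¹) = r k δ * (r k σ) ^ a * (r k δ)⁻¹`, so the trace is that of
`(ρ.ev K (r k σ)) ^ a`; `trace_pow_of_values` with `t = s σ ^ k`; `(s σ ^ k) ^ (l a) = (s w) ^ (l k)`, where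
`s w = (s σ) ^ a`. The coefficients `C l` do not depend on `k`. -/
theorem trace_conj_pow (hM : IsLevi A A' π μ) {ρ : MatRep A n} {J : Finset ℤ}
    {p : ℤ → Matrix (Fin n) (Fin n) ℚ} (hW : Wts μ ρ J p) {K : Type} [Field K] [Algebra ℚ K]
    {Z : Set ℤ} (r : ℤ → Γ →* A.LGroup K) (hr : ∀ k ∈ Z, ∀ γ, (r k γ).right = γ) (s : Γ →* Kˣ)
    (σ : Γ) (m : Pts O' K)
    (hv : ∀ k ∈ Z, ∀ f ∈ A.inv σ, (r k σ).left.hom f = (Pts.incl π m * Pts.cochar μ (s σ ^ k)).hom f)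
    (δ : Γ) (a : ℕ) :
    ∃ C : ℤ → K, ∀ k ∈ Z, (ρ.ev K (r k (δ * σ ^ a * δ⁻¹))).trace =
      ∑ l ∈ J, C l * ((s (δ * σ ^ a * δ⁻¹) : Kˣ) : K) ^ (l * k) := by
  refine ⟨fun l => (pj K p l * ρ.ev K (⟨Pts.incl π m, σ⟩ : A.LGroup K) ^ a).trace, fun k hk => ?_⟩
  have h1 : (ρ.ev K (r k (δ * σ ^ a * δ⁻¹))).trace = (ρ.ev K (r k σ) ^ a).trace := by
    rw [map_mul (r k), map_mul (r k), map_pow (r k), map_inv, map_mul, map_mul, map_pow,
      Matrix.trace_mul_cycle, ← map_mul, inv_mul_cancel, map_one, one_mul]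
  have hx : ∀ f ∈ A.inv (r k σ).right,
      (r k σ).left.hom f = (Pts.incl π m * Pts.cochar μ (s σ ^ k)).hom f := by
    rw [hr k hk σ]
    exact hv k hk
  rw [h1, trace_pow_of_values hM hW (r k σ) m (s σ ^ k) hx a, hr k hk σ]
  apply Finset.sum_congr rfl
  intro l _
  have h2 : (((s σ ^ k : Kˣ) : Kˣ) : K) ^ (l * (a : ℤ)) = ((s (δ * σ ^ a * δ⁻¹) : Kˣ) : K) ^ (l * k) := by
    have h3 : s (δ * σ ^ a * δ⁻¹) = s σ ^ a := by
      rw [map_mul, map_mul, map_pow, map_inv, mul_comm (s δ), mul_inv_cancel_right]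
    rw [h3, ← Units.val_zpow_eq_zpow_val, ← Units.val_zpow_eq_zpow_val]
    congr 1
    rw [← zpow_natCast, ← zpow_mul, ← zpow_mul]
    congr 1
    ring
  rw [h2, mul_comm]

/-- Semisimplicity at finite level: `x ∈ ᴸG(K)` semisimple (its matrix is killed by a squarefree polynomial) with the same invariants as
`(incl m · μ(t), x.right)`. `trace_pow_of_values` and `aeval_eq_zero_of_trace` with `M' = ρ.ev K (incl m · μ(t), x.right) = M₀ * dg t`, which is killed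
by `∏ (α, l) ∈ Λ ×ˢ J, (X - α t ^ l)` if `M₀ = ρ.ev K (incl m, x.right)` is killed by `∏ α ∈ Λ, (X - α)`
(this is `aeval_twist` in P2.lean). -/
theorem aeval_of_values (hM : IsLevi A A' π μ) {ρ : MatRep A n} {J : Finset ℤ}
    {p : ℤ → Matrix (Fin n) (Fin n) ℚ} (hW : Wts μ ρ J p) {K : Type} [Field K] [Algebra ℚ K]
    (x : A.LGroup K) (m : Pts O' K) (t : Kˣ)
    (hx : ∀ f ∈ A.inv x.right, x.left.hom f = (Pts.incl π m * Pts.cochar μ t).hom f) {q : K[X]}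
    (hq : Squarefree q) (hqx : aeval (ρ.ev K x) q = 0) (Λ : Finset K)
    (hΛ : aeval (ρ.ev K (⟨Pts.incl π m, x.right⟩ : A.LGroup K)) (∏ α ∈ Λ, (X - Polynomial.C α)) = 0) :
    aeval (ρ.ev K x) (∏ y ∈ Λ ×ˢ J, (X - Polynomial.C (y.1 * (t : K) ^ y.2))) = 0 := by
  have : CharZero K := algebraRat.charZero K
  exact aeval_eq_zero_of_trace (ρ.ev K x) _ (fun b => N1_tr hM hW x m t hx b) hq hqx
    (aeval_twist _ hΛ (hW.proj K) (fun l hl => ev_incl_comm hM hW m x.right hl) t.ne_zero)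

end Pool.Agent.Lib.MP_666dc0_nt.LV
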