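import Pool.Agent.Lib.MP_666dc0_nt.LV.P1
import Pool.Agent.Lib.MP_666dc0_nt.LV.W2

open Polynomial LaurentPolynomial

namespace Pool.Agent.Lib.MP_666dc0_nt.LV

open Pool.Agent.Lib.MP_666dc0_nt.IG

variable {O O' : Type} [CommRing O] [HopfAlgebra ℚ O] [CommRing O'] [HopfAlgebra ℚ O'] {Γ : Type}
  [Group Γ] {A : HopfAction Γ O} {A' : HopfAction Γ O'} {π : O →ₐc[ℚ] O'}
  {μ : O →ₐc[ℚ] ℚ[T;T⁻¹]} {n : ℕ}

/-- The unit of the product given by a family of units. -/
private noncomputable def U2_tt {Z K : Type} [Field K] (t : Z → Kˣ) : (Z → K)ˣ where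
  val := fun z => (t z : K)
  inv := fun z => ((t z)⁻¹ : Kˣ)
  val_inv := by
    funext z
    exact (t z).mul_inv
  inv_val := by
    funext z
    exact (t z).inv_mul

private theorem U2_zpow {Z K : Type} [Field K] (t : Z → Kˣ) (l : ℤ) :
    ((U2_tt t ^ l : (Z → K)ˣ) : Z → K) = fun z => (t z : K) ^ l := by
  funext z
  have h := congrArg Units.val (map_zpow (Units.map (Pi.evalRingHom (fun _ : Z => K) z : (Z → K) →* K)) (U2_tt t) l)
  have h2 : Units.map (Pi.evalRingHom (fun _ : Z => K) z : (Z → K) →* K) (U2_tt t) = t z := Units.ext rfl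
  rw [h2, Units.val_zpow_eq_zpow_val] at h
  exact h

private theorem U2_theta {Z K K1 : Type} [Field K] [Field K1] [Algebra K K1]
    (θ : (Z → K) →+* K1) (halg : ∀ x : K, algebraMap K K1 x = θ (fun _ => x))
    (t : Z → Kˣ) (c : K1ˣ) (hc : (c : K1) = θ (fun z => (t z : K))) (α : K) (l : ℤ) :
    θ (fun z => α * (t z : K) ^ l) = algebraMap K K1 α * (c : K1) ^ l := by
  have h1 : (fun z => α * (t z : K) ^ l) = (fun _ => α) * ((U2_tt t ^ l : (Z → K)ˣ) : Z → K) := by
    rw [U2_zpow]
    rfl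
  rw [h1, map_mul, ← halg]
  congr 1
  have h2 : Units.map (θ : (Z → K) →* K1) (U2_tt t) = c := Units.ext hc.symm
  have h := congrArg Units.val (map_zpow (Units.map (θ : (Z → K) →* K1)) (U2_tt t) l)
  rw [h2, Units.val_zpow_eq_zpow_val] at h
  exact h

/-- The product of a family of homomorphisms. `(rE γ).left.hom f = fun z => (r z γ).left.hom f` (`Pi.algHom`), `(rE γ).right = γ`;
an element of `A.LGroup (Z → K)` is determined by its images under the `A.mapL (Pi.evalAlgHom ℚ _ z)` and its right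
component, so `rE` is multiplicative. -/
theorem exists_prod_hom {Z : Type} {K : Type} [Field K] [Algebra ℚ K] (r : Z → Γ →* A.LGroup K)
    (hr : ∀ z γ, (r z γ).right = γ) :
    ∃ rE : Γ →* A.LGroup (Z → K), (∀ γ, (rE γ).right = γ) ∧
      ∀ z γ f, (rE γ).left.hom f z = (r z γ).left.hom f := by
  have key : ∀ z γ, A.mapL (Pi.evalAlgHom ℚ (fun _ : Z => K) z)
      (⟨⟨AlgHom.pi (fun z => (r z γ).left.hom)⟩, γ⟩ : A.LGroup (Z → K)) = r z γ := by
    intro z γ
    refine SemidirectProduct.ext ?_ (hr z γ).symm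
    ext f
    rfl
  have hext : ∀ x y : A.LGroup (Z → K), x.right = y.right →
      (∀ z, A.mapL (Pi.evalAlgHom ℚ (fun _ : Z => K) z) x = A.mapL (Pi.evalAlgHom ℚ (fun _ : Z => K) z) y) →
      x = y := by
    intro x y h1 h2
    refine SemidirectProduct.ext ?_ h1
    ext f z
    have h3 := congrArg (fun u : A.LGroup K => u.left.hom f) (h2 z)
    exact h3
  refine ⟨{ toFun := fun γ => (⟨⟨AlgHom.pi (fun z => (r z γ).left.hom)⟩, γ⟩ : A.LGroup (Z → K))
            map_one' := ?_
            map_mul' := ?_ }, fun γ => rfl, fun z γ f => rfl⟩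
  · refine hext _ _ rfl (fun z => ?_)
    rw [key, map_one, map_one]
  · intro γ δ
    refine hext _ _ rfl (fun z => ?_)
    rw [key, map_mul, map_mul, key, key]

/-- The values of the points `incl m · μ(t z)` in the ultraproduct: let `g : Pts O (Z → K)` be `incl (constant m) * cochar μ (t)`;
its image under evaluation at `z` is `incl m * cochar μ (t z)` and its image under `θ` is the right hand side (`incl_map`,
`cochar_map`, multiplicativity of `Pts.map`). -/
theorem value_ultra {Z K K1 : Type} [Field K] [Algebra ℚ K] [Field K1] [Algebra ℚ K1] [Algebra K K1]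
    (θ : (Z → K) →+* K1) (halg : ∀ x : K, algebraMap K K1 x = θ (fun _ => x)) (m : Pts O' K)
    (t : Z → Kˣ) (c : K1ˣ) (hc : (c : K1) = θ (fun z => (t z : K))) (f : O) :
    θ (fun z => (Pts.incl π m * Pts.cochar μ (t z)).hom f) =
      (Pts.incl π (Pts.map (algebraMap K K1).toRatAlgHom m) * Pts.cochar μ c).hom f := by
  have : CharZero K := algebraRat.charZero K
  set cst : K →ₐ[ℚ] (Z → K) := AlgHom.pi (fun _ => AlgHom.id ℚ K) with hcst
  set g : Pts O (Z → K) := Pts.incl π (Pts.map cst m) * Pts.cochar μ (U2_tt t) with hg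
  have h1 : ∀ z, Pts.map (Pi.evalAlgHom ℚ (fun _ : Z => K) z) g = Pts.incl π m * Pts.cochar μ (t z) := by
    intro z
    rw [hg, map_mul, incl_map, cochar_map]
    congr 2
  have h2 : (fun z => (Pts.incl π m * Pts.cochar μ (t z)).hom f) = g.hom f := by
    funext z
    rw [← h1]
    rfl
  have h3 : Pts.map θ.toRatAlgHom g =
      Pts.incl π (Pts.map (algebraMap K K1).toRatAlgHom m) * Pts.cochar μ c := by
    rw [hg, map_mul, incl_map, cochar_map]
    congr 2
    · ext x
      exact (halg _).symm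
    · exact Units.ext hc.symm
  rw [h2, ← h3]
  rfl

/-- Semisimplicity in the ultraproduct. Let `M z` be killed by `∏ (α, l) ∈ Λ × J, (X - α t_z ^ l)` for all `z`, `0 ∉ Λ`. Then the matrix
`N i j = θ (z ↦ M z i j)` is killed by `∏ (X - α c ^ l)` (`P` with coefficients in `Z → K`), the elements `α c ^ l` are nonzero
and different for different `(α, l)` (`types_of_transcendental`), so `DG N`. -/
theorem DG_ultra {Z K K1 : Type} [Field K] [Field K1] [Algebra K K1]
    (θ : (Z → K) →+* K1) (halg : ∀ x : K, algebraMap K K1 x = θ (fun _ => x))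
    (M : Z → Matrix (Fin n) (Fin n) K) (t : Z → Kˣ) (c : K1ˣ)
    (hc : (c : K1) = θ (fun z => (t z : K))) (htr : Transcendental K (c : K1)) (Λ : Finset K)
    (h0 : (0 : K) ∉ Λ) (J : Finset ℤ)
    (hM : ∀ z, aeval (M z) (∏ x ∈ Λ ×ˢ J, (X - Polynomial.C (x.1 * (t z : K) ^ x.2))) = 0) :
    DG (Matrix.of fun i j => θ (fun z => M z i j)) := by
  classical
  set MM : Matrix (Fin n) (Fin n) (Z → K) := Matrix.of fun i j => fun z => M z i j with hMM
  set PZ : (Z → K)[X] := ∏ x ∈ Λ ×ˢ J, (X - Polynomial.C (fun z => x.1 * (t z : K) ^ x.2)) with hPZ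
  have e0 : ∀ z, (Pi.evalRingHom (fun _ : Z => K) z).mapMatrix (aeval MM PZ) =
      aeval (M z) (∏ x ∈ Λ ×ˢ J, (X - Polynomial.C (x.1 * (t z : K) ^ x.2))) := by
    intro z
    refine (Polynomial.map_aeval_eq_aeval_map (φ := Pi.evalRingHom (fun _ : Z => K) z)
      (ψ := (Pi.evalRingHom (fun _ : Z => K) z).mapMatrix)
      (by
        refine RingHom.ext fun x => Matrix.ext fun i j => ?_
        by_cases hij : i = j
        · subst hij; simp [Matrix.algebraMap_matrix_apply]
        · simp [Matrix.algebraMap_matrix_apply, hij]) PZ MM).trans ?_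
    congr 1
    rw [hPZ, Polynomial.map_prod]
    apply Finset.prod_congr rfl
    intro x _
    rw [Polynomial.map_sub, Polynomial.map_X, Polynomial.map_C]
    rfl
  have h1 : aeval MM PZ = 0 := by
    ext i j z
    have h2 := congrFun (congrFun (e0 z) i) j
    rw [hM z] at h2
    exact h2
  have h3 : aeval (Matrix.of fun i j => θ (fun z => M z i j)) (PZ.map θ) = 0 := by
    have h4 := Polynomial.map_aeval_eq_aeval_map (φ := θ) (ψ := θ.mapMatrix)
      (by
        refine RingHom.ext fun x => Matrix.ext fun i j => ?_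
        by_cases hij : i = j
        · subst hij; simp [Matrix.algebraMap_matrix_apply]
        · simp [Matrix.algebraMap_matrix_apply, hij]) PZ MM
    rw [h1, map_zero] at h4
    exact h4.symm
  have h5 : PZ.map θ = ∏ x ∈ Λ ×ˢ J, (X - Polynomial.C (algebraMap K K1 x.1 * (c : K1) ^ x.2)) := by
    rw [hPZ, Polynomial.map_prod]
    apply Finset.prod_congr rfl
    intro x _
    rw [Polynomial.map_sub, Polynomial.map_X, Polynomial.map_C, U2_theta θ halg t c hc]
  rw [h5] at h3
  set g : K × ℤ → K1ˣ := fun x => if h : x.1 = 0 then 1 else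
    Units.mk0 (algebraMap K K1 x.1) (by
      rw [Ne, map_eq_zero]; exact h) * c ^ x.2 with hg
  have hgv : ∀ x ∈ Λ ×ˢ J, ((g x : K1ˣ) : K1) = algebraMap K K1 x.1 * (c : K1) ^ x.2 := by
    intro x hx
    have hx0 : x.1 ≠ 0 := fun h => h0 (h ▸ (Finset.mem_product.1 hx).1)
    rw [hg]
    simp only [dif_neg hx0, Units.val_mul, Units.val_mk0, Units.val_zpow_eq_zpow_val]
  have hinj : Set.InjOn g (Λ ×ˢ J : Finset (K × ℤ)) := by
    intro x hx y hy hxy
    have hx' : x ∈ Λ ×ˢ J := hx
    have hy' : y ∈ Λ ×ˢ J := hy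
    have hx0 : x.1 ≠ 0 := fun h => h0 (h ▸ (Finset.mem_product.1 hx').1)
    have hy0 : y.1 ≠ 0 := fun h => h0 (h ▸ (Finset.mem_product.1 hy').1)
    have h6 := congrArg Units.val hxy
    rw [hgv x hx', hgv y hy'] at h6
    have h7 := types_of_transcendental htr x.1 y.1 x.2 y.2 hx0 hy0 h6
    rw [h7] at h6
    have h8 := mul_right_cancel₀ (zpow_ne_zero _ c.ne_zero) h6
    exact Prod.ext ((algebraMap K K1).injective h8) h7
  refine ⟨(Λ ×ˢ J).image g, ?_⟩
  rw [Finset.prod_image hinj, Finset.prod_congr rfl (fun x hx => by rw [hgv x hx]), h3]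

end Pool.Agent.Lib.MP_666dc0_nt.LV
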