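import Pool.Agent.Lib.MP_666dc0_nt.LV.P1
import Pool.Agent.Lib.MP_666dc0_nt.LD.EC1

open Polynomial

namespace Pool.Agent.Lib.MP_666dc0_nt.LV

open Pool.Agent.Lib.MP_666dc0_nt.IG

variable {K L : Type} [Field K] [Field L] [Algebra K L] {n : ℕ}

private lemma P2_pow (M : Matrix (Fin n) (Fin n) L) {J : Finset ℤ} {e : ℤ → Matrix (Fin n) (Fin n) L}
    (he : LD.Proj J e) (hcomm : ∀ l ∈ J, e l * M = M * e l) (z : L) {l : ℤ} (hl : l ∈ J)
    (Q : L[X]) :
    aeval (M * LD.dg J e z) Q * e l = aeval (z ^ l • M) Q * e l := by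
  have h1 : (M * LD.dg J e z) * e l = e l * (z ^ l • M) := by
    rw [mul_assoc, (he.e_mul_dg z hl).2, Matrix.mul_smul, Matrix.mul_smul, hcomm l hl]
  have h2 : e l * (z ^ l • M) = (z ^ l • M) * e l := by
    rw [Matrix.mul_smul, Matrix.smul_mul, hcomm l hl]
  induction Q using Polynomial.induction_on with
  | C a => rw [aeval_C, aeval_C]
  | add P Q hP hQ => rw [map_add, map_add, add_mul, add_mul, hP, hQ]
  | monomial k a h =>
    rw [pow_succ, ← mul_assoc, map_mul, map_mul (aeval (z ^ l • M)), aeval_X, aeval_X, mul_assoc,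
      h1, ← mul_assoc, h, mul_assoc, h2, ← mul_assoc]

private lemma P2_key (M : Matrix (Fin n) (Fin n) L) {s : Finset L}
    (hs : aeval M (∏ α ∈ s, (X - C α)) = 0) {J : Finset ℤ} {e : ℤ → Matrix (Fin n) (Fin n) L}
    (he : LD.Proj J e) (hcomm : ∀ l ∈ J, e l * M = M * e l) (z : L) {l : ℤ} (hl : l ∈ J) :
    aeval (M * LD.dg J e z) (∏ α ∈ s, (X - C (α * z ^ l))) * e l = 0 := by
  rw [P2_pow M he hcomm z hl]
  have h1 : aeval (z ^ l • M) (∏ α ∈ s, (X - C (α * z ^ l))) =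
      aeval M ((∏ α ∈ s, (X - C (α * z ^ l))).comp (C (z ^ l) * X)) := by
    rw [aeval_comp]
    congr 2
    rw [map_mul, aeval_C, aeval_X, Algebra.smul_def]
  have h2 : (∏ α ∈ s, (X - C (α * z ^ l))).comp (C (z ^ l) * X) =
      (∏ α ∈ s, C (z ^ l)) * ∏ α ∈ s, (X - C α) := by
    rw [Polynomial.prod_comp, ← Finset.prod_mul_distrib]
    refine Finset.prod_congr rfl fun α _ => ?_
    rw [sub_comp, X_comp, C_comp, C_mul]
    ring
  rw [h1, h2, map_mul, hs, mul_zero, zero_mul]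

private lemma P2_all (M : Matrix (Fin n) (Fin n) L) {s : Finset L}
    (hs : aeval M (∏ α ∈ s, (X - C α)) = 0) {J : Finset ℤ} {e : ℤ → Matrix (Fin n) (Fin n) L}
    (he : LD.Proj J e) (hcomm : ∀ l ∈ J, e l * M = M * e l) (z : L) (Q : L[X])
    (hQ : ∀ l ∈ J, (∏ α ∈ s, (X - C (α * z ^ l))) ∣ Q) :
    aeval (M * LD.dg J e z) Q = 0 := by
  rw [← mul_one (aeval (M * LD.dg J e z) Q), ← he.sum_eq, Finset.mul_sum]
  refine Finset.sum_eq_zero fun l hl => ?_
  obtain ⟨R, hR⟩ := hQ l hl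
  rw [hR, mul_comm (∏ α ∈ s, (X - C (α * z ^ l))) R, map_mul, mul_assoc, P2_key M hs he hcomm z hl,
    mul_zero]

open Classical in
private lemma P2_dvd (s : Finset L) (J : Finset ℤ) {z : L} (hz : z ≠ 0) (l : ℤ) (hl : l ∈ J) :
    (∏ α ∈ s, (X - C (α * z ^ l))) ∣
      ∏ β ∈ (s ×ˢ J).image (fun x => x.1 * z ^ x.2), (X - C β) := by
  have h1 : ∏ α ∈ s, (X - C (α * z ^ l)) = ∏ β ∈ s.image (fun α => α * z ^ l), (X - C β) := by
    rw [Finset.prod_image]
    intro a _ b _ hab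
    exact mul_right_cancel₀ (zpow_ne_zero l hz) hab
  rw [h1]
  refine Finset.prod_dvd_prod_of_subset _ _ _ fun β hβ => ?_
  rw [Finset.mem_image] at hβ ⊢
  obtain ⟨α, hα, rfl⟩ := hβ
  exact ⟨(α, l), Finset.mem_product.mpr ⟨hα, hl⟩, rfl⟩

/-- Let `M` be killed by `∏ α ∈ s, (X - C α)` and commute with the projectors `e l`. Then `M * dg J e z` is killed by the
product of the `X - α z ^ l`, `(α, l) ∈ s × J`. Multiply with `e l` (`∑ e l = 1`): `(M * dg J e z) * e l = z ^ l • M * e l`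
(`LD.Proj.e_mul_dg`), and the factors with second component `l` give `∏ α ∈ s, (z ^ l M - α z ^ l) = z ^ (l #s) ∏ (M - α) = 0`;
all factors commute. -/
theorem aeval_twist (M : Matrix (Fin n) (Fin n) L) {s : Finset L}
    (hs : aeval M (∏ α ∈ s, (X - C α)) = 0) {J : Finset ℤ} {e : ℤ → Matrix (Fin n) (Fin n) L}
    (he : LD.Proj J e) (hcomm : ∀ l ∈ J, e l * M = M * e l) {z : L} (hz : z ≠ 0) :
    aeval (M * LD.dg J e z) (∏ x ∈ s ×ˢ J, (X - C (x.1 * z ^ x.2))) = 0 := by
  refine P2_all M hs he hcomm z _ (fun l hl => ?_)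
  rw [Finset.prod_product_right]
  exact Finset.dvd_prod_of_mem (fun y => ∏ x ∈ s, (X - C (x * z ^ y))) hl

/-- The twisted matrix is killed by a squarefree polynomial: the product of the `X - C β` over the finite set
of the elements `β = α z ^ l` (each factor of the product in `aeval_twist` occurs in a power of it: if
`P (N) = 0` for `P = ∏ (X - C (b i))`, then `N` is killed by a power of `∏ β ∈ image b, (X - C β)`; better: repeat
the proof of `aeval_twist`: for each `l` the product `∏ α ∈ s, (X - C (α z ^ l))` has, for `z ≠ 0`, different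
factors, so it divides `∏ β ∈ image, (X - C β)`, and `(∏ α ∈ s, (N - α z ^ l)) * e l = 0`). -/
theorem exists_squarefree_twist (M : Matrix (Fin n) (Fin n) L) {s : Finset L}
    (hs : aeval M (∏ α ∈ s, (X - C α)) = 0) {J : Finset ℤ} {e : ℤ → Matrix (Fin n) (Fin n) L}
    (he : LD.Proj J e) (hcomm : ∀ l ∈ J, e l * M = M * e l) {z : L} (hz : z ≠ 0) :
    ∃ P : L[X], Squarefree P ∧ aeval (M * LD.dg J e z) P = 0 := by
  classical
  refine ⟨∏ β ∈ (s ×ˢ J).image (fun x => x.1 * z ^ x.2), (X - C β), ?_,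
    P2_all M hs he hcomm z _ (fun l hl => P2_dvd s J hz l hl)⟩
  exact (separable_prod_X_sub_C_iff'.mpr (fun a _ b _ hab => hab)).squarefree

/-- If `M` is defined over `K`, `DG`, and `c` is transcendental over `K` then the twisted matrix is `DG` over `L`
(`aeval_twist` for `z = c`, `s` the image of the eigenvalues; the elements `α c ^ l` are nonzero and different for different
pairs: `types_of_transcendental`, so the product over `s ×ˢ J` is a product over a `Finset Lˣ`). -/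
theorem DG_twist {M : Matrix (Fin n) (Fin n) K} (hM : DG M) {J : Finset ℤ}
    {e : ℤ → Matrix (Fin n) (Fin n) L} (he : LD.Proj J e)
    (hcomm : ∀ l ∈ J, e l * M.map (algebraMap K L) = M.map (algebraMap K L) * e l) {c : L}
    (hc : Transcendental K c) : DG (M.map (algebraMap K L) * LD.dg J e c) := by
  classical
  have hc0 : c ≠ 0 := by
    rintro rfl
    exact hc isAlgebraic_zero
  obtain ⟨Λ, h0, hΛ⟩ := DG.exists_Lam hM L
  obtain ⟨s, hs⟩ : ∃ s : Finset L, s = Λ.image (algebraMap K L) := ⟨_, rfl⟩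
  have hprod : ∏ α ∈ s, (X - C α) = ∏ α ∈ Λ, (X - C (algebraMap K L α)) := by
    rw [hs, Finset.prod_image]
    exact fun a _ b _ hab => (algebraMap K L).injective hab
  have hs' : aeval (M.map (algebraMap K L)) (∏ α ∈ s, (X - C α)) = 0 := by
    rw [hprod]
    exact hΛ
  obtain ⟨B, hB⟩ : ∃ B : Finset L, B = (s ×ˢ J).image (fun x => x.1 * c ^ x.2) := ⟨_, rfl⟩
  have hB0 : ∀ x ∈ B, x ≠ 0 := by
    intro x hx
    rw [hB, Finset.mem_image] at hx
    obtain ⟨y, hy, rfl⟩ := hx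
    rw [Finset.mem_product, hs, Finset.mem_image] at hy
    obtain ⟨⟨α, hα, h1⟩, _⟩ := hy
    rw [← h1]
    refine mul_ne_zero ?_ (zpow_ne_zero _ hc0)
    intro h2
    rw [map_eq_zero] at h2
    rw [h2] at hα
    exact h0 hα
  refine ⟨B.preimage (fun u : Lˣ => (u : L)) (fun a _ b _ hab => Units.ext hab), ?_⟩
  have h3 := Finset.prod_preimage (fun u : Lˣ => (u : L)) B (fun a _ b _ hab => Units.ext hab)
    (fun β : L => (X - C β)) (fun x hx hx2 => absurd ⟨Units.mk0 x (hB0 x hx), rfl⟩ hx2)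
  rw [h3, hB]
  exact P2_all _ hs' he hcomm c _ (fun l hl => P2_dvd s J hc0 l hl)

end Pool.Agent.Lib.MP_666dc0_nt.LV
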