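import Pool.Agent.Lib.MP_666dc0_nt.LV.H0
import Pool.Agent.Lib.MP_666dc0_nt.LV.P2
import Pool.Agent.Lib.MP_666dc0_nt.LV.W3

open Polynomial LaurentPolynomial Topology

namespace Pool.Agent.Lib.MP_666dc0_nt.LV

open Pool.Agent.Lib.MP_666dc0_nt.IG

variable {O O' : Type} [CommRing O] [HopfAlgebra ℚ O] [CommRing O'] [HopfAlgebra ℚ O'] {Γ : Type}
  [Group Γ] {A : HopfAction Γ O} {A' : HopfAction Γ O'} {π : O →ₐc[ℚ] O'}
  {μ : O →ₐc[ℚ] ℚ[T;T⁻¹]} {n : ℕ}

/-- If `x ∈ ᴸM(K)` is semisimple then so is `incl x · μ(t) ∈ ᴸG(K)`. `isSemisimpleElt_of_squarefree` (CRBridge.lean; `hst` from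
`exists_stable_of_finite`). Let `ρL : MatRepL A n`, `ρ = ρL.toMatRep`; `exists_wts`, `exists_restrict`, `ev_restrict`: `ρ'.ev K x = ρ.ev K (incl x)` is `DG` (`DG_ev`
for `ρ'`), commutes with the projections (`ev_incl_comm`), `ev_mul_cochar`, `Wts.dg`, `exists_squarefree_twist` with `DG.exists_Lam` for `L = K`. -/
theorem isSemisimpleElt_incl_cochar (hM : IsLevi A A' π μ) (hfin : (Set.range A.act).Finite)
    {K : Type} [Field K] [IsAlgClosed K] [Algebra ℚ K] (x : A'.LGroup K)
    (hx : A'.IsSemisimpleElt x) (t : Kˣ) :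
    A.IsSemisimpleElt (⟨Pts.incl π x.left * Pts.cochar μ t, x.right⟩ : A.LGroup K) := by
  refine isSemisimpleElt_of_squarefree (fun Φ hΦ => exists_stable_of_finite hfin Φ hΦ)
    (fun n ρL => ?_)
  obtain ⟨J, p, hW⟩ := exists_wts hM.fixed ρL.toMatRep
  obtain ⟨ρ', ha, hP⟩ := exists_restrict hM ρL.toMatRep
  have h1 : ρ'.ev K x = ρL.toMatRep.ev K (⟨Pts.incl π x.left, x.right⟩ : A.LGroup K) :=
    ev_restrict ha hP x
  have h2 : DG (ρ'.ev K x) := DG_ev ρ' ((exists_pow_act hfin x.right).imp fun _ h => ⟨h.1, act_pow_of_surjective (⇑π) hM.surj hM.act h.2⟩) hx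
  obtain ⟨Λ, h0, hΛ⟩ := DG.exists_Lam h2 K
  have hΛ' : aeval (ρ'.ev K x) (∏ α ∈ Λ, (Polynomial.X - Polynomial.C α)) = 0 := by
    have h3 : (ρ'.ev K x).map (algebraMap K K) = ρ'.ev K x := by
      ext i j
      simp
    rw [h3] at hΛ
    exact hΛ
  obtain ⟨P, hP1, hP2⟩ := exists_squarefree_twist (ρ'.ev K x) hΛ' (hW.proj K)
    (fun l hl => by rw [h1]; exact ev_incl_comm hM hW x.left x.right hl) (z := (t : K)) t.ne_zero
  refine ⟨P, hP1, ?_⟩
  rw [ev_mul_cochar hM, hW.dg, ← h1]
  exact hP2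

/-- Continuity. `(incl g · μ(c)).hom f` is a finite sum of products of `g.hom (π a)` and `evalUnit c (μ b)` over `comul f = ∑ a ⊗ b`
(`Pts.mul_hom_apply`, induction over the tensor); `evalUnit c q` is a finite sum of constants times `c ^ l` (induction over Laurent
polynomials), `c ^ l` and `c ^ (-l)` are continuous. -/
theorem continuous_incl_cochar {X : Type} [TopologicalSpace X] {K : Type} [Field K] [Algebra ℚ K]
    [TopologicalSpace K] [IsTopologicalRing K] (π : O →ₐc[ℚ] O') (μ : O →ₐc[ℚ] ℚ[T;T⁻¹])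
    (g : X → Pts O' K) (hg : ∀ f, Continuous fun x => (g x).hom f) (c : X → Kˣ)
    (hc : Continuous fun x => (c x : K)) (hc' : Continuous fun x => (((c x)⁻¹ : Kˣ) : K)) (f : O) :
    Continuous fun x => (Pts.incl π (g x) * Pts.cochar μ (c x)).hom f := by
  have hcz : ∀ k : ℤ, Continuous fun x => ((c x ^ k : Kˣ) : K) := by
    intro k
    rcases k with k | k
    · have h1 : (fun x => ((c x ^ (Int.ofNat k) : Kˣ) : K)) = fun x => (c x : K) ^ k := by
        funext x
        rw [Int.ofNat_eq_natCast, zpow_natCast, Units.val_pow_eq_pow_val]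
      rw [h1]
      exact hc.pow k
    · have h1 : (fun x => ((c x ^ (Int.negSucc k) : Kˣ) : K)) =
          fun x => (((c x)⁻¹ : Kˣ) : K) ^ (k + 1) := by
        funext x
        rw [zpow_negSucc, ← inv_pow, Units.val_pow_eq_pow_val]
      rw [h1]
      exact hc'.pow (k + 1)
  have hq : ∀ q : ℚ[T;T⁻¹], Continuous fun x => evalUnit (c x) q := by
    intro q
    induction q using LaurentPolynomial.induction_on' with
    | add p q hp hq =>
      simp only [map_add]
      exact hp.add hq
    | C_mul_T k a =>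
      have h1 : (fun x => evalUnit (c x) (LaurentPolynomial.C a * LaurentPolynomial.T k)) =
          fun x => algebraMap ℚ K a * ((c x ^ k : Kˣ) : K) := by
        funext x
        rw [map_mul]
        congr 1
        · exact LaurentPolynomial.eval₂_C (algebraMap ℚ K) (c x) a
        · exact LaurentPolynomial.eval₂_T (algebraMap ℚ K) (c x) k
      rw [h1]
      exact continuous_const.mul (hcz k)
  have hz : ∀ z : TensorProduct ℚ O O, Continuous fun x =>
      Algebra.TensorProduct.lift (Pts.incl π (g x)).hom (Pts.cochar μ (c x)).hom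
        (fun _ _ => Commute.all _ _) z := by
    intro z
    induction z using TensorProduct.induction_on with
    | zero => simp only [map_zero]; exact continuous_const
    | add a b ha hb => simp only [map_add]; exact ha.add hb
    | tmul a b =>
      simp only [Algebra.TensorProduct.lift_tmul]
      exact (hg (π a)).mul (hq (μ b))
  exact hz _

end Pool.Agent.Lib.MP_666dc0_nt.LV
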