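import Pool.Agent.Lib.MP_666dc0_nt.Mg.G045
import Pool.Agent.Lib.MP_666dc0_nt.Mg.G022

open NumberField IsDedekindDomain Topology Polynomial
open scoped NumberField

namespace Pool.Agent.Lib.MP_666dc0_nt.IG

/-- A finite set of generators of `O`, enlarged to a stable finite set `Φ` (`exists_stable`), `exists_matRep`:
the matrix coefficients span a space containing `Φ`. -/
theorem exists_faithful {O : Type} [CommRing O] [HopfAlgebra ℚ O] [Algebra.FiniteType ℚ O]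
    {Γ : Type} [Group Γ] [TopologicalSpace Γ] [IsTopologicalGroup Γ] [CompactSpace Γ]
    {A : HopfAction Γ O} (hA : IsOpen (A.act.ker : Set Γ)) :
    ∃ (n : ℕ) (ρ : MatRep A n), Faithful ρ := by
  obtain ⟨Φ₀, hΦ₀⟩ := (Algebra.FiniteType.out : (⊤ : Subalgebra ℚ O).FG)
  obtain ⟨Φ, hΦfin, hΦ₀Φ, hΦst⟩ := exists_stable (A := A) hA Φ₀.finite_toSet
  obtain ⟨n, ρ, hρ⟩ := exists_matRep A hΦfin hΦst
  refine ⟨n, ρ, ?_⟩
  rw [Faithful, eq_top_iff, ← hΦ₀, Algebra.adjoin_le_iff]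
  intro f hf
  have h1 := hρ f (hΦ₀Φ hf)
  have h2 : Submodule.span ℚ (Set.range fun ij : Fin n × Fin n => ρ.a ij.1 ij.2) ≤
      Subalgebra.toSubmodule (Algebra.adjoin ℚ ({f | ∃ i j, f = ρ.a i j} ∪
        {f | ∃ i j, f = HopfAlgebra.antipode ℚ (ρ.a i j)})) := by
    rw [Submodule.span_le]
    rintro _ ⟨ij, rfl⟩
    exact Algebra.subset_adjoin (Or.inl ⟨_, _, rfl⟩)
  exact h2 h1

end Pool.Agent.Lib.MP_666dc0_nt.IG
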