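import Pool.Agent.Lib.MP_666dc0_nt.Mg.G046
import Pool.Agent.Lib.MP_666dc0_nt.LV.H0
import Pool.Agent.Lib.MP_666dc0_nt.LV.W2

open Polynomial LaurentPolynomial Topology

namespace Pool.Agent.Lib.MP_666dc0_nt.LV

open Pool.Agent.Lib.MP_666dc0_nt.IG

variable {O O' : Type} [CommRing O] [HopfAlgebra ℚ O] [CommRing O'] [HopfAlgebra ℚ O'] {Γ : Type}
  [Group Γ] {A : HopfAction Γ O} {A' : HopfAction Γ O'} {π : O →ₐc[ℚ] O'}
  {μ : O →ₐc[ℚ] ℚ[T;T⁻¹]} {n : ℕ}

/-- Semisimple elements stay semisimple under extension of fields. `isSemisimpleElt_of_squarefree` (CRBridge.lean, `hst` from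
`exists_stable_of_finite`): for each `MatRepL` `ρ` there is a squarefree `p ∈ K[X]` with `p (ρ.ev K x) = 0` (`exists_squarefree_of_isSemisimpleElt`), and
`p.map ι` is squarefree (characteristic zero: separable) and kills `ρ.ev L (mapL x) = (ρ.ev K x).map ι` (`MatRep.ev_mapL`). -/
theorem isSemisimpleElt_map (hfin : (Set.range A.act).Finite) {K L : Type} [Field K] [CharZero K]
    [Algebra ℚ K] [Field L] [Algebra ℚ L] (ι : K →+* L) (x : A.LGroup K)
    (hx : A.IsSemisimpleElt x) : A.IsSemisimpleElt (A.mapL ι.toRatAlgHom x) := by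
  refine isSemisimpleElt_of_squarefree (fun Φ hΦ => exists_stable_of_finite hfin Φ hΦ)
    fun n ρ => ?_
  obtain ⟨p, hp, hpx⟩ := exists_squarefree_of_isSemisimpleElt ρ hx
  refine ⟨p.map ι, ?_, ?_⟩
  · have h1 : p.Separable := PerfectField.separable_iff_squarefree.2 hp
    exact h1.map.squarefree
  · rw [MatRep.ev_mapL]
    have h2 : (ι.mapMatrix : Matrix (Fin n) (Fin n) K →+* Matrix (Fin n) (Fin n) L)
        (aeval (ρ.ev K x) p) = 0 := by rw [hpx, map_zero]
    rw [aeval_def, hom_eval₂] at h2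
    rw [aeval_def, eval₂_map]
    have h3 : (ι.mapMatrix : Matrix (Fin n) (Fin n) K →+* Matrix (Fin n) (Fin n) L).comp
        (algebraMap K (Matrix (Fin n) (Fin n) K)) =
          (algebraMap L (Matrix (Fin n) (Fin n) L)).comp ι := by
      refine RingHom.ext fun c => Matrix.ext fun i j => ?_
      rw [RingHom.comp_apply, RingHom.comp_apply, RingHom.mapMatrix_apply, Matrix.map_apply,
        Matrix.algebraMap_matrix_apply, Matrix.algebraMap_matrix_apply]
      split_ifs
      · rfl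
      · exact map_zero ι
    rw [h3] at h2
    exact h2

/-- The twisted invariant function: it represents `g ↦ f(g μ(t))` on `M̂ ⋊ σ`. `θ₀ : O →ₐ[ℚ] O'` is `(lift (π) (evalUnit t ∘ μ)) ∘ comul` (the composition of
`comul : O → O ⊗ O` with `a ⊗ b ↦ π a * algebraMap (evalUnit t (μ b))`), i.e. `θ₀ = (Pts.incl π (Pts.univ O') * Pts.cochar μ t).hom`, `t` in `O'ˣ`; then
`g.hom (θ₀ f) = (incl π g * cochar μ t).hom f` by naturality (`incl_map`, `cochar_map`, `Pts.map g.hom (Pts.univ O') = g`). For `f ∈ A.inv σ`, `θ₀ f ∈ A'.inv σ`: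
`incl (x g (onPts σ x)⁻¹) * μ(t) = incl x * (incl g * μ(t)) * (A.onPts σ (incl x))⁻¹` (`incl_mul`, `incl_onPts`, `incl_comm`), and `f ∈ A.inv σ`. -/
theorem exists_twist_fun (hM : IsLevi A A' π μ) (σ : Γ) (t : ℚˣ) :
    ∃ θ : A.inv σ →ₐ[ℚ] A'.inv σ, ∀ (R : Type) [CommRing R] [Algebra ℚ R] (g : Pts O' R)
      (f : A.inv σ), (Pts.incl π g * Pts.cochar μ (Units.map (algebraMap ℚ R : ℚ →* R) t)).hom f =
        g.hom (θ f) := by
  have key : ∀ (R : Type) [CommRing R] [Algebra ℚ R] (g : Pts O' R) (f : O),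
      g.hom ((Pts.incl π (Pts.univ O') *
        Pts.cochar μ (Units.map (algebraMap ℚ O' : ℚ →* O') t)).hom f) =
      (Pts.incl π g * Pts.cochar μ (Units.map (algebraMap ℚ R : ℚ →* R) t)).hom f := by
    intro R _ _ g f
    have h1 : Units.map (g.hom : O' →* R) (Units.map (algebraMap ℚ O' : ℚ →* O') t) =
        Units.map (algebraMap ℚ R : ℚ →* R) t := by
      apply Units.ext
      exact g.hom.commutes (t : ℚ)
    rw [← Pts.map_hom_apply, map_mul, incl_map, cochar_map, Pts.map_univ, h1]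
  have hmem : ∀ f : A.inv σ, (Pts.incl π (Pts.univ O') *
      Pts.cochar μ (Units.map (algebraMap ℚ O' : ℚ →* O') t)).hom (f : O) ∈ A'.inv σ := by
    intro f R _ _ x g
    rw [key, key]
    have h1 : Pts.incl π (x * g * (A'.onPts R σ x)⁻¹) *
        Pts.cochar μ (Units.map (algebraMap ℚ R : ℚ →* R) t) =
        Pts.incl π x * (Pts.incl π g * Pts.cochar μ (Units.map (algebraMap ℚ R : ℚ →* R) t)) *
          (A.onPts R σ (Pts.incl π x))⁻¹ := by
      rw [incl_onPts hM, ← incl_inv, incl_mul, incl_mul]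
      have h2 := incl_comm hM (A'.onPts R σ x)⁻¹ (Units.map (algebraMap ℚ R : ℚ →* R) t)
      simp only [mul_assoc]
      rw [h2.eq]
    rw [h1]
    exact f.2 R (Pts.incl π x) _
  refine ⟨((Pts.incl π (Pts.univ O') *
      Pts.cochar μ (Units.map (algebraMap ℚ O' : ℚ →* O') t)).hom.comp (A.inv σ).val).codRestrict
        (A'.inv σ) hmem, ?_⟩
  intro R _ _ g f
  exact (key R g f).symm

end Pool.Agent.Lib.MP_666dc0_nt.LV
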