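import Pool.Agent.Lib.MP_666dc0_nt.IG.E4e
import Pool.Agent.Lib.MP_666dc0_nt.Mg.G039
import Pool.Agent.Lib.MP_666dc0_nt.IG.G0c
import Pool.Agent.Lib.MP_666dc0_nt.Mg.G038

open MvPolynomial

namespace Pool.Agent.Lib.MP_666dc0_nt.LV

open Pool.Agent.Lib.MP_666dc0_nt.IG

variable {O : Type} [CommRing O] [HopfAlgebra ℚ O] {Γ : Type} [Group Γ] {A : HopfAction Γ O}
  {n : ℕ} (ρ : MatRep A n)

private noncomputable def H1fam {R : Type} [CommRing R] [Algebra ℚ R] (x : A.LGroup R) :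
    Unit ⊕ Unit → Matrix (Fin n) (Fin n) R :=
  Sum.elim (fun _ => ρ.ev R x) (fun _ => ρ.ev R x⁻¹)

private def H1j : Bool → Unit ⊕ Unit := fun b => match b with
  | false => Sum.inl ()
  | true => Sum.inr ()

private theorem H1_word {R : Type} [CommRing R] [Algebra ℚ R] (r : Γ →* A.LGroup R) (γ : Γ)
    (l : List (Unit ⊕ Unit)) : ∃ δ : Γ, wordProd (H1fam ρ (r γ)) l = ρ.ev R (r δ) := by
  induction l with
  | nil => exact ⟨1, by
      unfold wordProd
      rw [List.map_nil, List.prod_nil, map_one, map_one]⟩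
  | cons a l ih =>
    obtain ⟨δ, hδ⟩ := ih
    have hc : wordProd (H1fam ρ (r γ)) (a :: l) =
        H1fam ρ (r γ) a * wordProd (H1fam ρ (r γ)) l := by
      unfold wordProd
      rw [List.map_cons, List.prod_cons]
    rcases a with a | a
    · refine ⟨γ * δ, ?_⟩
      rw [hc, hδ, map_mul, map_mul]
      rfl
    · refine ⟨γ⁻¹ * δ, ?_⟩
      rw [hc, hδ, map_mul, map_mul, map_inv]
      rfl

/-- Invariant functions are integral over traces. If all traces of `ρ.ev Ω (r γ)` are in the algebraically closed subfield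
`K` of `Ω` then all values of invariant functions are in `K`.
Proof: as `integral_fam` (F0a.lean) or `integral_fam_gen` (FGd.lean): write the value of `f ∈ inv γ` at `r γ` as
`aeval (toTot (..) T₀) F` for a `GL_n`-invariant polynomial `F` (`exists_polyT`, G0h.lean, `M = Bool`) and apply
`theorem_I` with `Z = Unit` (over `Ω`, algebraically closed) to the pair `γ`, i.e. `M = Unit`, `Bool ≃ Unit ⊕ Unit`: the
value is integral over the `ℚ`-algebra generated by the traces of words in `ρ.ev (r γ)^{±1}`, which are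
traces of `ρ.ev (r γ ^ k)`, in `K`; an element of `Ω` integral over (a subring of) `K` is in `K` (`IsAlgClosed`). -/
theorem inv_mem_of_trace {G : Red n} (hG : IsRedG ρ G) (hρ : Faithful ρ) (TD : TensorData G)
    {K Ω : Type} [Field K] [IsAlgClosed K] [Field Ω] [IsAlgClosed Ω] [CharZero Ω] [Algebra ℚ Ω]
    [Algebra K Ω] (r : Γ →* A.LGroup Ω) (hr : ∀ γ, (r γ).right = γ)
    (htr : ∀ γ, ∃ t : K, (ρ.ev Ω (r γ)).trace = algebraMap K Ω t) (γ : Γ) (f : O)
    (hf : f ∈ A.inv γ) : ∃ t : K, (r γ).left.hom f = algebraMap K Ω t := by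
  obtain ⟨p, hp, hpf⟩ := exists_polyG ρ hG hρ γ f hf
  have hinv : IsInv G (rename (ixMap (n := n) H1j) p) := by
    intro R _ _ k k' hk u
    obtain ⟨u, rfl⟩ := exists_toMats u
    rw [act_toMats, aeval_rename_ixMap, aeval_rename_ixMap, ← act_toMats]
    exact hp R k k' hk _
  obtain ⟨F, hF, hFe⟩ := extend_conj_inv G TD _ hinv
  let D : Unit → (b : TD.s.β) → TD.s.C b → TD.s.C b → ℚ := fun _ => Dm ρ hG TD γ
  have hTI : TICond TD.s D (H1fam ρ (r γ)) (fun x => algebraMap ℚ Ω (TD.T₀ x)) := by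
    intro m
    refine ⟨ev_mul_inv ρ (r γ), ev_inv_mul ρ (r γ), ?_⟩
    have h1 := act_ev ρ hG TD (r γ)
    rw [hr γ] at h1
    exact h1
  have hint := theorem_I_gen D TD.T₀ F hF (H1fam ρ (r γ)) hTI
  have hval : aeval (toTot (H1fam ρ (r γ)) (fun x => algebraMap ℚ Ω (TD.T₀ x))) F =
      (r γ).left.hom f := by
    refine (hFe Ω (H1fam ρ (r γ))).trans ?_
    rw [aeval_rename_ixMap, ← hpf Ω (r γ) (hr γ)]
    congr 1
    congr 2
    funext b
    cases b with
    | false => rfl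
    | true => rfl
  rw [hval] at hint
  let S : Subalgebra ℚ Ω :=
    { carrier := Set.range (algebraMap K Ω)
      mul_mem' := by
        rintro _ _ ⟨a, rfl⟩ ⟨b, rfl⟩
        exact ⟨a * b, map_mul _ _ _⟩
      add_mem' := by
        rintro _ _ ⟨a, rfl⟩ ⟨b, rfl⟩
        exact ⟨a + b, map_add _ _ _⟩
      algebraMap_mem' := fun q => ⟨(q : K), by rw [map_ratCast, eq_ratCast]⟩ }
  have hle : Algebra.adjoin ℚ {φ : Ω | ∃ l : List (Unit ⊕ Unit),
      φ = (wordProd (H1fam ρ (r γ)) l).trace} ≤ S := by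
    rw [Algebra.adjoin_le_iff]
    rintro _ ⟨l, rfl⟩
    obtain ⟨δ, hδ⟩ := H1_word ρ r γ l
    obtain ⟨t, ht⟩ := htr δ
    exact ⟨t, by rw [hδ, ht]⟩
  choose g hg using fun b : Algebra.adjoin ℚ {φ : Ω | ∃ l : List (Unit ⊕ Unit),
      φ = (wordProd (H1fam ρ (r γ)) l).trace} => hle b.2
  have hinj := (algebraMap K Ω).injective
  let gh : Algebra.adjoin ℚ {φ : Ω | ∃ l : List (Unit ⊕ Unit),
      φ = (wordProd (H1fam ρ (r γ)) l).trace} →+* K :=
    { toFun := g
      map_one' := hinj (by rw [hg, map_one]; rfl)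
      map_mul' := fun a b => hinj (by rw [hg, map_mul, hg, hg]; rfl)
      map_zero' := hinj (by rw [hg, map_zero]; rfl)
      map_add' := fun a b => hinj (by rw [hg, map_add, hg, hg]; rfl) }
  have hK : IsIntegral K ((r γ).left.hom f) := by
    obtain ⟨P, hP, hP0⟩ := hint
    refine ⟨P.map gh, hP.map _, ?_⟩
    rw [Polynomial.eval₂_map]
    have e : (algebraMap K Ω).comp gh = algebraMap (Algebra.adjoin ℚ {φ : Ω |
        ∃ l : List (Unit ⊕ Unit), φ = (wordProd (H1fam ρ (r γ)) l).trace}) Ω :=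
      RingHom.ext fun b => hg b
    rw [e]
    exact hP0
  have hdeg : (minpoly K ((r γ).left.hom f)).degree = 1 :=
    IsAlgClosed.degree_eq_one_of_irreducible K (minpoly.irreducible hK)
  obtain ⟨t, ht⟩ := minpoly.mem_range_of_degree_eq_one K _ hdeg
  exact ⟨t, ht.symm⟩

end Pool.Agent.Lib.MP_666dc0_nt.LV
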