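import Pool.Agent.Lib.MP_666dc0_nt.Mg.G041
import Pool.Agent.Lib.MP_666dc0_nt.Mg.G044
import Pool.Agent.Lib.MP_666dc0_nt.Mg.G043
import Pool.Agent.Lib.MP_666dc0_nt.IG.J14b
import Pool.Agent.Lib.MP_666dc0_nt.LV.H0

open Polynomial

namespace Pool.Agent.Lib.MP_666dc0_nt.LV

open Pool.Agent.Lib.MP_666dc0_nt.IG

variable {O : Type} [CommRing O] [HopfAlgebra ℚ O] {Γ : Type} [Group Γ] {A : HopfAction Γ O}
  {n : ℕ} (ρ : MatRep A n)

/-- Extension of coefficients of `FK`: the `Ω`-linear combinations of elements of `FK A σ` (with values in `K`) are in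
`FK A (γ ↦ (σ γ).map (algebraMap K Ω))`. (`Submodule.span_induction`, `Algebra.adjoin_induction`.) -/
theorem mem_FK_map {K Ω : Type} [Field K] [Field Ω] [Algebra K Ω] {N : ℕ}
    (σ : Γ → Matrix (Fin N) (Fin N) K) {f : Γ → Ω}
    (hf : f ∈ Submodule.span Ω {f : Γ → Ω | ∃ φ ∈ FK A σ, f = fun γ => algebraMap K Ω (φ γ)}) :
    f ∈ FK A (fun γ => (σ γ).map (algebraMap K Ω)) := by
  refine Submodule.span_induction
    (p := fun f _ => f ∈ FK A (fun γ => (σ γ).map (algebraMap K Ω))) ?_ ?_ ?_ ?_ hf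
  · rintro f ⟨φ, hφ, rfl⟩
    refine Algebra.adjoin_induction (p := fun φ _ => (fun γ => algebraMap K Ω (φ γ)) ∈
      FK A (fun γ => (σ γ).map (algebraMap K Ω))) ?_ ?_ ?_ ?_ hφ
    · rintro g ((⟨k, l, rfl⟩ | ⟨k, l, rfl⟩) | hg)
      · exact Algebra.subset_adjoin (Or.inl (Or.inl ⟨k, l, rfl⟩))
      · exact Algebra.subset_adjoin (Or.inl (Or.inr ⟨k, l, rfl⟩))
      · exact Algebra.subset_adjoin (Or.inr fun γ γ' h => congrArg (algebraMap K Ω) (hg γ γ' h))
    · intro c
      exact Subalgebra.algebraMap_mem (FK A (fun γ => (σ γ).map (algebraMap K Ω)))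
        (algebraMap K Ω c)
    · intro a b _ _ ha hb
      have h1 : (fun γ => algebraMap K Ω ((a + b) γ)) =
          (fun γ => algebraMap K Ω (a γ)) + fun γ => algebraMap K Ω (b γ) := by
        funext γ
        exact map_add (algebraMap K Ω) _ _
      rw [h1]
      exact Subalgebra.add_mem _ ha hb
    · intro a b _ _ ha hb
      have h1 : (fun γ => algebraMap K Ω ((a * b) γ)) =
          (fun γ => algebraMap K Ω (a γ)) * fun γ => algebraMap K Ω (b γ) := by
        funext γ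
        exact map_mul (algebraMap K Ω) _ _
      rw [h1]
      exact Subalgebra.mul_mem _ ha hb
  · exact Subalgebra.zero_mem _
  · intro a b _ _ ha hb
    exact Subalgebra.add_mem _ ha hb
  · intro c a _ ha
    exact Subalgebra.smul_mem _ ha c

/-- For a minimal point `r` with the values of a homomorphism `rU : Γ → ᴸG(K)`: if `ρ.ev K (rU φ)` is diagonalisable with
eigenvalues in `Kˣ` (`DG`) then so is `ρ.ev Ω (r φ)` over `Ω`.
Proof: `exists_sigma ρ h.val` gives `N, e, Gi`, `σ := sg ρ V e Gi` multiplicative. `aeval_sg_eq_zero` (J13a.lean) with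
`ρ' = (ρ.ev K).comp rU` (`htr`: `tf ρ V γ = V γ (trF γ) = (rU γ).left.hom (trF γ) = trace`, `trF_eval`, `trF_mem`, `hV`, `hU`): the
product of distinct linear factors killing `ρ.ev K (rU φ)` kills `σ φ`, so `DG (σ φ)` and also
`DG ((σ φ).map (algebraMap K Ω))`. `entries_mem` (GCd.lean), `entries_mem_span` (GCe.lean) and `mem_FK_map`: the entries of
`ρ.ev Ω (r γ)` are in `FK A (σ mapped to Ω)`. `isSemisimpleElt_of_DG` (J14b.lean; `hst` from `exists_stable_of_finite`)
for `r`, then `DG_ev`. -/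
theorem DG_of_min {G : Red n} (hG : IsRedG ρ G) (hρ : Faithful ρ) (TD : TensorData G)
    (hfin : (Set.range A.act).Finite) {K : Type} [Field K] [CharZero K] [Algebra ℚ K]
    {V : Γ → O → K} {Ω : Type} [Field Ω] [IsAlgClosed Ω] [Algebra ℚ Ω] [Algebra K Ω]
    {r : Γ →* A.LGroup Ω} (h : IsMinPt ρ V Ω r) (rU : Γ →* A.LGroup K)
    (hU : ∀ γ, (rU γ).right = γ) (hV : ∀ γ, ∀ f ∈ A.inv γ, V γ f = (rU γ).left.hom f) (φ : Γ)
    (hd : DG (ρ.ev K (rU φ))) : DG (ρ.ev Ω (r φ)) := by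
  classical
  have hcz : CharZero Ω := algebraRat.charZero Ω
  obtain ⟨N, e, Gi, hGi, h1, hmul, hnil⟩ := exists_sigma ρ h.val
  have h2 := entries_mem ρ hG hρ TD h e Gi hGi h1 hmul hnil
  have h3 := entries_mem_span ρ hfin r (sg ρ V e Gi) h1 hmul h2
  -- the matrices `σ φ` are diagonalisable
  have htr : ∀ γ, (((ρ.ev K).comp rU : Γ →* Matrix (Fin n) (Fin n) K) γ).trace = tf ρ V γ := by
    intro γ
    have h4 := ρ.trF_eval (rU γ)
    rw [hU γ] at h4
    change (ρ.ev K (rU γ)).trace = V γ (ρ.trF γ)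
    rw [hV γ _ (ρ.trF_mem γ), h4]
  have hdσ : DG (sg ρ V e Gi φ) := by
    obtain ⟨s, hs⟩ := hd
    exact ⟨s, aeval_sg_eq_zero ρ V e Gi h1 hmul ((ρ.ev K).comp rU) htr φ hs⟩
  have hdΩ : DG ((sg ρ V e Gi φ).map (algebraMap K Ω)) := by
    obtain ⟨s, hs⟩ := hdσ
    refine ⟨s.map ⟨Units.map (algebraMap K Ω).toMonoidHom,
      Units.map_injective (algebraMap K Ω).injective⟩, ?_⟩
    have h5 := congrArg (fun M : Matrix (Fin N) (Fin N) K => M.map (algebraMap K Ω)) hs
    have h6 : ((aeval (sg ρ V e Gi φ)) (∏ μ ∈ s, (X - C (μ : K)))).map (algebraMap K Ω) =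
        aeval ((sg ρ V e Gi φ).map (algebraMap K Ω))
          ((∏ μ ∈ s, (X - C (μ : K))).map (algebraMap K Ω)) := by
      have h7 := Polynomial.hom_eval₂ (∏ μ ∈ s, (X - C (μ : K)))
        (algebraMap K (Matrix (Fin N) (Fin N) K)) (RingHom.mapMatrix (algebraMap K Ω))
        (sg ρ V e Gi φ)
      rw [aeval_def, aeval_def, Polynomial.eval₂_map]
      refine h7.trans ?_
      congr 1
      ext c i j
      rw [RingHom.comp_apply, RingHom.comp_apply, RingHom.mapMatrix_apply, Matrix.map_apply,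
        Matrix.algebraMap_matrix_apply, Matrix.algebraMap_matrix_apply]
      split_ifs
      · rfl
      · exact map_zero _
    have h8 : (∏ μ ∈ s, (X - C (μ : K))).map (algebraMap K Ω) =
        ∏ μ ∈ s.map ⟨Units.map (algebraMap K Ω).toMonoidHom,
          Units.map_injective (algebraMap K Ω).injective⟩, (X - C ((μ : Ωˣ) : Ω)) := by
      rw [Polynomial.map_prod, Finset.prod_map]
      refine Finset.prod_congr rfl fun μ _ => ?_
      rw [Polynomial.map_sub, Polynomial.map_X, Polynomial.map_C]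
      rfl
    rw [← h8, ← h6]
    refine h5.trans ?_
    exact Matrix.map_zero _ (map_zero _)
  have hss : A.IsSemisimpleElt (r φ) :=
    isSemisimpleElt_of_DG ρ hρ hfin (fun Φ hΦ => exists_stable_of_finite hfin Φ hΦ)
      (fun γ => (sg ρ V e Gi γ).map (algebraMap K Ω))
      (by rw [h1]; exact Matrix.map_one _ (map_zero _) (map_one _))
      (fun γ δ => by rw [hmul, Matrix.map_mul]) r h.val.proj
      (fun i j => mem_FK_map (sg ρ V e Gi) (h3 i j)) hdΩ
  exact DG_ev ρ (exists_pow_act hfin _) hss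

end Pool.Agent.Lib.MP_666dc0_nt.LV
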