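import Pool.Agent.Lib.MP_666dc0_nt.LD.ED2
import Pool.Agent.Lib.MP_666dc0_nt.LV.Hc

open Polynomial LaurentPolynomial

namespace Pool.Agent.Lib.MP_666dc0_nt.LV

open Pool.Agent.Lib.MP_666dc0_nt.IG

variable {O O' : Type} [CommRing O] [HopfAlgebra ℚ O] [CommRing O'] [HopfAlgebra ℚ O'] {Γ : Type}
  [Group Γ] {A : HopfAction Γ O} {A' : HopfAction Γ O'} {π : O →ₐc[ℚ] O'}
  {μ : O →ₐc[ℚ] ℚ[T;T⁻¹]} {n : ℕ}

/-- The traces of the `e_l ρ(incl r' γ, γ)` from identity I. Notation as in `heart_comm`.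

Proof. `LD.trace_diag` with `G = ρ.ev Ω (r γ)`, `δ a = algebraMap K Ω (D (σ ^ a * γ))`, `η l a = (c γ) ^ l * algebraMap K Ω (E l (σ ^ a * γ))`; membership in
`CH (Multiplicative ℕ) K Ω` by `LD.CH_comp` along the homomorphism `a ↦ (a, 0)` (`MonoidHom.inl`) from `hDch γ 1`, `hEch l γ 1` (`wd σ γ 1 (a, 0) = σ ^ a * γ`); the
hypothesis `h` is `hid (σ ^ a * γ)`, `c (σ ^ a * γ) = (c σ) ^ a * c γ`. Result: `D (σ ^ a γ) * trace (e l * X ^ a * ρ.ev (r γ)) = (c γ) ^ l * E l (σ ^ a γ)`. Moreover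
`ρ.ev (r γ) = N * ρ.gm (cochar μ (c γ))`, `N = ρ.ev (incl (r' γ).left, γ)` (`ev_mul_cochar`, `hr`, `hrr'`), `e l` commutes with `X` and `N` (`ev_incl_comm`) and
`e l * ρ.gm (cochar μ (c γ)) = (c γ) ^ l • e l` (`Wts.dg`, `LD.Proj.e_mul_dg`), so `trace (e l * X ^ a * ρ.ev (r γ)) = (c γ) ^ l * trace (X ^ a * (e l * N))`;
cancel `(c γ) ^ l ≠ 0`. -/
theorem heart_trace (hM : IsLevi A A' π μ) {ρ : MatRep A n} {J : Finset ℤ}
    {p : ℤ → Matrix (Fin n) (Fin n) ℚ} (hW : Wts μ ρ J p) {K Ω : Type} [Field K] [Algebra ℚ K]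
    [Field Ω] [Algebra ℚ Ω] [Algebra K Ω]
    {r : Γ →* A.LGroup Ω} (hr : ∀ γ, (r γ).right = γ) (σ : Γ) (m : Pts O' K)
    (c : Γ →* Ωˣ) (hc : Transcendental K (c σ : Ω))
    (hrσ : (r σ).left = Pts.incl π (Pts.map (algebraMap K Ω).toRatAlgHom m) * Pts.cochar μ (c σ))
    (hm : DG (ρ.ev K (⟨Pts.incl π m, σ⟩ : A.LGroup K))) (D : Γ → K) (E : ℤ → Γ → K)
    (hid : ∀ w, algebraMap K Ω (D w) * (ρ.ev Ω (r w)).trace =
      ∑ l ∈ J, (c w : Ω) ^ l * algebraMap K Ω (E l w))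
    (hDch : ∀ γ δ, (fun x : NN => algebraMap K Ω (D (wd σ γ δ x))) ∈ LD.CH NN K Ω)
    (hEch : ∀ l, ∀ γ δ, (fun x : NN => algebraMap K Ω (E l (wd σ γ δ x))) ∈ LD.CH NN K Ω)
    (r' : Γ →* A'.LGroup Ω) (hr' : ∀ γ, (r' γ).right = γ)
    (hrr' : ∀ γ, (r γ).left = Pts.incl π (r' γ).left * Pts.cochar μ (c γ)) (γ : Γ) (a : ℕ) {l : ℤ}
    (hl : l ∈ J) :
    algebraMap K Ω (D (σ ^ a * γ)) *
      (((ρ.ev K (⟨Pts.incl π m, σ⟩ : A.LGroup K)).map (algebraMap K Ω)) ^ a *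
        (pj Ω p l * ρ.ev Ω (⟨Pts.incl π (r' γ).left, γ⟩ : A.LGroup Ω))).trace =
      algebraMap K Ω (E l (σ ^ a * γ)) := by
  classical
  have he : LD.Proj J (pj Ω p) := hW.proj Ω
  set M : Matrix (Fin n) (Fin n) K := ρ.ev K (⟨Pts.incl π m, σ⟩ : A.LGroup K) with hMdef
  set X : Matrix (Fin n) (Fin n) Ω := M.map (algebraMap K Ω) with hXdef
  have hT0 : (c σ : Ω) ≠ 0 := (c σ).ne_zero
  have hc0 : (c γ : Ω) ≠ 0 := (c γ).ne_zero
  have hev : ρ.ev Ω (r σ) = X * LD.dg J (pj Ω p) (c σ : Ω) := by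
    have h1 := ev_eq_dg hM hW m (c σ) (r σ) hrσ
    rw [hr σ] at h1
    exact h1
  have hXe : ∀ j ∈ J, pj Ω p j * X = X * pj Ω p j := by
    intro j hj
    have h1 := congrArg (fun Y : Matrix (Fin n) (Fin n) K => Y.map (algebraMap K Ω))
      (ev_incl_comm hM hW (R := K) m σ hj)
    simp only [Matrix.map_mul] at h1
    rw [pj_map p (algebraMap K Ω) j] at h1
    exact h1
  obtain ⟨Λ, h0, hX⟩ := DG.exists_Lam hm Ω
  have hwd : ∀ y : Multiplicative ℕ, wd σ γ 1 (MonoidHom.inl (Multiplicative ℕ) (Multiplicative ℕ) y)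
      = σ ^ y.toAdd * γ := by
    intro y
    simp [wd]
  have hδ : (fun x : Multiplicative ℕ => algebraMap K Ω (D (σ ^ x.toAdd * γ))) ∈
      LD.CH (Multiplicative ℕ) K Ω := by
    have h1 := LD.CH_comp (MonoidHom.inl (Multiplicative ℕ) (Multiplicative ℕ)) (hDch γ 1)
    simp only [hwd] at h1
    exact h1
  have hη : ∀ l' ∈ J, (fun x : Multiplicative ℕ => (c γ : Ω) ^ l' *
      algebraMap K Ω (E l' (σ ^ x.toAdd * γ))) ∈ LD.CH (Multiplicative ℕ) K Ω := by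
    intro l' _
    have h1 := LD.CH_comp (MonoidHom.inl (Multiplicative ℕ) (Multiplicative ℕ)) (hEch l' γ 1)
    simp only [hwd] at h1
    have h2 := (LD.CH (Multiplicative ℕ) K Ω).smul_mem h1 ((c γ : Ω) ^ l')
    have h3 : ((c γ : Ω) ^ l' • fun y : Multiplicative ℕ => algebraMap K Ω (E l' (σ ^ y.toAdd * γ)))
        = fun x : Multiplicative ℕ => (c γ : Ω) ^ l' * algebraMap K Ω (E l' (σ ^ x.toAdd * γ)) := by
      funext y
      rfl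
    rw [← h3]
    exact h2
  have hh : ∀ b : ℕ, algebraMap K Ω (D (σ ^ b * γ)) *
      ((X * LD.dg J (pj Ω p) (c σ : Ω)) ^ b * ρ.ev Ω (r γ)).trace =
      ∑ l' ∈ J, (c σ : Ω) ^ (l' * (b : ℤ)) * ((c γ : Ω) ^ l' *
        algebraMap K Ω (E l' (σ ^ b * γ))) := by
    intro b
    have h1 := hid (σ ^ b * γ)
    rw [map_mul r, map_mul (ρ.ev Ω), map_pow r, map_pow (ρ.ev Ω), hev] at h1
    rw [h1]
    refine Finset.sum_congr rfl fun l' _ => ?_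
    rw [map_mul c, map_pow c, Units.val_mul, Units.val_pow_eq_pow_val, mul_zpow, ← zpow_natCast,
      ← zpow_mul, mul_comm (b : ℤ) l', mul_assoc]
  have hmain := LD.trace_diag (K := K) (c σ : Ω) hT0
    (fun α β i j hα hβ h => types_of_transcendental hc α β i j hα hβ h) he X hXe Λ h0 hX
    (ρ.ev Ω (r γ)) (fun b => algebraMap K Ω (D (σ ^ b * γ)))
    (fun l' b => (c γ : Ω) ^ l' * algebraMap K Ω (E l' (σ ^ b * γ))) hδ hη hh hl a
  set N : Matrix (Fin n) (Fin n) Ω := ρ.ev Ω (⟨Pts.incl π (r' γ).left, γ⟩ : A.LGroup Ω) with hN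
  have hrγ : r γ = (⟨Pts.incl π (r' γ).left * Pts.cochar μ (c γ), γ⟩ : A.LGroup Ω) :=
    SemidirectProduct.ext (hrr' γ) (hr γ)
  have hevγ : ρ.ev Ω (r γ) = N * LD.dg J (pj Ω p) (c γ : Ω) := by
    rw [hrγ, ev_mul_cochar hM ρ, hW.dg Ω (c γ)]
  have hNe : pj Ω p l * N = N * pj Ω p l := ev_incl_comm hM hW (R := Ω) (r' γ).left γ hl
  have hXa : pj Ω p l * X ^ a = X ^ a * pj Ω p l := by
    have h1 : Commute (pj Ω p l) X := hXe l hl
    exact h1.pow_right a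
  have hprod : pj Ω p l * X ^ a * ρ.ev Ω (r γ) = (c γ : Ω) ^ l • (X ^ a * (pj Ω p l * N)) := by
    rw [hevγ, hXa, mul_assoc, ← mul_assoc (pj Ω p l) N, hNe, mul_assoc N,
      (he.e_mul_dg (c γ : Ω) hl).1, mul_smul_comm, mul_smul_comm]
  rw [hprod, Matrix.trace_smul, smul_eq_mul] at hmain
  have hcl : (c γ : Ω) ^ l ≠ 0 := zpow_ne_zero l hc0
  have hfin : (c γ : Ω) ^ l * (algebraMap K Ω (D (σ ^ a * γ)) * (X ^ a * (pj Ω p l * N)).trace)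
      = (c γ : Ω) ^ l * algebraMap K Ω (E l (σ ^ a * γ)) := by
    rw [← hmain]
    ring
  exact mul_left_cancel₀ hcl hfin

end Pool.Agent.Lib.MP_666dc0_nt.LV
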