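import Pool.Agent.Lib.MP_666dc0_nt.LV.N1
import Pool.Agent.Lib.MP_666dc0_nt.LV.N2

open LaurentPolynomial Topology

namespace Pool.Agent.Lib.MP_666dc0_nt.LV

open Pool.Agent.Lib.MP_666dc0_nt.IG

variable {O O' : Type} [CommRing O] [HopfAlgebra ℚ O] [CommRing O'] [HopfAlgebra ℚ O'] {Γ : Type}
  [Group Γ] {A : HopfAction Γ O} {A' : HopfAction Γ O'} {π : O →ₐc[ℚ] O'}
  {μ : O →ₐc[ℚ] ℚ[T;T⁻¹]} {n : ℕ}

/-- The trace of an admissible homomorphism is continuous: `ρ.ev K (r γ) = ρ.gm (r γ).left * ρ.pm K γ`, `continuous_pm` (Bound.lean) -/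
theorem continuous_trace_ev [TopologicalSpace Γ] [IsTopologicalGroup Γ] [CompactSpace Γ]
    (hA : IsOpen (A.act.ker : Set Γ)) (ρ : MatRep A n) {K : Type} [Field K] [Algebra ℚ K]
    [TopologicalSpace K] [IsTopologicalRing K] (r : Γ →* A.LGroup K) (hr : ∀ γ, (r γ).right = γ)
    (hc : ∀ f : O, Continuous fun γ => (r γ).left.hom f) :
    Continuous fun γ => (ρ.ev K (r γ)).trace := by
  have h : (fun γ => (ρ.ev K (r γ)).trace) = fun γ => ∑ i, ρ.ev K (r γ) i i := rfl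
  rw [h]
  exact continuous_finsetSum _ fun i _ => continuous_ev ρ hA r hr hc i i

/-- Identity I. Both sides are continuous functions of `w` (`continuous_trace_ev`, `continuous_det`, `continuous_etaJ`), and agree on the
dense set of the `δ σ ^ a δ⁻¹`, `σ ∈ Φ`: by `trace_conj_pow` and `cramerJ`. (`Dense.equalizer`, `Continuous.ext_on`.) -/
theorem identityI [TopologicalSpace Γ] [IsTopologicalGroup Γ] [CompactSpace Γ]
    (hA : IsOpen (A.act.ker : Set Γ)) (hM : IsLevi A A' π μ) {ρ : MatRep A n} {J : Finset ℤ}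
    {p : ℤ → Matrix (Fin n) (Fin n) ℚ} (hW : Wts μ ρ J p) {K : Type} [Field K] [Algebra ℚ K]
    [TopologicalSpace K] [IsTopologicalRing K] [T2Space K]
    {Z : Set ℤ} (r : ℤ → Γ →* A.LGroup K) (hr : ∀ k ∈ Z, ∀ γ, (r k γ).right = γ)
    (hc : ∀ k ∈ Z, ∀ f : O, Continuous fun γ => (r k γ).left.hom f) (s : Γ →* Kˣ)
    (hs : Continuous fun γ => (s γ : K)) (Φ : Set Γ) (m : Γ → Pts O' K)
    (hv : ∀ σ ∈ Φ, ∀ k ∈ Z, ∀ f ∈ A.inv σ,
      (r k σ).left.hom f = (Pts.incl π (m σ) * Pts.cochar μ (s σ ^ k)).hom f)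
    (hΦ : Dense {w : Γ | ∃ σ ∈ Φ, ∃ (δ : Γ) (a : ℕ), w = δ * σ ^ a * δ⁻¹})
    (kv : Fin J.card → ℤ) (hkv : ∀ b, kv b ∈ Z) (k' : ℤ) (hk' : k' ∈ Z) (w : Γ) :
    (LD.vdm (jv J) kv (s w : K)).det * (ρ.ev K (r k' w)).trace =
      ∑ l ∈ J, etaJ J kv (s w : K) (fun b => (ρ.ev K (r (kv b) w)).trace) l * (s w : K) ^ (l * k') := by
  have hz : ∀ m : ℤ, Continuous fun w => (s w : K) ^ m := by
    intro m
    rcases Int.le_total 0 m with hm | hm
    · obtain ⟨k, rfl⟩ := Int.eq_ofNat_of_zero_le hm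
      simp only [Int.ofNat_eq_natCast, zpow_natCast]
      exact hs.pow k
    · obtain ⟨k, hk⟩ := Int.eq_ofNat_of_zero_le (neg_nonneg.mpr hm)
      have hm' : m = -(k : ℤ) := by
        have h5 : -m = (k : ℤ) := hk
        omega
      have h1 : (fun w => (s w : K) ^ m) = fun w => ((s w⁻¹ : Kˣ) : K) ^ k := by
        ext w
        rw [hm', zpow_neg, zpow_natCast, map_inv, Units.val_inv_eq_inv_val, inv_pow]
      rw [h1]
      exact (hs.comp continuous_inv).pow k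
  have hev : ∀ k ∈ Z, Continuous fun γ => (ρ.ev K (r k γ)).trace := fun k hk =>
    continuous_trace_ev hA ρ (r k) (hr k hk) (hc k hk)
  have h1 : Continuous fun w => (LD.vdm (jv J) kv (s w : K)).det * (ρ.ev K (r k' w)).trace :=
    (continuous_det J kv (fun w => (s w : K)) hz).mul (hev k' hk')
  have h2 : Continuous fun w => ∑ l ∈ J, etaJ J kv (s w : K)
      (fun b => (ρ.ev K (r (kv b) w)).trace) l * (s w : K) ^ (l * k') := by
    refine continuous_finsetSum _ fun l _ => ?_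
    exact (continuous_etaJ J kv (fun w => (s w : K)) hz (fun b w => (ρ.ev K (r (kv b) w)).trace)
      (fun b => hev (kv b) (hkv b)) l).mul (hz _)
  refine congrFun (Continuous.ext_on hΦ h1 h2 ?_) w
  rintro _ ⟨σ, hσ, δ, a, rfl⟩
  obtain ⟨C, hC⟩ := trace_conj_pow hM hW r hr s σ (m σ) (hv σ hσ) δ a
  beta_reduce
  rw [hC k' hk']
  exact cramerJ J kv ((s (δ * σ ^ a * δ⁻¹) : Kˣ) : K) _ C (fun b => hC (kv b) (hkv b)) k'

end Pool.Agent.Lib.MP_666dc0_nt.LV
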