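import Pool.Agent.Lib.MP_666dc0_nt.Mg.G042

open Polynomial

namespace Pool.Agent.Lib.MP_666dc0_nt.LV

open Pool.Agent.Lib.MP_666dc0_nt.IG

variable {K L : Type} [Field K] [Field L] [Algebra K L] {n : ℕ}

/-- A matrix all of whose positive powers have trace zero is nilpotent. -/
private theorem P1_isNilpotent_of_trace {K : Type*} [Field K] [CharZero K] {n : ℕ}
    (X : Matrix (Fin n) (Fin n) K)
    (h : ∀ k : ℕ, 1 ≤ k → (X ^ k).trace = 0) : IsNilpotent X := by
  classical
  let B := Algebra.adjoin K ({X} : Set (Matrix (Fin n) (Fin n) K))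
  let x : B := ⟨X, Algebra.subset_adjoin rfl⟩
  have hcomm : ∀ a b : B, a * b = b * a := by
    intro a b
    have h1 : (a : Matrix (Fin n) (Fin n) K) * b = b * a := by
      have ha := a.2
      have hb := b.2
      have hc : (b : Matrix (Fin n) (Fin n) K) ∈ Subalgebra.centralizer K {X} := by
        refine (Algebra.adjoin_le ?_ : B ≤ Subalgebra.centralizer K {X}) hb
        rintro c rfl
        rw [SetLike.mem_coe, Subalgebra.mem_centralizer_iff]
        rintro d rfl; rfl
      have hd : (a : Matrix (Fin n) (Fin n) K) ∈ Subalgebra.centralizer K {(b : Matrix (Fin n) (Fin n) K)} := by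
        refine (Algebra.adjoin_le ?_ : B ≤ _) ha
        rintro c rfl
        rw [SetLike.mem_coe, Subalgebra.mem_centralizer_iff]
        rintro d rfl
        rw [Subalgebra.mem_centralizer_iff] at hc
        exact (hc _ rfl).symm
      rw [Subalgebra.mem_centralizer_iff] at hd
      exact (hd _ rfl).symm
    exact Subtype.ext h1
  have hart : IsArtinian K B := inferInstance
  have hart2 : IsArtinianRing B := IsArtinianRing.of_finite K B
  let cB : CommRing B := { (inferInstance : Ring B) with mul_comm := hcomm }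
  have hart3 : IsArtinian B B := hart2
  obtain ⟨m, y, hy⟩ := IsArtinian.exists_pow_succ_smul_dvd x (1 : B)
  rw [smul_eq_mul, smul_eq_mul, mul_one] at hy
  -- `x ^ (m + j) * y ^ j = x ^ m`
  have hj : ∀ j : ℕ, x ^ (m + j) * y ^ j = x ^ m := by
    intro j
    induction j with
    | zero => simp
    | succ j ih =>
      calc x ^ (m + (j + 1)) * y ^ (j + 1) = x ^ j * (x ^ m.succ * y) * y ^ j := by
            rw [Nat.succ_eq_add_one]; ring
        _ = x ^ (m + j) * y ^ j := by rw [hy]; ring
        _ = x ^ m := ih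
  let e : B := x ^ (m + 1) * y ^ (m + 1)
  have hee : e * e = e := by
    have h1 := hj (m + 2)
    calc e * e = x ^ (m + 1 + (m + 1)) * y ^ (m + 2) * y ^ m := by simp only [e]; ring
      _ = x ^ (m + (m + 2)) * y ^ (m + 2) * y ^ m := by congr 3; ring
      _ = x ^ m * y ^ m := by rw [h1]
      _ = (x ^ (m + 1) * y ^ 1) * y ^ m := by rw [hj 1]
      _ = e := by simp only [e]; ring
  -- elements of `x B` have trace zero
  have htr : ∀ b : B, ((x * b : B) : Matrix (Fin n) (Fin n) K).trace = 0 := by
    intro b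
    have h1 : ((b : B) : Matrix (Fin n) (Fin n) K) ∈ Submodule.span K (Set.range fun k : ℕ => X ^ k) := by
      have h2 := b.2
      rw [← Subalgebra.mem_toSubmodule, Algebra.adjoin_eq_span] at h2
      refine Submodule.span_mono ?_ h2
      intro z hz
      rw [SetLike.mem_coe, Submonoid.mem_closure_singleton] at hz
      obtain ⟨k, hk⟩ := hz
      exact ⟨k, hk⟩
    have h3 : Submodule.span K (Set.range fun k : ℕ => X ^ k) ≤
        LinearMap.ker ((Matrix.traceLinearMap (Fin n) K K) ∘ₗ LinearMap.mulLeft K X) := by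
      rw [Submodule.span_le]
      rintro _ ⟨k, rfl⟩
      rw [SetLike.mem_coe, LinearMap.mem_ker]
      change (X * X ^ k).trace = 0
      rw [← pow_succ']
      exact h (k + 1) (by omega)
    have h4 := h3 h1
    rw [LinearMap.mem_ker] at h4
    exact h4
  have he0 : (e : Matrix (Fin n) (Fin n) K).trace = 0 := by
    have h1 : e = x * (x ^ m * y ^ (m + 1)) := by simp only [e]; ring
    rw [h1]; exact htr _
  have hE : (e : Matrix (Fin n) (Fin n) K) = 0 := by
    have h1 : IsIdempotentElem (Matrix.toLin' (e : Matrix (Fin n) (Fin n) K)) := by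
      have h2 : (e : Matrix (Fin n) (Fin n) K) * e = e := congrArg Subtype.val hee
      change _ * _ = _
      rw [Module.End.mul_eq_comp, ← Matrix.toLin'_mul, h2]
    have h2 := LinearMap.IsIdempotentElem.eq_zero_of_trace_eq_zero h1 (by
      rw [Matrix.trace_toLin'_eq]; exact he0)
    exact (LinearEquiv.map_eq_zero_iff _).mp h2
  refine ⟨m, ?_⟩
  have h5 : x ^ m = x ^ m * e := by
    have h6 := hj (m + 1)
    calc x ^ m = x ^ (m + (m + 1)) * y ^ (m + 1) := h6.symm
      _ = x ^ m * e := by simp only [e]; ring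
  have h7 := congrArg Subtype.val h5
  change X ^ m = X ^ m * (e : Matrix (Fin n) (Fin n) K) at h7
  rw [h7, hE, mul_zero]

/-- Let `c` be transcendental over `K`. Elements `α * c ^ i` with `α ∈ Kˣ` are different for different `i`: from
`α c ^ i = β c ^ j` we get `α X ^ (i + m) - β X ^ (j + m) ∈ K[X]` (`m` large) vanishing at `c`, so it is zero. -/
theorem types_of_transcendental {c : L} (hc : Transcendental K c) (α β : K) (i j : ℤ) (hα : α ≠ 0)
    (hβ : β ≠ 0) (h : algebraMap K L α * c ^ i = algebraMap K L β * c ^ j) : i = j := by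
  have hc0 : c ≠ 0 := by
    rintro rfl
    exact hc isAlgebraic_zero
  obtain ⟨m, hm⟩ : ∃ m : ℕ, m = i.natAbs + j.natAbs := ⟨_, rfl⟩
  obtain ⟨a, ha⟩ : ∃ a : ℕ, (a : ℤ) = i + m := ⟨(i + m).toNat, Int.toNat_of_nonneg (by omega)⟩
  obtain ⟨b, hb⟩ : ∃ b : ℕ, (b : ℤ) = j + m := ⟨(j + m).toNat, Int.toNat_of_nonneg (by omega)⟩
  have h1 : algebraMap K L α * c ^ a = algebraMap K L β * c ^ b := by
    rw [← zpow_natCast c a, ← zpow_natCast c b, ha, hb, zpow_add₀ hc0, zpow_add₀ hc0, ← mul_assoc,
      ← mul_assoc, h]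
  have h2 : aeval c (C α * X ^ a - C β * X ^ b : K[X]) = 0 := by
    rw [map_sub, map_mul, map_mul, aeval_C, aeval_C, map_pow, map_pow, aeval_X, h1, sub_self]
  have h3 := (transcendental_iff.1 hc) _ h2
  have h4 : (C α * X ^ a - C β * X ^ b : K[X]).coeff a = 0 := by rw [h3, coeff_zero]
  rw [coeff_sub, coeff_C_mul_X_pow, coeff_C_mul_X_pow, if_pos rfl] at h4
  by_cases hab : a = b
  · omega
  · rw [if_neg hab, sub_zero] at h4
    exact absurd h4 hα

/-- `DG` in the form used in the files LD/E*.lean. -/
theorem DG.exists_Lam {M : Matrix (Fin n) (Fin n) K} (hM : DG M) (L : Type) [Field L] [Algebra K L] :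
    ∃ Λ : Finset K, (0 : K) ∉ Λ ∧
      aeval (M.map (algebraMap K L)) (∏ α ∈ Λ, (X - C (algebraMap K L α))) = 0 := by
  classical
  obtain ⟨s, hs⟩ := hM
  refine ⟨s.map ⟨Units.val, Units.val_injective⟩, ?_, ?_⟩
  · intro h
    rw [Finset.mem_map] at h
    obtain ⟨μ, _, hμ⟩ := h
    exact μ.ne_zero hμ
  · have h1 : (∏ α ∈ s.map ⟨Units.val, Units.val_injective⟩, (X - C (algebraMap K L α))) =
        (∏ μ ∈ s, (X - C (μ : K))).map (algebraMap K L) := by
      rw [Finset.prod_map, Polynomial.map_prod]
      refine Finset.prod_congr rfl fun μ _ => ?_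
      rw [Polynomial.map_sub, map_X, map_C]
      rfl
    have h2 : ∀ p : K[X], aeval (M.map (algebraMap K L)) (p.map (algebraMap K L)) =
        (algebraMap K L).mapMatrix (aeval M p) := by
      intro p
      induction p using Polynomial.induction_on' with
      | add p q hp hq => rw [Polynomial.map_add, map_add, map_add, map_add, hp, hq]
      | monomial k a =>
        rw [Polynomial.map_monomial, aeval_monomial, aeval_monomial, map_mul, map_pow]
        congr 1
        ext x y
        rw [RingHom.mapMatrix_apply, Matrix.map_apply, Matrix.algebraMap_matrix_apply,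
          Matrix.algebraMap_matrix_apply]
        split_ifs
        · rfl
        · rw [map_zero]
    rw [h1, h2, hs, map_zero]

/-- Let `M` be killed by a squarefree polynomial and let `M'` be a matrix such that all traces `trace (M ^ b)`, `b ≥ 0`, and
`trace (M' ^ b)` agree. If `P (M') = 0` then `P (M) = 0`.
Proof. By linearity `trace (Q (M)) = trace (Q (M'))` for all polynomials `Q`. So for `k ≥ 1` `trace (P (M) ^ k) = trace (P (M') ^ k) = 0`,
hence `P (M)` is nilpotent (see `GBa_isNilpotent_of_trace` in IG/GBa.lean, which is private, copy it; or Mathlib), `P ^ j (M) = 0`.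
The minimal polynomial `m` of `M` divides the squarefree polynomial, so it is squarefree, and `m ∣ P ^ j`, so
`m ∣ P` (`UniqueFactorizationMonoid.dvd_of_dvd_pow_of_squarefree`-like lemma, `Squarefree.dvd_pow_iff_dvd`). -/
theorem aeval_eq_zero_of_trace [CharZero K] {n' : ℕ} (M : Matrix (Fin n) (Fin n) K)
    (M' : Matrix (Fin n') (Fin n') K) (h : ∀ b : ℕ, (M ^ b).trace = (M' ^ b).trace) {q : K[X]}
    (hq : Squarefree q) (hqM : aeval M q = 0) {P : K[X]} (hP : aeval M' P = 0) : aeval M P = 0 := by
  have htr : ∀ Q : K[X], (aeval M Q).trace = (aeval M' Q).trace := by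
    intro Q
    rw [aeval_eq_sum_range, aeval_eq_sum_range, Matrix.trace_sum, Matrix.trace_sum]
    refine Finset.sum_congr rfl fun b _ => ?_
    rw [Matrix.trace_smul, Matrix.trace_smul, h b]
  have hnil : IsNilpotent (aeval M P) := by
    refine P1_isNilpotent_of_trace _ fun k hk => ?_
    rw [← map_pow, htr, map_pow, hP, zero_pow (by omega), Matrix.trace_zero]
  obtain ⟨j, hj⟩ := hnil
  have h1 : aeval M (P ^ (j + 1)) = 0 := by
    rw [map_pow, pow_succ, hj, zero_mul]
  have h2 : minpoly K M ∣ P ^ (j + 1) := minpoly.dvd K M h1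
  have h3 : Squarefree (minpoly K M) := hq.squarefree_of_dvd (minpoly.dvd K M hqM)
  have h4 : minpoly K M ∣ P := (h3.dvd_pow_iff_dvd (by omega)).1 h2
  obtain ⟨R, hR⟩ := h4
  rw [hR, map_mul, minpoly.aeval, zero_mul]

end Pool.Agent.Lib.MP_666dc0_nt.LV
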