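import Mathlib

open Polynomial

namespace Pool.Agent.Lib.MP_666dc0_nt.LV

variable {K L : Type} [Field K] [Field L] [Algebra K L] {n : ℕ}

/-- A matrix all of whose positive powers have trace zero is nilpotent. -/
private theorem P3_nil0 {K : Type*} [Field K] [CharZero K] {n : ℕ}
    (X : Matrix (Fin n) (Fin n) K)
    (h : ∀ k : ℕ, 1 ≤ k → (X ^ k).trace = 0) : IsNilpotent X := by
  classical
  let B := Algebra.adjoin K ({X} : Set (Matrix (Fin n) (Fin n) K))
  let x : B := ⟨X, Algebra.subset_adjoin rfl⟩
  have hcomm : ∀ a b : B, a * b = b * a := by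
    intro a b
    have h1 : (a : Matrix (Fin n) (Fin n) K) * b = b * a := by
      have ha := a.2
      have hb := b.2
      have hc : (b : Matrix (Fin n) (Fin n) K) ∈ Subalgebra.centralizer K {X} := by
        refine (Algebra.adjoin_le ?_ : B ≤ Subalgebra.centralizer K {X}) hb
        rintro c rfl
        rw [SetLike.mem_coe, Subalgebra.mem_centralizer_iff]
        rintro d rfl; rfl
      have hd : (a : Matrix (Fin n) (Fin n) K) ∈ Subalgebra.centralizer K {(b : Matrix (Fin n) (Fin n) K)} := by
        refine (Algebra.adjoin_le ?_ : B ≤ _) ha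
        rintro c rfl
        rw [SetLike.mem_coe, Subalgebra.mem_centralizer_iff]
        rintro d rfl
        rw [Subalgebra.mem_centralizer_iff] at hc
        exact (hc _ rfl).symm
      rw [Subalgebra.mem_centralizer_iff] at hd
      exact (hd _ rfl).symm
    exact Subtype.ext h1
  have hart : IsArtinian K B := inferInstance
  have hart2 : IsArtinianRing B := IsArtinianRing.of_finite K B
  let cB : CommRing B := { (inferInstance : Ring B) with mul_comm := hcomm }
  have hart3 : IsArtinian B B := hart2
  obtain ⟨m, y, hy⟩ := IsArtinian.exists_pow_succ_smul_dvd x (1 : B)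
  rw [smul_eq_mul, smul_eq_mul, mul_one] at hy
  -- `x ^ (m + j) * y ^ j = x ^ m`
  have hj : ∀ j : ℕ, x ^ (m + j) * y ^ j = x ^ m := by
    intro j
    induction j with
    | zero => simp
    | succ j ih =>
      calc x ^ (m + (j + 1)) * y ^ (j + 1) = x ^ j * (x ^ m.succ * y) * y ^ j := by
            rw [Nat.succ_eq_add_one]; ring
        _ = x ^ (m + j) * y ^ j := by rw [hy]; ring
        _ = x ^ m := ih
  let e : B := x ^ (m + 1) * y ^ (m + 1)
  have hee : e * e = e := by
    have h1 := hj (m + 2)
    calc e * e = x ^ (m + 1 + (m + 1)) * y ^ (m + 2) * y ^ m := by simp only [e]; ring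
      _ = x ^ (m + (m + 2)) * y ^ (m + 2) * y ^ m := by congr 3; ring
      _ = x ^ m * y ^ m := by rw [h1]
      _ = (x ^ (m + 1) * y ^ 1) * y ^ m := by rw [hj 1]
      _ = e := by simp only [e]; ring
  -- elements of `x B` have trace zero
  have htr : ∀ b : B, ((x * b : B) : Matrix (Fin n) (Fin n) K).trace = 0 := by
    intro b
    have h1 : ((b : B) : Matrix (Fin n) (Fin n) K) ∈ Submodule.span K (Set.range fun k : ℕ => X ^ k) := by
      have h2 := b.2
      rw [← Subalgebra.mem_toSubmodule, Algebra.adjoin_eq_span] at h2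
      refine Submodule.span_mono ?_ h2
      intro z hz
      rw [SetLike.mem_coe, Submonoid.mem_closure_singleton] at hz
      obtain ⟨k, hk⟩ := hz
      exact ⟨k, hk⟩
    have h3 : Submodule.span K (Set.range fun k : ℕ => X ^ k) ≤
        LinearMap.ker ((Matrix.traceLinearMap (Fin n) K K) ∘ₗ LinearMap.mulLeft K X) := by
      rw [Submodule.span_le]
      rintro _ ⟨k, rfl⟩
      rw [SetLike.mem_coe, LinearMap.mem_ker]
      change (X * X ^ k).trace = 0
      rw [← pow_succ']
      exact h (k + 1) (by omega)
    have h4 := h3 h1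
    rw [LinearMap.mem_ker] at h4
    exact h4
  have he0 : (e : Matrix (Fin n) (Fin n) K).trace = 0 := by
    have h1 : e = x * (x ^ m * y ^ (m + 1)) := by simp only [e]; ring
    rw [h1]; exact htr _
  have hE : (e : Matrix (Fin n) (Fin n) K) = 0 := by
    have h1 : IsIdempotentElem (Matrix.toLin' (e : Matrix (Fin n) (Fin n) K)) := by
      have h2 : (e : Matrix (Fin n) (Fin n) K) * e = e := congrArg Subtype.val hee
      change _ * _ = _
      rw [Module.End.mul_eq_comp, ← Matrix.toLin'_mul, h2]
    have h2 := LinearMap.IsIdempotentElem.eq_zero_of_trace_eq_zero h1 (by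
      rw [Matrix.trace_toLin'_eq]; exact he0)
    exact (LinearEquiv.map_eq_zero_iff _).mp h2
  refine ⟨m, ?_⟩
  have h5 : x ^ m = x ^ m * e := by
    have h6 := hj (m + 1)
    calc x ^ m = x ^ (m + (m + 1)) * y ^ (m + 1) := h6.symm
      _ = x ^ m * e := by simp only [e]; ring
  have h7 := congrArg Subtype.val h5
  change X ^ m = X ^ m * (e : Matrix (Fin n) (Fin n) K) at h7
  rw [h7, hE, mul_zero]

private theorem P3_nil [CharZero L] (M : Matrix (Fin n) (Fin n) L) (h : ∀ k : ℕ, 1 ≤ k → (M ^ k).trace = 0) :
    IsNilpotent M := P3_nil0 M h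

private theorem P3_main [IsAlgClosed K] [CharZero K] (Z : Matrix (Fin n) (Fin n) L)
    (htr : ∀ b : ℕ, ∃ t : K, (Z ^ b).trace = algebraMap K L t) :
    ∃ f : K[X], f ≠ 0 ∧ aeval Z (f.map (algebraMap K L)) = 0 := by
  classical
  have hL : CharZero L := charZero_of_injective_algebraMap (algebraMap K L).injective
  choose t ht using htr
  -- Cayley-Hamilton: high powers are combinations of low ones
  let N := n + 1
  let G : Matrix (Fin N) (Fin N) K := Matrix.of fun b a => t (b + a)
  have hch : ∑ b : Fin N, Z.charpoly.coeff b • Z ^ (b : ℕ) = 0 := by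
    have h1 := Matrix.aeval_self_charpoly Z
    rw [aeval_eq_sum_range' (n := N) (by rw [Matrix.charpoly_natDegree_eq_dim]; simp [N])] at h1
    rw [← h1, Finset.sum_range]
  have hdet : G.det = 0 := by
    apply (algebraMap K L).injective
    rw [map_zero, RingHom.map_det, ← Matrix.exists_vecMul_eq_zero_iff]
    refine ⟨fun b => Z.charpoly.coeff b, ?_, ?_⟩
    · intro h0
      have h1 := congrFun h0 (Fin.last n)
      have h2 : Z.charpoly.coeff n = 1 := by
        have h3 := Matrix.charpoly_monic Z
        rw [Monic, leadingCoeff, Matrix.charpoly_natDegree_eq_dim, Fintype.card_fin] at h3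
        exact h3
      simp only [Fin.val_last, Pi.zero_apply] at h1
      rw [h2] at h1
      exact one_ne_zero h1
    · funext a
      rw [Matrix.vecMul, dotProduct, Pi.zero_apply]
      have h1 : ∀ b : Fin N, Z.charpoly.coeff b * (RingHom.mapMatrix (algebraMap K L) G) b a =
          (Z.charpoly.coeff b • Z ^ (b : ℕ) * Z ^ (a : ℕ)).trace := by
        intro b
        rw [RingHom.mapMatrix_apply, Matrix.map_apply]
        change _ * algebraMap K L (t (b + a)) = _
        rw [← ht, smul_mul_assoc, Matrix.trace_smul, ← pow_add, smul_eq_mul]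
      rw [Finset.sum_congr rfl fun b _ => h1 b, ← Matrix.trace_sum, ← Finset.sum_mul, hch, zero_mul,
        Matrix.trace_zero]
  obtain ⟨c, hc0, hc⟩ := Matrix.exists_vecMul_eq_zero_iff.2 hdet
  let f : K[X] := ∑ b : Fin N, C (c b) * X ^ (b : ℕ)
  have hfc : ∀ b : Fin N, f.coeff b = c b := by
    intro b
    simp only [f, finsetSum_coeff, coeff_C_mul, coeff_X_pow]
    rw [Finset.sum_eq_single b]
    · simp
    · intro b' _ hb'
      have : (b : ℕ) ≠ b' := fun h => hb' (Fin.ext h.symm)
      simp [this]
    · simp
  have hf0 : f ≠ 0 := by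
    intro h
    apply hc0
    funext b
    rw [← hfc, h, coeff_zero, Pi.zero_apply]
  set Y := aeval Z (f.map (algebraMap K L)) with hY
  have hYe : Y = ∑ b : Fin N, algebraMap K L (c b) • Z ^ (b : ℕ) := by
    simp only [hY, f, Polynomial.map_sum, Polynomial.map_mul, map_C, Polynomial.map_pow, map_X,
      map_sum, map_mul, aeval_C, map_pow, aeval_X, Algebra.smul_def]
  have h1 : ∀ a : Fin N, (Y * Z ^ (a : ℕ)).trace = 0 := by
    intro a
    have h2 := congrFun hc a
    rw [Matrix.vecMul, dotProduct, Pi.zero_apply] at h2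
    rw [hYe, Finset.sum_mul, Matrix.trace_sum]
    rw [← (algebraMap K L).map_zero, ← h2, map_sum]
    refine Finset.sum_congr rfl fun b _ => ?_
    rw [smul_mul_assoc, Matrix.trace_smul, ← pow_add, ht, smul_eq_mul, map_mul]
    rfl
  have h2 : ∀ P : L[X], (Y * aeval Z P).trace = 0 := by
    intro P
    have h3 : aeval Z P = aeval Z (P %ₘ Z.charpoly) := by
      conv_lhs => rw [← modByMonic_add_div P Z.charpoly]
      rw [map_add, map_mul, Matrix.aeval_self_charpoly, zero_mul, add_zero]
    rw [h3]
    by_cases hn : n = 0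
    · subst hn
      exact Finset.sum_empty
    have h4 : (P %ₘ Z.charpoly).natDegree < N := by
      have h5 := natDegree_modByMonic_lt P (Matrix.charpoly_monic Z) (by
        intro h
        have h6 := congrArg natDegree h
        rw [Matrix.charpoly_natDegree_eq_dim, Fintype.card_fin, natDegree_one] at h6
        exact hn h6)
      rw [Matrix.charpoly_natDegree_eq_dim, Fintype.card_fin] at h5
      omega
    rw [aeval_eq_sum_range' h4, Finset.mul_sum, Matrix.trace_sum, Finset.sum_range]
    refine Finset.sum_eq_zero fun a _ => ?_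
    rw [mul_smul_comm, Matrix.trace_smul, h1, smul_zero]
  have h3 : IsNilpotent Y := by
    refine P3_nil Y fun k hk => ?_
    obtain ⟨j, rfl⟩ := Nat.exists_eq_add_of_le' hk
    rw [pow_succ', hY, ← map_pow]
    exact h2 _
  obtain ⟨k, hk⟩ := h3
  refine ⟨f ^ k, pow_ne_zero k hf0, ?_⟩
  rw [Polynomial.map_pow, map_pow]
  exact hk

/-- Let `q` be an idempotent matrix over `L` commuting with `Y`, such that `trace (q * Y ^ b) ∈ K` for all `b ≥ 1` and
`K` is algebraically closed of characteristic zero. Then there is a product `P` of linear factors over `K` with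
`q * P(Y) = 0`.
Proof: `Z = q * Y = Y * q`, `Z ^ b = q * Y ^ b` for `b ≥ 1`. All power sums of the eigenvalues of `Z` (roots of the
characteristic polynomial in an algebraic closure of `L`) are in `K`, by Newton's identities (characteristic `0`) the
characteristic polynomial of `Z` has coefficients in `K`; it splits over `K`: it is `P.map (algebraMap K L)` with
`P = ∏ (X - α i)`. Cayley-Hamilton: `P(Z) = 0`, and `q * P(Z) = q * P(Y)`.
(Another way to see that the characteristic polynomial splits over `K`: let `N` be a matrix over `K`... or work with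
the functional `u b = trace (q * Y ^ b)`, `b ≥ 1`: it satisfies a linear recurrence over `L`, so, being
`K`-valued, one over `K` (the dimension of the span of the shifts does not change under field extension): there is a monic
`P₀ ∈ K[X]` with `∑ a, coeff P₀ a * u (b + a) = 0` for all `b ≥ 1`; then `trace ((q Y P₀(Y)) ^ k) = 0` for all `k ≥ 1`, so `q Y P₀(Y)` is
nilpotent, and a power of `X * P₀` does the job; `K` is algebraically closed.) -/
theorem exists_poly_of_trace [IsAlgClosed K] [CharZero K] (q Y : Matrix (Fin n) (Fin n) L)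
    (hq : q * q = q) (hqY : q * Y = Y * q)
    (htr : ∀ b : ℕ, 1 ≤ b → ∃ t : K, (q * Y ^ b).trace = algebraMap K L t) :
    ∃ s : Multiset K, q * aeval Y ((s.map fun α => X - C α).prod.map (algebraMap K L)) = 0 := by
  classical
  have hL : CharZero L := charZero_of_injective_algebraMap (algebraMap K L).injective
  have hZp : ∀ b : ℕ, 1 ≤ b → (q * Y) ^ b = q * Y ^ b := by
    intro b hb
    induction b, hb using Nat.le_induction with
    | base => rw [pow_one, pow_one]
    | succ b _ ih =>
      rw [pow_succ, ih, pow_succ]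
      have hc : Commute q (Y ^ b) := (show Commute q Y from hqY).pow_right b
      calc q * Y ^ b * (q * Y) = q * (Y ^ b * q) * Y := by simp only [mul_assoc]
        _ = q * (q * Y ^ b) * Y := by rw [hc.eq]
        _ = q * q * (Y ^ b * Y) := by simp only [mul_assoc]
        _ = q * (Y ^ b * Y) := by rw [hq]
  obtain ⟨f, hf0, hf⟩ := P3_main (K := K) (q * Y) (fun b => by
    rcases Nat.eq_zero_or_pos b with rfl | hb
    · exact ⟨(n : K), by rw [pow_zero, Matrix.trace_one, Fintype.card_fin, map_natCast]⟩
    · rw [hZp b hb]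
      exact htr b hb)
  have hqP : ∀ P : L[X], q * aeval Y P = q * aeval (q * Y) P := by
    intro P
    induction P using Polynomial.induction_on' with
    | add P Q hP hQ => rw [map_add, map_add, mul_add, mul_add, hP, hQ]
    | monomial k a =>
      rw [aeval_monomial, aeval_monomial, Algebra.algebraMap_eq_smul_one, smul_one_mul,
        smul_one_mul, mul_smul_comm, mul_smul_comm]
      rcases Nat.eq_zero_or_pos k with rfl | hk
      · rw [pow_zero, pow_zero]
      · rw [hZp k hk, ← mul_assoc q q, hq]
  refine ⟨f.roots, ?_⟩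
  have h1 : C f.leadingCoeff * (f.roots.map fun α => X - C α).prod = f :=
    C_leadingCoeff_mul_prod_multiset_X_sub_C IsAlgClosed.card_roots_eq_natDegree
  have h2 : q * aeval Y (f.map (algebraMap K L)) = 0 := by
    rw [hqP, hf, mul_zero]
  rw [← h1, Polynomial.map_mul, map_mul, map_C, aeval_C, Algebra.algebraMap_eq_smul_one,
    smul_one_mul, mul_smul_comm] at h2
  refine (smul_eq_zero.1 h2).resolve_left ?_
  refine fun h0 => ?_
  rw [map_eq_zero] at h0
  exact leadingCoeff_ne_zero.2 hf0 h0

end Pool.Agent.Lib.MP_666dc0_nt.LV
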