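import Pool.Agent.Lib.MP_666dc0_nt.LD.ECDefs
import Pool.Agent.Lib.MP_666dc0_nt.LV.P1
import Pool.Agent.Lib.MP_666dc0_nt.LV.P3

open Polynomial

namespace Pool.Agent.Lib.MP_666dc0_nt.LV

open Pool.Agent.Lib.MP_666dc0_nt.IG

variable {K L : Type} [Field K] [Field L] [Algebra K L] {n : ℕ}

private theorem P4_comm {q Y : Matrix (Fin n) (Fin n) L} (h : q * Y = Y * q) (p : L[X]) :
    q * aeval Y p = aeval Y p * q := by
  induction p using Polynomial.induction_on with
  | C a => rw [aeval_C]; exact (Algebra.commutes a q).symm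
  | add p r hp hr => rw [map_add, mul_add, add_mul, hp, hr]
  | monomial k a hk =>
    have e : (C a * X ^ (k + 1) : L[X]) = (C a * X ^ k) * X := by ring
    rw [e, map_mul, aeval_X, ← mul_assoc, hk, mul_assoc, h, mul_assoc]

/-- the product of the linear factors `X - α c ^ i` -/
private noncomputable def P4_R (c : L) (i : ℤ) (s : Multiset K) : L[X] :=
  (s.map fun α => X - C (algebraMap K L α * c ^ i)).prod

private theorem P4_scale {c : L} (hc : c ≠ 0) (i : ℤ) (Y : Matrix (Fin n) (Fin n) L)
    (s : Multiset K) :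
    aeval Y (P4_R c i s) = (c ^ i) ^ s.card •
      aeval (c ^ (-i) • Y) ((s.map fun α => X - C α).prod.map (algebraMap K L)) := by
  induction s using Multiset.induction_on with
  | empty => simp [P4_R]
  | cons α s ih =>
    have h1 : P4_R c i (α ::ₘ s) = (X - C (algebraMap K L α * c ^ i)) * P4_R c i s := by
      simp [P4_R]
    have h2 : (((α ::ₘ s).map fun α => X - C α).prod.map (algebraMap K L) : L[X]) =
        (X - C (algebraMap K L α)) * ((s.map fun α => X - C α).prod.map (algebraMap K L)) := by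
      simp
    have h3 : aeval Y (X - C (algebraMap K L α * c ^ i)) =
        c ^ i • aeval (c ^ (-i) • Y) (X - C (algebraMap K L α)) := by
      rw [map_sub, map_sub, aeval_X, aeval_X, aeval_C, aeval_C, smul_sub, smul_smul, zpow_neg,
        mul_inv_cancel₀ (zpow_ne_zero i hc), one_smul, mul_comm (algebraMap K L α), map_mul,
        ← Algebra.smul_def]
    rw [h1, h2, map_mul (aeval Y), map_mul (aeval (c ^ (-i) • Y)), h3, ih, Multiset.card_cons,
      pow_succ, smul_mul_smul_comm, mul_comm (c ^ i)]

private theorem P4_drop (c : L) (i : ℤ) {Y Y' : Matrix (Fin n) (Fin n) L} (hY : Y * Y' = 1)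
    (s : Multiset K) : ∀ M : Matrix (Fin n) (Fin n) L, M * aeval Y (P4_R c i s) = 0 →
      ∃ s' : Multiset K, (0 : K) ∉ s' ∧ M * aeval Y (P4_R c i s') = 0 := by
  induction s using Multiset.induction_on with
  | empty => exact fun M hM => ⟨0, by simp, hM⟩
  | cons α s ih =>
    intro M hM
    have h1 : P4_R c i (α ::ₘ s) = (X - C (algebraMap K L α * c ^ i)) * P4_R c i s := by
      simp [P4_R]
    rw [h1, map_mul, ← mul_assoc] at hM
    obtain ⟨s', h0, hs'⟩ := ih _ hM
    by_cases hα : α = 0
    · refine ⟨s', h0, ?_⟩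
      rw [hα, map_zero, zero_mul, map_zero, sub_zero, aeval_X, mul_assoc,
        P4_comm (rfl : Y * Y = Y * Y)] at hs'
      calc M * aeval Y (P4_R c i s') = M * (aeval Y (P4_R c i s') * Y) * Y' := by
            rw [mul_assoc M, mul_assoc (aeval Y _), hY, mul_one]
        _ = 0 := by rw [hs', zero_mul]
    · refine ⟨α ::ₘ s', ?_, ?_⟩
      · rw [Multiset.mem_cons]
        rintro (h | h)
        · exact hα h.symm
        · exact h0 h
      · have h2 : P4_R c i (α ::ₘ s') = (X - C (algebraMap K L α * c ^ i)) * P4_R c i s' := by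
          simp [P4_R]
        rw [h2, map_mul, ← mul_assoc]
        exact hs'

/-- Two systems of projectors given by the exponents of the eigenvalues of `Y` agree. `q l` and `q' l`
(`l ∈ J`) are systems of projectors commuting with the invertible matrix `Y`;
`trace (q i * Y ^ b) ∈ K c ^ (i b)` for `b ≥ 1`; and `q' i` is killed by a product of `Y - α c ^ i`, `α ∈ Λ`, `0 ∉ Λ`. Then `q i = q' i`.
Proof: by `exists_poly_of_trace` for `c ^ (-i) • Y`, `q i` is killed by a product of factors `Y - α c ^ i`, `α ∈ K` (a multiset `s`); the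
factors with `α = 0` can be dropped since `Y` is invertible. For `i ≠ j` the polynomials killing `q i` and `q' j` are
coprime (`types_of_transcendental`: no common roots, products of linear factors), `A P + B Q = 1`, so
`q i * q' j = (A P + B Q)(Y) * q i * q' j = 0` (everything commutes with `Y`). Hence `q i = q i * ∑ j, q' j = q i * q' i`, and
`q' i = (∑ j, q j) * q' i = q i * q' i`. -/
theorem proj_unique [IsAlgClosed K] [CharZero K] {c : L} (hc : Transcendental K c)
    {J : Finset ℤ} {q q' : ℤ → Matrix (Fin n) (Fin n) L} (hq : LD.Proj J q) (hq' : LD.Proj J q')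
    (Y Y' : Matrix (Fin n) (Fin n) L) (hYY' : Y * Y' = 1)
    (hqY : ∀ l ∈ J, q l * Y = Y * q l) (hqY' : ∀ l ∈ J, q' l * Y = Y * q' l)
    (htr : ∀ i ∈ J, ∀ b : ℕ, 1 ≤ b → ∃ t : K, (q i * Y ^ b).trace =
      algebraMap K L t * c ^ (i * (b : ℤ)))
    (Λ : Finset K) (h0 : (0 : K) ∉ Λ)
    (hΛ : ∀ i ∈ J, q' i * aeval Y (∏ α ∈ Λ, (X - C (algebraMap K L α * c ^ i))) = 0) :
    ∀ i ∈ J, q i = q' i := by
  have hc0 : c ≠ 0 := by
    rintro rfl
    exact hc ⟨X, X_ne_zero, by simp⟩
  have hs : ∀ i ∈ J, ∃ s : Multiset K, (0 : K) ∉ s ∧ q i * aeval Y (P4_R c i s) = 0 := by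
    intro i hi
    have hcomm : q i * (c ^ (-i) • Y) = (c ^ (-i) • Y) * q i := by
      rw [mul_smul_comm, hqY i hi, smul_mul_assoc]
    obtain ⟨s, hs⟩ := exists_poly_of_trace (K := K) (q i) (c ^ (-i) • Y) (hq.idem i hi) hcomm (by
      intro b hb
      obtain ⟨t, ht⟩ := htr i hi b hb
      refine ⟨t, ?_⟩
      rw [_root_.smul_pow, mul_smul_comm, Matrix.trace_smul, ht, smul_eq_mul, zpow_neg, inv_pow,
        zpow_mul, zpow_natCast, mul_comm (algebraMap K L t), ← mul_assoc,
        inv_mul_cancel₀ (pow_ne_zero b (zpow_ne_zero i hc0)), one_mul])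
    refine P4_drop c i hYY' s (q i) ?_
    rw [P4_scale hc0, mul_smul_comm, hs, smul_zero]
  have hzero : ∀ i ∈ J, ∀ j ∈ J, i ≠ j → q i * q' j = 0 := by
    intro i hi j hj hij
    obtain ⟨s, h0s, hs⟩ := hs i hi
    have hcop : IsCoprime (P4_R c i s) (∏ α ∈ Λ, (X - C (algebraMap K L α * c ^ j))) := by
      refine IsCoprime.prod_right fun β hβ => ?_
      unfold P4_R
      have haux : ∀ u : Multiset K, (0 : K) ∉ u →
          IsCoprime ((u.map fun α => X - C (algebraMap K L α * c ^ i)).prod)
            (X - C (algebraMap K L β * c ^ j)) := by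
        intro u
        induction u using Multiset.induction_on with
        | empty => intro _; simpa using isCoprime_one_left
        | cons α u ih =>
          intro hu
          rw [Multiset.mem_cons, not_or] at hu
          rw [Multiset.map_cons, Multiset.prod_cons]
          refine IsCoprime.mul_left ?_ (ih hu.2)
          apply isCoprime_X_sub_C_of_isUnit_sub
          rw [isUnit_iff_ne_zero, sub_ne_zero]
          intro h
          exact hij (types_of_transcendental hc α β i j (fun h => hu.1 h.symm)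
            (fun h => h0 (h ▸ hβ)) h)
      exact haux s h0s
    obtain ⟨A, B, hAB⟩ := hcop
    have h1 : aeval Y (A * P4_R c i s) + aeval Y (B * ∏ α ∈ Λ, (X - C (algebraMap K L α * c ^ j)))
        = (1 : Matrix (Fin n) (Fin n) L) := by
      rw [← map_add, hAB, map_one]
    have h2 : q i * aeval Y (A * P4_R c i s) = 0 := by
      rw [mul_comm A, map_mul, ← mul_assoc, hs, zero_mul]
    have h3 : aeval Y (B * ∏ α ∈ Λ, (X - C (algebraMap K L α * c ^ j))) * q' j = 0 := by
      rw [← P4_comm (hqY' j hj), mul_comm B, map_mul, ← mul_assoc, hΛ j hj, zero_mul]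
    calc q i * q' j = q i * 1 * q' j := by rw [mul_one]
      _ = q i * aeval Y (A * P4_R c i s) * q' j +
          q i * (aeval Y (B * ∏ α ∈ Λ, (X - C (algebraMap K L α * c ^ j))) * q' j) := by
        rw [← h1, mul_add, add_mul, mul_assoc (q i) (aeval Y (B * _)) (q' j)]
      _ = 0 := by rw [h2, h3, zero_mul, mul_zero, add_zero]
  intro i hi
  have h1 : q i = q i * q' i := by
    calc q i = q i * ∑ j ∈ J, q' j := by rw [hq'.sum_eq, mul_one]
      _ = ∑ j ∈ J, q i * q' j := Finset.mul_sum _ _ _
      _ = q i * q' i := Finset.sum_eq_single i (fun j hj hji => hzero i hi j hj (Ne.symm hji))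
          (fun h => absurd hi h)
  have h2 : q' i = q i * q' i := by
    calc q' i = (∑ j ∈ J, q j) * q' i := by rw [hq.sum_eq, one_mul]
      _ = ∑ j ∈ J, q j * q' i := Finset.sum_mul _ _ _
      _ = q i * q' i := Finset.sum_eq_single i (fun j hj hji => hzero j hj i hi hji)
          (fun h => absurd hi h)
  rw [h2, ← h1]

end Pool.Agent.Lib.MP_666dc0_nt.LV
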