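import Pool.Agent.Lib.MP_666dc0_nt.Mg.G044
import Pool.Agent.Lib.MP_666dc0_nt.Mg.G043
import Pool.Agent.Lib.MP_666dc0_nt.IG.J14b
import Pool.Agent.Lib.MP_666dc0_nt.LV.Faith
import Pool.Agent.Lib.MP_666dc0_nt.LV.H0

/-!
# Semisimple representatives
-/

open Polynomial

namespace Pool.Agent.Lib.MP_666dc0_nt.LV

open Pool.Agent.Lib.MP_666dc0_nt.IG

/-- Powers of unipotent elements are unipotent. -/
theorem isNilpotent_zpow_sub_one {R : Type*} [Ring R] (w : Rˣ) (h : IsNilpotent ((w : R) - 1))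
    (k : ℤ) : IsNilpotent (((w ^ k : Rˣ) : R) - 1) := by
  have hnat : ∀ k : ℕ, IsNilpotent (((w ^ k : Rˣ) : R) - 1) := by
    intro k
    induction k with
    | zero => simp
    | succ k ih =>
      have h1 : ((w ^ (k + 1) : Rˣ) : R) - 1 =
          (((w ^ k : Rˣ) : R) - 1) + ((w ^ k : Rˣ) : R) * ((w : R) - 1) := by
        rw [pow_succ, Units.val_mul]
        noncomm_ring
      have hc : Commute ((w ^ k : Rˣ) : R) (w : R) := by
        rw [Units.val_pow_eq_pow_val]
        exact (Commute.refl _).pow_left k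
      rw [h1]
      refine Commute.isNilpotent_add ?_ ih ?_
      · have h2 : Commute ((w ^ k : Rˣ) : R) ((w : R) - 1) := hc.sub_right (Commute.one_right _)
        have h3 : Commute ((w ^ k : Rˣ) : R) (((w ^ k : Rˣ) : R) * ((w : R) - 1)) :=
          (Commute.refl _).mul_right h2
        exact h3.sub_left (Commute.one_left _)
      · exact (hc.sub_right (Commute.one_right _)).isNilpotent_mul_left h
  obtain ⟨j, rfl | rfl⟩ := k.eq_nat_or_neg
  · rw [zpow_natCast]
    exact hnat j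
  · rw [zpow_neg, zpow_natCast]
    have h1 : (((w ^ j)⁻¹ : Rˣ) : R) - 1 = -((((w ^ j)⁻¹ : Rˣ) : R) * (((w ^ j : Rˣ) : R) - 1)) := by
      rw [mul_sub, Units.inv_mul, mul_one]
      abel
    rw [h1]
    refine IsNilpotent.neg ?_
    have hc : Commute (((w ^ j)⁻¹ : Rˣ) : R) ((w ^ j : Rˣ) : R) := by
      rw [Commute, SemiconjBy, Units.inv_mul, Units.mul_inv]
    exact (hc.sub_right (Commute.one_right _)).isNilpotent_mul_left (hnat j)

/-- Jordan decomposition: an invertible matrix has the same traces of powers as a semisimple one. -/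
theorem exists_ss_matrix {K : Type} [Field K] [PerfectField K] {n : ℕ}
    (M : (Matrix (Fin n) (Fin n) K)ˣ) :
    ∃ s : (Matrix (Fin n) (Fin n) K)ˣ, (∃ p : K[X], Squarefree p ∧
      aeval (s : Matrix (Fin n) (Fin n) K) p = 0) ∧
      ∀ k : ℤ, ((s ^ k : (Matrix (Fin n) (Fin n) K)ˣ) : Matrix (Fin n) (Fin n) K).trace =
        ((M ^ k : (Matrix (Fin n) (Fin n) K)ˣ) : Matrix (Fin n) (Fin n) K).trace := by
  classical
  let T : Matrix (Fin n) (Fin n) K ≃ₐ[K] Module.End K (Fin n → K) := Matrix.toLinAlgEquiv'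
  obtain ⟨nf, hn, sf, hs, hnil, hss, hsum⟩ :=
    Module.End.exists_isNilpotent_isSemisimple (f := T (M : Matrix (Fin n) (Fin n) K))
  set N : Matrix (Fin n) (Fin n) K := T.symm nf with hN
  set Sm : Matrix (Fin n) (Fin n) K := T.symm sf with hSm
  have hNnil : IsNilpotent N := hnil.map T.symm
  have hsum' : (M : Matrix (Fin n) (Fin n) K) = N + Sm := by
    have h1 := congrArg T.symm hsum
    rwa [AlgEquiv.symm_apply_apply, map_add] at h1
  have hMN : Commute (M : Matrix (Fin n) (Fin n) K) N := by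
    have h1 : Commute (T (M : Matrix (Fin n) (Fin n) K)) nf :=
      Algebra.commute_of_mem_adjoin_self hn
    have h2 := h1.map (T.symm : Module.End K (Fin n → K) →* Matrix (Fin n) (Fin n) K)
    change Commute (T.symm (T (M : Matrix (Fin n) (Fin n) K))) N at h2
    rwa [AlgEquiv.symm_apply_apply] at h2
  have hS' : Sm = (M : Matrix (Fin n) (Fin n) K) + -N := by rw [hsum']; abel
  have hSunit : IsUnit Sm := by
    rw [hS']
    exact (hNnil.neg).isUnit_add_left_of_commute M.isUnit hMN.symm.neg_left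
  have hSN : Commute Sm N := by
    rw [hS']
    exact hMN.add_left (Commute.refl N).neg_left
  obtain ⟨s, hsS⟩ := hSunit
  have hcs : Commute (((s⁻¹ : (Matrix (Fin n) (Fin n) K)ˣ)) : Matrix (Fin n) (Fin n) K) N := by
    have h1 : Commute (s : Matrix (Fin n) (Fin n) K) N := by rw [hsS]; exact hSN
    exact h1.units_inv_left
  have hw : IsNilpotent (((s⁻¹ * M : (Matrix (Fin n) (Fin n) K)ˣ) : Matrix (Fin n) (Fin n) K) - 1) := by
    have h1 : ((s⁻¹ * M : (Matrix (Fin n) (Fin n) K)ˣ) : Matrix (Fin n) (Fin n) K) - 1 =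
        ((s⁻¹ : (Matrix (Fin n) (Fin n) K)ˣ) : Matrix (Fin n) (Fin n) K) * N := by
      rw [Units.val_mul, hsum', ← hsS, mul_add, Units.inv_mul]
      abel
    rw [h1]
    exact hcs.isNilpotent_mul_left hNnil
  have hcMs : Commute s M := by
    ext1
    change (s : Matrix (Fin n) (Fin n) K) * M = M * s
    rw [hsS, hS']
    exact ((Commute.refl _).add_left hMN.symm.neg_left)
  have hcw : Commute s (s⁻¹ * M) := (Commute.refl s).inv_right.mul_right hcMs
  refine ⟨s, ⟨minpoly K sf, hss.minpoly_squarefree, ?_⟩, fun k => ?_⟩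
  · have h1 : T (s : Matrix (Fin n) (Fin n) K) = sf := by
      rw [hsS, hSm, AlgEquiv.apply_symm_apply]
    apply T.injective
    rw [map_zero, ← AlgEquiv.coe_toAlgHom, ← Polynomial.aeval_algHom_apply]
    change aeval (T (s : Matrix (Fin n) (Fin n) K)) (minpoly K sf) = 0
    rw [h1]
    exact minpoly.aeval K sf
  · have h1 : M ^ k = s ^ k * (s⁻¹ * M) ^ k := by
      rw [← hcw.mul_zpow, mul_inv_cancel_left]
    have h2 := isNilpotent_zpow_sub_one _ hw k
    have h3 : Commute ((s ^ k : (Matrix (Fin n) (Fin n) K)ˣ) : Matrix (Fin n) (Fin n) K)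
        ((((s⁻¹ * M) ^ k : (Matrix (Fin n) (Fin n) K)ˣ) : Matrix (Fin n) (Fin n) K) - 1) := by
      refine Commute.sub_right ?_ (Commute.one_right _)
      have h4 : Commute (s ^ k) ((s⁻¹ * M) ^ k) := hcw.zpow_zpow k k
      exact congrArg Units.val h4.eq
    have h5 := (Matrix.isNilpotent_trace_of_isNilpotent (h3.isNilpotent_mul_left h2)).eq_zero
    rw [mul_sub, mul_one, Matrix.trace_sub, ← Units.val_mul, ← h1, sub_eq_zero] at h5
    exact h5.symm

section

variable {O : Type} [CommRing O] [HopfAlgebra ℚ O] {Γ : Type} [Group Γ]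

/-- The action of the infinite cyclic group through an element of `Γ`. -/
def zact (A : HopfAction Γ O) (σ : Γ) : HopfAction (Multiplicative ℤ) O where
  act := A.act.comp (zpowersHom Γ σ)
  comul_act := fun _ f => A.comul_act _ f
  counit_act := fun _ f => A.counit_act _ f

theorem zact_gen (A : HopfAction Γ O) (σ : Γ) :
    (zact A σ).act (Multiplicative.ofAdd 1) = A.act σ := by
  change A.act (zpowersHom Γ σ (Multiplicative.ofAdd 1)) = A.act σ
  simp

/-- Every class contains a semisimple element. -/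
theorem exists_semisimple [Algebra.FiniteType ℚ O] (hO : LinearlyReductive O) (A : HopfAction Γ O)
    (hfin : (Set.range A.act).Finite) {K : Type} [Field K] [IsAlgClosed K] [CharZero K]
    [Algebra ℚ K] (σ : Γ) (m : Pts O K) :
    ∃ m' : Pts O K, A.IsSemisimpleElt (⟨m', σ⟩ : A.LGroup K) ∧
      ∀ f ∈ A.inv σ, m'.hom f = m.hom f := by
  classical
  let A0 := zact A σ
  let g : Multiplicative ℤ := Multiplicative.ofAdd 1
  have hg : A0.act g = A.act σ := zact_gen A σ
  have hfin0 : (Set.range A0.act).Finite := by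
    refine hfin.subset ?_
    rintro _ ⟨γ, rfl⟩
    exact ⟨_, rfl⟩
  have hst : ∀ Φ : Set O, Φ.Finite → ∃ Φ' : Set O, Φ'.Finite ∧ Φ ⊆ Φ' ∧
      ∀ γ, ∀ f ∈ Φ', A0.act γ f ∈ Φ' := fun Φ hΦ => exists_stable_of_finite hfin0 Φ hΦ
  -- a faithful representation
  obtain ⟨n, ρ, hρ⟩ : ∃ (n : ℕ) (ρ : MatRep A0 n), Faithful ρ := by
    obtain ⟨Φ₀, hΦ₀⟩ := (Algebra.FiniteType.out : (⊤ : Subalgebra ℚ O).FG)
    obtain ⟨Φ, hΦfin, hΦ₀Φ, hΦst⟩ := hst Φ₀ Φ₀.finite_toSet
    obtain ⟨n, ρ, hρ⟩ := exists_matRep A0 hΦfin hΦst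
    refine ⟨n, ρ, ?_⟩
    rw [Faithful, eq_top_iff, ← hΦ₀, Algebra.adjoin_le_iff]
    intro f hf
    have h1 := hρ f (hΦ₀Φ hf)
    have h2 : Submodule.span ℚ (Set.range fun ij : Fin n × Fin n => ρ.a ij.1 ij.2) ≤
        Subalgebra.toSubmodule (Algebra.adjoin ℚ ({f | ∃ i j, f = ρ.a i j} ∪
          {f | ∃ i j, f = HopfAlgebra.antipode ℚ (ρ.a i j)})) := by
      rw [Submodule.span_le]
      rintro _ ⟨ij, rfl⟩
      exact Algebra.subset_adjoin (Or.inl ⟨_, _, rfl⟩)
    exact h2 h1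
  obtain ⟨G, hG⟩ := exists_redG ρ hO hρ
  obtain ⟨TD⟩ := exists_tensorData G
  -- the homomorphism
  let r0 : Multiplicative ℤ →* A0.LGroup K := zpowersHom (A0.LGroup K) ⟨m, g⟩
  have hr0g : r0 g = (⟨m, g⟩ : A0.LGroup K) := by
    change zpowersHom (A0.LGroup K) ⟨m, g⟩ (Multiplicative.ofAdd 1) = _
    simp
  have hr0 : ∀ γ, (r0 γ).right = γ := by
    have h1 : (SemidirectProduct.rightHom).comp r0 = MonoidHom.id (Multiplicative ℤ) := by
      apply MonoidHom.ext_mint
      change (r0 g).right = g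
      rw [hr0g]
    exact fun γ => congrArg (fun f : Multiplicative ℤ →* Multiplicative ℤ => f γ) h1
  let V : Multiplicative ℤ → O → K := fun γ f => (r0 γ).left.hom f
  obtain ⟨N, e', Gi, r', h1, hmul, hval, hent⟩ := core_gen ρ hG hρ TD hfin0 r0 hr0
    (⊤ : Subalgebra ℚ K) (fun _ _ _ => Algebra.mem_top) ((⊤ : Subalgebra ℚ K).val : _ →+* K) V
    (fun _ _ _ => rfl)
  -- the semisimple representation with the same traces
  let Mu : (Matrix (Fin n) (Fin n) K)ˣ :=
    { val := ρ.ev K (r0 g)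
      inv := ρ.ev K (r0 g)⁻¹
      val_inv := by rw [← map_mul, mul_inv_cancel, map_one]
      inv_val := by rw [← map_mul, inv_mul_cancel, map_one] }
  obtain ⟨s, ⟨p, hp, hsp⟩, hs⟩ := exists_ss_matrix Mu
  let ρ' : Multiplicative ℤ →* Matrix (Fin n) (Fin n) K :=
    (Units.coeHom _).comp (zpowersHom _ s)
  have hρ'g : ρ' g = (s : Matrix (Fin n) (Fin n) K) := by
    change ((zpowersHom _ s (Multiplicative.ofAdd 1) : (Matrix (Fin n) (Fin n) K)ˣ) :
      Matrix (Fin n) (Fin n) K) = _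
    simp
  have hMu : ∀ γ : Multiplicative ℤ, ρ.ev K (r0 γ) =
      ((Mu ^ (Multiplicative.toAdd γ) : (Matrix (Fin n) (Fin n) K)ˣ) :
        Matrix (Fin n) (Fin n) K) := by
    have h2 : (ρ.ev K).comp r0 = (Units.coeHom _).comp (zpowersHom _ Mu) := by
      apply MonoidHom.ext_mint
      change ρ.ev K (r0 g) = ((zpowersHom _ Mu (Multiplicative.ofAdd 1) :
        (Matrix (Fin n) (Fin n) K)ˣ) : Matrix (Fin n) (Fin n) K)
      simp [Mu]
    intro γ
    have h3 := congrArg (fun f : Multiplicative ℤ →* Matrix (Fin n) (Fin n) K => f γ) h2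
    exact h3
  have htr : ∀ γ, (ρ' γ).trace = tf ρ V γ := by
    intro γ
    have h2 : tf ρ V γ = (ρ.ev K (r0 γ)).trace := by
      rw [← ρ.trF_eval, hr0]
      rfl
    rw [h2, hMu, ← hs]
    rfl
  have h4 : aeval (sg ρ V e' Gi g) p = 0 :=
    aeval_sg_eq_zero ρ V e' Gi h1 hmul ρ' htr g (by rw [hρ'g]; exact hsp)
  have h3 : DG (sg ρ V e' Gi g) := by
    refine DG_of_squarefree (M' := sg ρ V e' Gi g⁻¹) ?_ ?_ hp h4
    · rw [← hmul, mul_inv_cancel, h1]
    · rw [← hmul, inv_mul_cancel, h1]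
  have hss : A0.IsSemisimpleElt (r' g) :=
    isSemisimpleElt_of_DG ρ hρ hfin0 hst (sg ρ V e' Gi) h1 hmul r' hval.proj hent h3
  have hgi : A0.act g⁻¹ = A.act σ⁻¹ := by rw [map_inv, map_inv, hg]
  refine ⟨(r' g).left, ?_, ?_⟩
  · have h5 : A.transl (r' g).left σ = A0.transl (r' g).left (r' g).right := by
      rw [hval.proj g]
      unfold HopfAction.transl
      rw [hgi]
    change Module.End.IsSemisimple (A.transl (r' g).left σ)
    rw [h5]
    exact hss
  · intro f hf
    have hf' : f ∈ A0.inv g := by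
      intro R _ _ x y
      have h6 := hf R x y
      have h7 : A0.onPts R g x = A.onPts R σ x := by
        ext f'
        rw [HopfAction.onPts_hom_apply, HopfAction.onPts_hom_apply, hgi]
      rw [h7]
      exact h6
    have h6 := hval.val g f hf'
    rw [h6]
    change (r0 g).left.hom f = m.hom f
    rw [hr0g]

end

end Pool.Agent.Lib.MP_666dc0_nt.LV
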