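import Pool.Agent.Lib.MP_666dc0_nt.LV.P1
import Pool.Agent.Lib.MP_666dc0_nt.LD.EC2

open Polynomial Topology

namespace Pool.Agent.Lib.MP_666dc0_nt.LV

open Pool.Agent.Lib.MP_666dc0_nt.IG

variable {K L : Type} [Field K] [Field L] [Algebra K L] {n : ℕ} {Γ : Type} [Group Γ]

/-- For each `N` there is a polynomial `Q` over `K` with `trace G = ∑ i, Q_i * trace (X ^ (N + i) * G)` for all matrices `G` over `L`
(`LD.exists_inverse_poly` with `DG.exists_Lam`: `Q(X) * X ^ N = 1`, `Q(X) = ∑ Q_i X ^ i`). -/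
theorem exists_coeffs {M : Matrix (Fin n) (Fin n) K} (hM : DG M) (N : ℕ) :
    ∃ (d : ℕ) (Q : ℕ → K), ∀ G : Matrix (Fin n) (Fin n) L, G.trace =
      ∑ i ∈ Finset.range d, algebraMap K L (Q i) * ((M.map (algebraMap K L)) ^ (N + i) * G).trace := by
  obtain ⟨Λ, h0, hX⟩ := DG.exists_Lam hM L
  obtain ⟨Q, hQ⟩ := LD.exists_inverse_poly (M.map (algebraMap K L)) Λ h0 hX N
  refine ⟨(Q.map (algebraMap K L)).natDegree + 1, Q.coeff, fun G => ?_⟩
  have h1 : G = aeval (M.map (algebraMap K L)) (Q.map (algebraMap K L)) *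
      (M.map (algebraMap K L)) ^ N * G := by rw [hQ, one_mul]
  conv_lhs => rw [h1]
  rw [aeval_eq_sum_range, Finset.sum_mul, Finset.sum_mul, Matrix.trace_sum]
  refine Finset.sum_congr rfl fun i _ => ?_
  rw [coeff_map, smul_mul_assoc, smul_mul_assoc, Matrix.trace_smul, smul_eq_mul, ← pow_add,
    add_comm i N]

/-- The trace function `θ`. For `γ : Γ` choose `N` with `D (σ ^ a * γ) ≠ 0` for all `a ≥ N` (`hD0`), `d, Q` from `exists_coeffs`; then
`trace (G γ) = ∑ i < d, Q_i * E (σ ^ (N + i) * γ) / D (σ ^ (N + i) * γ)` is in `K`; this defines `θ γ`. Uniqueness: `θ γ` is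
determined by `hθ` since `K → L` is injective. Continuity at `γ`: with the same `N, d, Q`, the formula holds for all `γ'` with
`D (σ ^ (N + i) * γ') ≠ 0` for `i < d`, a neighbourhood of `γ`, and the right hand side is continuous there
(`ContinuousAt.congr`, `ContinuousAt.div`). Last part: by the formula for `γ` and `γ * u`
(`σ ^ a * (γ * u) = (σ ^ a * γ) * u`). -/
theorem exists_theta [TopologicalSpace Γ] [IsTopologicalGroup Γ] [TopologicalSpace K]
    [IsTopologicalDivisionRing K] [T1Space K] (σ : Γ) {M : Matrix (Fin n) (Fin n) K} (hM : DG M)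
    (G : Γ → Matrix (Fin n) (Fin n) L) (D E : Γ → K) (hD : Continuous D) (hE : Continuous E)
    (hD0 : ∀ γ, {a : ℕ | D (σ ^ a * γ) = 0}.Finite)
    (h : ∀ γ (a : ℕ), algebraMap K L (D (σ ^ a * γ)) * ((M.map (algebraMap K L)) ^ a * G γ).trace =
      algebraMap K L (E (σ ^ a * γ))) :
    ∃ θ : Γ → K, Continuous θ ∧ (∀ γ, algebraMap K L (θ γ) = (G γ).trace) ∧
      ∀ u, (∀ w, D (w * u) = D w ∧ E (w * u) = E w) → ∀ γ, θ (γ * u) = θ γ := by
  have hN : ∀ γ : Γ, ∃ N : ℕ, ∀ a, N ≤ a → D (σ ^ a * γ) ≠ 0 := by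
    intro γ
    obtain ⟨b, hb⟩ := (hD0 γ).bddAbove
    refine ⟨b + 1, fun a ha h0 => ?_⟩
    have := hb (show a ∈ {a : ℕ | D (σ ^ a * γ) = 0} from h0)
    omega
  choose N hN using hN
  choose d Q hQ using fun γ : Γ => exists_coeffs (L := L) hM (N γ)
  set F : Γ → Γ → K := fun γ γ' => ∑ i ∈ Finset.range (d γ), Q γ i *
    (E (σ ^ (N γ + i) * γ') / D (σ ^ (N γ + i) * γ')) with hF
  have key : ∀ γ γ' : Γ, (∀ i ∈ Finset.range (d γ), D (σ ^ (N γ + i) * γ') ≠ 0) →
      algebraMap K L (F γ γ') = (G γ').trace := by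
    intro γ γ' hne
    rw [hQ γ (G γ'), hF]
    simp only [map_sum, map_mul]
    refine Finset.sum_congr rfl fun i hi => ?_
    congr 1
    have h1 := h γ' (N γ + i)
    have h2 : algebraMap K L (D (σ ^ (N γ + i) * γ')) ≠ 0 := by
      intro h3
      exact hne i hi ((map_eq_zero _).1 h3)
    rw [map_div₀, div_eq_iff h2, ← h1, mul_comm]
  have inj := (algebraMap K L).injective
  have self : ∀ γ : Γ, algebraMap K L (F γ γ) = (G γ).trace := fun γ =>
    key γ γ fun i _ => hN γ _ (Nat.le_add_right _ _)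
  refine ⟨fun γ => F γ γ, ?_, self, ?_⟩
  · rw [continuous_iff_continuousAt]
    intro γ
    have hc : ∀ a : ℕ, Continuous fun γ' : Γ => σ ^ a * γ' := fun a => continuous_const_mul _
    have h1 : ContinuousAt (F γ) γ := by
      rw [hF]
      refine tendsto_finsetSum _ fun i _ => ?_
      refine Filter.Tendsto.const_mul _ ?_
      exact (hE.comp (hc _)).continuousAt.div (hD.comp (hc _)).continuousAt
        (hN γ _ (Nat.le_add_right _ _))
    refine h1.congr ?_
    have h2 : ∀ᶠ γ' in 𝓝 γ, ∀ i ∈ Finset.range (d γ), D (σ ^ (N γ + i) * γ') ≠ 0 := by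
      rw [Filter.eventually_all_finset]
      intro i _
      exact (hD.comp (hc (N γ + i))).continuousAt.eventually_ne
        (hN γ _ (Nat.le_add_right _ _))
    filter_upwards [h2] with γ' h3
    exact inj ((key γ γ' h3).trans (self γ').symm)
  · intro u hu γ
    have h1 : ∀ a : ℕ, σ ^ a * (γ * u) = σ ^ a * γ * u := fun a => (mul_assoc _ _ _).symm
    have h2 : F γ (γ * u) = F γ γ := by
      rw [hF]
      simp only [h1, (hu _).1, (hu _).2]
    have h3 := key γ (γ * u) (fun i _ => by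
      rw [h1, (hu _).1]
      exact hN γ _ (Nat.le_add_right _ _))
    show F (γ * u) (γ * u) = F γ γ
    rw [← h2]
    exact inj ((self (γ * u)).trans h3.symm)

end Pool.Agent.Lib.MP_666dc0_nt.LV
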