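import Mathlib

open Polynomial

namespace Pool.Agent.Lib.MP_666dc0_nt.LV

/-- An ultraproduct. The finitely supported functions form an ideal of the ring `Z → K`, which is proper since `Z` is
infinite; let `𝔪` be a maximal ideal containing it (`Ideal.exists_le_maximal`), `K1 = AlgebraicClosure ((Z → K) ⧸ 𝔪)`. If `f` has
only finitely many zeros, `g k = (f k)⁻¹`, then `f * g - 1` is finitely supported, so `θ f * θ g = 1`. -/
theorem exists_ultra (Z K : Type) [Infinite Z] [Field K] :
    ∃ (K1 : Type) (_ : Field K1) (_ : IsAlgClosed K1) (θ : (Z → K) →+* K1),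
      ∀ f : Z → K, {k | f k = 0}.Finite → θ f ≠ 0 := by
  classical
  let I : Ideal (Z → K) :=
    { carrier := {f | {k | f k ≠ 0}.Finite}
      add_mem' := by
        intro a b ha hb
        refine (Set.Finite.union ha hb).subset fun k hk => ?_
        by_contra h
        rw [Set.mem_union, not_or] at h
        have h1 : a k = 0 := not_not.1 h.1
        have h2 : b k = 0 := not_not.1 h.2
        exact hk (by rw [Pi.add_apply, h1, h2, add_zero])
      zero_mem' := by
        have : {k : Z | (0 : Z → K) k ≠ 0} = ∅ := by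
          ext k
          simp
        change ({k : Z | (0 : Z → K) k ≠ 0}).Finite
        rw [this]
        exact Set.finite_empty
      smul_mem' := by
        intro c a ha
        refine Set.Finite.subset ha fun k hk h => ?_
        exact hk (by rw [smul_eq_mul, Pi.mul_apply, h, mul_zero]) }
  have hI : I ≠ ⊤ := by
    rw [Ideal.ne_top_iff_one]
    intro h
    have h1 : ({k : Z | (1 : Z → K) k ≠ 0}).Finite := h
    have h2 : {k : Z | (1 : Z → K) k ≠ 0} = Set.univ := by
      ext k
      simp
    rw [h2] at h1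
    exact Set.infinite_univ h1
  obtain ⟨M, hM, hIM⟩ := Ideal.exists_le_maximal I hI
  let _ : Field ((Z → K) ⧸ M) := Ideal.Quotient.field M
  refine ⟨AlgebraicClosure ((Z → K) ⧸ M), inferInstance, inferInstance,
    (algebraMap ((Z → K) ⧸ M) (AlgebraicClosure ((Z → K) ⧸ M))).comp (Ideal.Quotient.mk M),
    fun f hf h => ?_⟩
  rw [RingHom.comp_apply, map_eq_zero_iff _ (algebraMap ((Z → K) ⧸ M)
    (AlgebraicClosure ((Z → K) ⧸ M))).injective, Ideal.Quotient.eq_zero_iff_mem] at h
  have h1 : f * (fun k => (f k)⁻¹) - 1 ∈ M := by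
    refine hIM (Set.Finite.subset hf fun k hk => ?_)
    by_contra h2
    have h3 : f k ≠ 0 := h2
    exact hk (by rw [Pi.sub_apply, Pi.mul_apply, mul_inv_cancel₀ h3, Pi.one_apply, sub_self])
  have h2 : f * (fun k => (f k)⁻¹) ∈ M := M.mul_mem_right _ h
  have h3 : (1 : Z → K) ∈ M := by
    have := M.sub_mem h2 h1
    rwa [sub_sub_cancel] at this
  exact (Ideal.ne_top_iff_one M).1 hM.ne_top h3

/-- The image of an injective function is transcendental over the constants: `p (θ f) = θ (k ↦ p (f k))` for `p ∈ K[X]`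
(both sides are ring homomorphisms in `p`), and `p (f k) = 0` for finitely many `k` only if `p ≠ 0`. -/
theorem transcendental_ultra {Z K K1 : Type} [Field K] [Field K1] [Algebra K K1]
    (θ : (Z → K) →+* K1) (hθ : ∀ f : Z → K, {k | f k = 0}.Finite → θ f ≠ 0)
    (halg : ∀ x : K, algebraMap K K1 x = θ (fun _ => x)) {f : Z → K} (hf : Function.Injective f) :
    Transcendental K (θ f) := by
  rintro ⟨p, hp, h0⟩
  have h1 : algebraMap K K1 = θ.comp (Pi.constRingHom Z K) := RingHom.ext fun x => halg x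
  have h2 : ∀ k, (p.eval₂ (Pi.constRingHom Z K) f) k = p.eval (f k) := by
    intro k
    have h3 := Polynomial.hom_eval₂ p (Pi.constRingHom Z K) (Pi.evalRingHom (fun _ : Z => K) k) f
    have h4 : (Pi.evalRingHom (fun _ : Z => K) k).comp (Pi.constRingHom Z K) = RingHom.id K := rfl
    rw [h4] at h3
    exact h3
  have h3 : θ (p.eval₂ (Pi.constRingHom Z K) f) = 0 := by
    rw [Polynomial.hom_eval₂, ← h1, ← Polynomial.aeval_def, h0]
  refine hθ _ ?_ h3
  have h4 : {k | (p.eval₂ (Pi.constRingHom Z K) f) k = 0} ⊆ f ⁻¹' {x | p.IsRoot x} := by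
    intro k hk
    have h5 : (p.eval₂ (Pi.constRingHom Z K) f) k = 0 := hk
    rw [h2] at h5
    exact h5
  exact (Set.Finite.preimage hf.injOn (Polynomial.finite_setOfPred_isRoot hp)).subset h4

/-- The units `s γ ^ k`, `k ∈ Z`, give a homomorphism to the units of the ultraproduct. -/
theorem exists_unit_hom {Γ K K1 : Type} [Group Γ] [Field K] [Field K1] {Z : Set ℤ}
    (θ : (Z → K) →+* K1) (s : Γ →* Kˣ) :
    ∃ c : Γ →* K1ˣ, ∀ γ, (c γ : K1) = θ (fun k : Z => ((s γ ^ (k : ℤ) : Kˣ) : K)) :=
  ⟨(Units.map (θ : (Z → K) →* K1)).comp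
    ((MulEquiv.piUnits (M := fun _ : Z => K)).symm.toMonoidHom.comp
      (MonoidHom.pi fun k : Z => (zpowGroupHom (k : ℤ)).comp s)), fun _ => rfl⟩

end Pool.Agent.Lib.MP_666dc0_nt.LV
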