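import Pool.Agent.Lib.MP_666dc0_nt.IG.GA
import Pool.Agent.Lib.MP_666dc0_nt.IG.GB
import Pool.Agent.Lib.MP_666dc0_nt.IG.GC
import Pool.Agent.Lib.MP_666dc0_nt.IG.GCg
import Pool.Agent.Lib.MP_666dc0_nt.IG.GP
import Pool.Agent.Lib.MP_666dc0_nt.IG.J11
import Pool.Agent.Lib.MP_666dc0_nt.Mg.G042
import Pool.Agent.Lib.MP_666dc0_nt.IG.J12
import Pool.Agent.Lib.MP_666dc0_nt.IG.J13
import Pool.Agent.Lib.MP_666dc0_nt.Mg.G043
import Pool.Agent.Lib.MP_666dc0_nt.IG.J14
import Pool.Agent.Lib.MP_666dc0_nt.IG.J14b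
import Pool.Agent.Lib.MP_666dc0_nt.IG.J7
import Pool.Agent.Lib.MP_666dc0_nt.Mg.G046
import Pool.Agent.Lib.MP_666dc0_nt.LD.ECDefs
import Pool.Agent.Lib.MP_666dc0_nt.LV.Faith
import Pool.Agent.Lib.MP_666dc0_nt.LeviDefs

open LaurentPolynomial

namespace Pool.Agent.Lib.MP_666dc0_nt.LV

open Pool.Agent.Lib.MP_666dc0_nt.IG

variable {O O' : Type} [CommRing O] [HopfAlgebra ℚ O] [CommRing O'] [HopfAlgebra ℚ O'] {Γ : Type}
  [Group Γ] {A : HopfAction Γ O} {A' : HopfAction Γ O'} {π : O →ₐc[ℚ] O'}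
  {μ : O →ₐc[ℚ] ℚ[T;T⁻¹]} {n : ℕ}

/-- `J` contains the weights of the cocharacter `μ` in the matrix representation `ρ`, and `p l` is the
projection to the subspace of weight `l`. -/
structure Wts (μ : O →ₐc[ℚ] ℚ[T;T⁻¹]) (ρ : MatRep A n) (J : Finset ℤ)
    (p : ℤ → Matrix (Fin n) (Fin n) ℚ) : Prop where
  gm : ∀ (R : Type) [CommRing R] [Algebra ℚ R] (t : Rˣ),
    ρ.gm (Pts.cochar μ t) = ∑ l ∈ J, ((t ^ l : Rˣ) : R) • (p l).map (algebraMap ℚ R)
  idem : ∀ l ∈ J, ∀ l' ∈ J, p l * p l' = if l = l' then p l else 0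
  sum : ∑ l ∈ J, p l = 1
  comm : ∀ γ, ∀ l ∈ J, p l * ρ.P γ = ρ.P γ * p l

/-- The projection `p l` as a matrix over `R`. -/
noncomputable def pj (R : Type) [CommRing R] [Algebra ℚ R] (p : ℤ → Matrix (Fin n) (Fin n) ℚ)
    (l : ℤ) : Matrix (Fin n) (Fin n) R := (p l).map (algebraMap ℚ R)

private noncomputable def W1_kap (l : ℤ) : ℚ[T;T⁻¹] →ₗ[ℚ] ℚ where
  toFun f := f.coeff l
  map_add' := fun _ _ => rfl
  map_smul' := fun _ _ => rfl

private lemma W1_kap_apply (l : ℤ) (f : ℚ[T;T⁻¹]) : W1_kap l f = f.coeff l := rfl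

private lemma W1_coeff_CT (r : ℚ) (n a : ℤ) :
    (C r * T n : ℚ[T;T⁻¹]).coeff a = if n = a then r else 0 := by
  rw [← LaurentPolynomial.single_eq_C_mul_T, AddMonoidAlgebra.coeff_single, Finsupp.single_apply]

private lemma W1_eq_sum (f : ℚ[T;T⁻¹]) (J : Finset ℤ) (hJ : f.coeff.support ⊆ J) :
    f = ∑ l ∈ J, C (f.coeff l) * T l := by
  apply LaurentPolynomial.ext
  intro a
  rw [AddMonoidAlgebra.coeff_sum, Finsupp.finsetSum_apply]
  simp only [W1_coeff_CT]
  rw [Finset.sum_ite_eq' J a (fun l => f.coeff l)]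
  split_ifs with h
  · rfl
  · by_contra h1
    exact h (hJ (Finsupp.mem_support_iff.mpr h1))

private noncomputable def W1_KK (l l' : ℤ) : TensorProduct ℚ ℚ[T;T⁻¹] ℚ[T;T⁻¹] →ₗ[ℚ] ℚ :=
  (LinearMap.mul' ℚ ℚ) ∘ₗ TensorProduct.map (W1_kap l) (W1_kap l')

private lemma W1_KK_tmul (l l' : ℤ) (x y : ℚ[T;T⁻¹]) :
    W1_KK l l' (TensorProduct.tmul ℚ x y) = x.coeff l * y.coeff l' := by
  rw [W1_KK, LinearMap.comp_apply, TensorProduct.map_tmul, LinearMap.mul'_apply]
  rfl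

private lemma W1_comul (l l' : ℤ) (f : ℚ[T;T⁻¹]) :
    W1_KK l l' (Coalgebra.comul (R := ℚ) f) = if l = l' then f.coeff l else 0 := by
  have hf := W1_eq_sum f f.coeff.support (Finset.Subset.refl _)
  conv_lhs => rw [hf]
  rw [map_sum, map_sum]
  simp only [LaurentPolynomial.comul_C_mul_T_self, W1_KK_tmul, W1_coeff_CT, LaurentPolynomial.T_apply]
  by_cases hl : l = l'
  · subst hl
    rw [if_pos rfl]
    have h1 : ∀ x ∈ f.coeff.support, ((if x = l then (1 : ℚ) else 0) *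
        if x = l then f.coeff x else 0) = if x = l then f.coeff x else 0 := by
      intro x _
      split_ifs <;> simp
    rw [Finset.sum_congr rfl h1, Finset.sum_ite_eq' f.coeff.support l (fun x => f.coeff x)]
    split_ifs with h
    · rfl
    · by_contra h2
      exact h (Finsupp.mem_support_iff.mpr (fun h3 => h2 h3.symm))
  · rw [if_neg hl]
    refine Finset.sum_eq_zero (fun x _ => ?_)
    by_cases h1 : x = l
    · have h2 : x ≠ l' := fun h => hl (h1.symm.trans h)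
      rw [if_neg h2, mul_zero]
    · rw [if_neg h1, zero_mul]

private lemma W1_counit (f : ℚ[T;T⁻¹]) (J : Finset ℤ) (hJ : f.coeff.support ⊆ J) :
    Coalgebra.counit (R := ℚ) f = ∑ l ∈ J, f.coeff l := by
  conv_lhs => rw [W1_eq_sum f J hJ]
  rw [map_sum]
  refine Finset.sum_congr rfl (fun l _ => ?_)
  rw [LaurentPolynomial.counit_C_mul_T]
  rfl

/-- The weight decomposition. `p l i j` is the coefficient of `T ^ l` in the Laurent polynomial `μ (ρ.a i j)`
(`LaurentPolynomial` = `AddMonoidAlgebra ℚ ℤ`, so it is `(μ (ρ.a i j)) l`, a finitely supported function), `J` is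
the union of the finitely many supports. `gm`: `(Pts.cochar μ t).hom (ρ.a i j) = evalUnit t (μ (ρ.a i j))` and
`eval₂` of a Laurent polynomial is `∑ coefficient * t ^ l` (`LaurentPolynomial.eval₂_C_mul_T` and similar lemmas, induction
over sums of monomials). `idem`, `sum`: `μ` is a homomorphism of coalgebras and `ρ.comul_a`, `ρ.counit_a`: the comultiplication
of `ℚ[T;T⁻¹]` maps `T l` to `T l ⊗ T l` (`LaurentPolynomial.comul_T`, counit `T l ↦ 1`), so
`∑ l, p l i j • T l ⊗ T l = ∑ k, (∑ l, p l i k • T l) ⊗ (∑ l', p l' k j • T l')`; compare the coefficients of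
`T l ⊗ T l'`. (An alternative: the identity `ρ.gm (Pts.cochar μ (s * t)) = ρ.gm (Pts.cochar μ s) * ρ.gm (Pts.cochar μ t)`
in a ring with two independent units `s`, `t`, for instance `(ℚ[T;T⁻¹])[T;T⁻¹]` or the group algebra of `ℤ × ℤ`, and
comparison of coefficients.) `comm`: `ρ.act_a γ` and `μ (A.act γ f) = μ f`. -/
theorem exists_wts (hfix : ∀ γ f, μ (A.act γ f) = μ f) (ρ : MatRep A n) :
    ∃ (J : Finset ℤ) (p : ℤ → Matrix (Fin n) (Fin n) ℚ), Wts μ ρ J p := by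
  classical
  let p : ℤ → Matrix (Fin n) (Fin n) ℚ := fun l i j => (μ (ρ.a i j)).coeff l
  let J : Finset ℤ := Finset.univ.biUnion (fun i : Fin n => Finset.univ.biUnion
    (fun j : Fin n => (μ (ρ.a i j)).coeff.support))
  have hJ : ∀ i j, (μ (ρ.a i j)).coeff.support ⊆ J := by
    intro i j x hx
    exact Finset.mem_biUnion.mpr ⟨i, Finset.mem_univ _, Finset.mem_biUnion.mpr
      ⟨j, Finset.mem_univ _, hx⟩⟩
  refine ⟨J, p, ?_, ?_, ?_, ?_⟩
  · intro R _ _ t
    ext i j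
    have h1 : ρ.gm (Pts.cochar μ t) i j = evalUnit t (μ (ρ.a i j)) := rfl
    rw [h1, Matrix.sum_apply]
    conv_lhs => rw [W1_eq_sum (μ (ρ.a i j)) J (hJ i j)]
    rw [map_sum]
    refine Finset.sum_congr rfl (fun l _ => ?_)
    have h2 : evalUnit t (C ((μ (ρ.a i j)).coeff l) * T l : ℚ[T;T⁻¹]) =
        algebraMap ℚ R ((μ (ρ.a i j)).coeff l) * ((t ^ l : Rˣ) : R) :=
      LaurentPolynomial.eval₂_C_mul_T (algebraMap ℚ R) t _ _
    rw [h2, Matrix.smul_apply, Matrix.map_apply, smul_eq_mul, mul_comm]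
  · intro l _ l' _
    ext i j
    have h1 := W1_comul l l' (μ (ρ.a i j))
    rw [← CoalgHomClass.map_comp_comul_apply, ρ.comul_a, map_sum, map_sum] at h1
    simp only [TensorProduct.map_tmul] at h1
    have h2 : (p l * p l') i j = ∑ k, (μ (ρ.a i k)).coeff l * (μ (ρ.a k j)).coeff l' := rfl
    rw [h2]
    have h3 : ∀ k, W1_KK l l' (TensorProduct.tmul ℚ (μ (ρ.a i k)) (μ (ρ.a k j))) =
        (μ (ρ.a i k)).coeff l * (μ (ρ.a k j)).coeff l' := fun k => W1_KK_tmul _ _ _ _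
    rw [← Finset.sum_congr rfl (fun k _ => h3 k)]
    refine h1.trans ?_
    split_ifs <;> rfl
  · ext i j
    rw [Matrix.sum_apply]
    have h1 := W1_counit (μ (ρ.a i j)) J (hJ i j)
    rw [CoalgHomClass.counit_comp_apply] at h1
    rw [Matrix.one_apply, ← ρ.counit_a i j]
    exact h1.symm
  · intro γ l _
    ext i j
    have h1 := congrArg (fun f => W1_kap l (μ f)) (ρ.act_a γ i j)
    simp only [map_sum, map_smul, hfix] at h1
    rw [Matrix.mul_apply, Matrix.mul_apply]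
    have h2 : ∀ k, p l i k * ρ.P γ k j = ρ.P γ k j • W1_kap l (μ (ρ.a i k)) := by
      intro k
      rw [smul_eq_mul, mul_comm]
      rfl
    have h3 : ∀ k, ρ.P γ i k * p l k j = ρ.P γ i k • W1_kap l (μ (ρ.a k j)) := fun k => rfl
    rw [Finset.sum_congr rfl (fun k _ => h2 k), Finset.sum_congr rfl (fun k _ => h3 k)]
    exact h1

end Pool.Agent.Lib.MP_666dc0_nt.LV
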