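import Pool.Agent.Lib.MP_666dc0_nt.LV.W1

open LaurentPolynomial

namespace Pool.Agent.Lib.MP_666dc0_nt.LV

open Pool.Agent.Lib.MP_666dc0_nt.IG

variable {O O' : Type} [CommRing O] [HopfAlgebra ℚ O] [CommRing O'] [HopfAlgebra ℚ O'] {Γ : Type}
  [Group Γ] {A : HopfAction Γ O} {A' : HopfAction Γ O'} {π : O →ₐc[ℚ] O'}
  {μ : O →ₐc[ℚ] ℚ[T;T⁻¹]} {n : ℕ}

/-- The restriction of a matrix representation to `M̂ ⋊ Γ`: `a i j` is replaced by `π (a i j)`. `P_eq` by `hM.ker`. -/
theorem exists_restrict (hM : IsLevi A A' π μ) (ρ : MatRep A n) :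
    ∃ ρ' : MatRep A' n, (∀ i j, ρ'.a i j = π (ρ.a i j)) ∧ ∀ γ, ρ'.P γ = ρ.P γ := by
  refine ⟨{ a := fun i j => π (ρ.a i j)
            P := ρ.P
            comul_a := ?_
            counit_a := ?_
            act_a := ?_
            P_eq := ?_ }, fun _ _ => rfl, fun _ => rfl⟩
  · intro i j
    have h := CoalgHomClass.map_comp_comul_apply (R := ℚ) π (ρ.a i j)
    rw [← h, ρ.comul_a]
    simp
  · intro i j
    have h := CoalgHomClass.counit_comp_apply (R := ℚ) π (ρ.a i j)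
    rw [h, ρ.counit_a]
  · intro γ i j
    have h := congrArg π (ρ.act_a γ i j)
    rw [map_sum, map_sum] at h
    simp only [map_smul] at h
    rw [h]
    exact Finset.sum_congr rfl fun k _ => by rw [hM.act]
  · intro γ hγ
    exact ρ.P_eq γ (hM.ker γ hγ)

private lemma W1b_incl_mul {R : Type} [CommRing R] [Algebra ℚ R] (g h : Pts O' R) :
    Pts.incl π (g * h) = Pts.incl π g * Pts.incl π h := by
  ext f
  change (g * h).hom (π f) = _
  rw [Pts.mul_hom_apply, Pts.mul_hom_apply,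
    ← CoalgHomClass.map_comp_comul_apply (R := ℚ) π f]
  generalize CoalgebraStruct.comul (R := ℚ) f = z
  induction z using TensorProduct.induction_on with
  | zero => simp
  | tmul a b =>
    simp only [TensorProduct.map_tmul, Algebra.TensorProduct.lift_tmul]
    rfl
  | add a b ha hb => simp only [map_add, ha, hb]

private lemma W1b_antipode (f : O) :
    π (HopfAlgebra.antipode ℚ f) = HopfAlgebra.antipode ℚ (π f) := by
  have h1 : Pts.incl π (1 : Pts O' O') = 1 := by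
    have h2 := W1b_incl_mul (π := π) (1 : Pts O' O') 1
    rw [mul_one] at h2
    exact (left_eq_mul.mp h2)
  have h2 : Pts.incl π (Pts.univ O')⁻¹ = (Pts.incl π (Pts.univ O'))⁻¹ := by
    rw [eq_inv_iff_mul_eq_one, ← W1b_incl_mul, inv_mul_cancel, h1]
  have h3 := congrArg (fun x : Pts O O' => x.hom f) h2
  exact h3.symm

/-- The restriction of a faithful representation is faithful: `π` is surjective and commutes with the antipode
(a homomorphism of bialgebras between Hopf algebras commutes with the antipodes). -/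
theorem faithful_restrict (hM : IsLevi A A' π μ) {ρ : MatRep A n} (hρ : Faithful ρ) {ρ' : MatRep A' n}
    (h : ∀ i j, ρ'.a i j = π (ρ.a i j)) : Faithful ρ' := by
  unfold Faithful at hρ ⊢
  have h1 : (Algebra.adjoin ℚ ({f | ∃ i j, f = ρ.a i j} ∪
      {f | ∃ i j, f = HopfAlgebra.antipode ℚ (ρ.a i j)})).map (π : O →ₐ[ℚ] O') = ⊤ := by
    rw [hρ, Algebra.map_top, AlgHom.range_eq_top]
    exact hM.surj
  rw [AlgHom.map_adjoin] at h1
  rw [eq_top_iff, ← h1]
  apply Algebra.adjoin_mono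
  rintro _ ⟨f, (⟨i, j, rfl⟩ | ⟨i, j, rfl⟩), rfl⟩
  · exact Or.inl ⟨i, j, (h i j).symm⟩
  · refine Or.inr ⟨i, j, ?_⟩
    rw [h i j]
    exact W1b_antipode _

/-- The matrix of an element of `ᴸM(R)` in the restricted representation. -/
theorem ev_restrict {ρ : MatRep A n} {ρ' : MatRep A' n} (h : ∀ i j, ρ'.a i j = π (ρ.a i j))
    (hP : ∀ γ, ρ'.P γ = ρ.P γ) {R : Type} [CommRing R] [Algebra ℚ R] (x : A'.LGroup R) :
    ρ'.ev R x = ρ.ev R (⟨Pts.incl π x.left, x.right⟩ : A.LGroup R) := by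
  rw [MatRep.ev_apply, MatRep.ev_apply]
  congr 1
  · ext i j
    change x.left.hom (ρ'.a i j) = x.left.hom (π (ρ.a i j))
    rw [h]
  · ext i j
    rw [MatRep.pm_apply, MatRep.pm_apply, hP]

/-- The action on `M̂` has an open kernel if the action on `Ĝ` does. -/
theorem isOpen_ker' [TopologicalSpace Γ] [IsTopologicalGroup Γ] (hM : IsLevi A A' π μ)
    (hA : IsOpen (A.act.ker : Set Γ)) : IsOpen (A'.act.ker : Set Γ) := by
  refine Subgroup.isOpen_mono (H₁ := A.act.ker) (H₂ := A'.act.ker) ?_ hA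
  intro γ hγ
  rw [MonoidHom.mem_ker] at hγ ⊢
  ext f
  obtain ⟨g, rfl⟩ := hM.surj f
  rw [← hM.act, hγ]
  rfl

/-- The projections over a field. -/
theorem Wts.proj {ρ : MatRep A n} {J : Finset ℤ} {p : ℤ → Matrix (Fin n) (Fin n) ℚ}
    (hW : Wts μ ρ J p) (R : Type) [Field R] [Algebra ℚ R] : LD.Proj J (pj R p) := by
  refine ⟨?_, ?_, ?_⟩
  · intro i hi
    unfold pj
    rw [← Matrix.map_mul, hW.idem i hi i hi, if_pos rfl]
  · intro i hi j hj hij
    unfold pj
    rw [← Matrix.map_mul, hW.idem i hi j hj, if_neg hij]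
    ext a b
    simp
  · have h := congrArg (fun M : Matrix (Fin n) (Fin n) ℚ => M.map (algebraMap ℚ R)) hW.sum
    have h2 : (∑ l ∈ J, p l).map (algebraMap ℚ R) = ∑ l ∈ J, pj R p l := by
      ext a b
      simp [pj, Matrix.sum_apply]
    rw [← h2, h]
    ext a b
    simp [Matrix.one_apply]

theorem Wts.dg {ρ : MatRep A n} {J : Finset ℤ} {p : ℤ → Matrix (Fin n) (Fin n) ℚ}
    (hW : Wts μ ρ J p) (R : Type) [Field R] [Algebra ℚ R] (t : Rˣ) :
    ρ.gm (Pts.cochar μ t) = LD.dg J (pj R p) (t : R) := by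
  rw [hW.gm R t]
  unfold LD.dg pj
  exact Finset.sum_congr rfl fun l _ => by rw [Units.val_zpow_eq_zpow_val]

/-- Compatibility with homomorphisms of rings. -/
theorem pj_map (p : ℤ → Matrix (Fin n) (Fin n) ℚ) {R S : Type} [CommRing R] [Algebra ℚ R]
    [CommRing S] [Algebra ℚ S] (ψ : R →+* S) (l : ℤ) : (pj R p l).map ψ = pj S p l := by
  ext i j
  have h : ψ.comp (algebraMap ℚ R) = algebraMap ℚ S := RingHom.ext_rat _ _
  exact congrArg (fun χ : ℚ →+* S => χ (p l i j)) h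

/-- `pj R p l` commutes with `ρ.pm R γ` (`hW.comm`). -/
theorem pm_comm {ρ : MatRep A n} {J : Finset ℤ} {p : ℤ → Matrix (Fin n) (Fin n) ℚ}
    (hW : Wts μ ρ J p) (R : Type) [CommRing R] [Algebra ℚ R] (γ : Γ) {l : ℤ} (hl : l ∈ J) :
    pj R p l * ρ.pm R γ = ρ.pm R γ * pj R p l := by
  have h : ρ.pm R γ = (ρ.P γ).map (algebraMap ℚ R) := rfl
  rw [h]
  unfold pj
  rw [← Matrix.map_mul, ← Matrix.map_mul, hW.comm γ l hl]

end Pool.Agent.Lib.MP_666dc0_nt.LV
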