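import Pool.Agent.Lib.MP_666dc0_nt.LV.W3

open LaurentPolynomial

namespace Pool.Agent.Lib.MP_666dc0_nt.LV

open Pool.Agent.Lib.MP_666dc0_nt.IG

variable {O O' : Type} [CommRing O] [HopfAlgebra ℚ O] [CommRing O'] [HopfAlgebra ℚ O'] {Γ : Type}
  [Group Γ] {A : HopfAction Γ O} {A' : HopfAction Γ O'} {π : O →ₐc[ℚ] O'}
  {μ : O →ₐc[ℚ] ℚ[T;T⁻¹]} {n : ℕ}

/-- Twisting by a homomorphism `c : Γ → Rˣ`: `r γ = (incl (r' γ).left * cochar μ (c γ), γ)` is a homomorphism (`incl_mul`, `incl_onPts`,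
`cochar_mul`, `cochar_onPts`, `incl_comm`; multiplication in the semidirect product: `SemidirectProduct.mul_left`). -/
theorem exists_twisted_hom (hM : IsLevi A A' π μ) {R : Type} [CommRing R] [Algebra ℚ R]
    (r' : Γ →* A'.LGroup R) (hr : ∀ γ, (r' γ).right = γ) (c : Γ →* Rˣ) :
    ∃ r : Γ →* A.LGroup R, (∀ γ, (r γ).right = γ) ∧
      ∀ γ, (r γ).left = Pts.incl π (r' γ).left * Pts.cochar μ (c γ) := by
  refine ⟨MonoidHom.mk' (fun γ => (⟨Pts.incl π (r' γ).left * Pts.cochar μ (c γ), γ⟩ : A.LGroup R))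
    fun γ δ => ?_, fun γ => rfl, fun γ => rfl⟩
  have h1 : (r' (γ * δ)).left = (r' γ).left * A'.onPts R γ (r' δ).left := by
    rw [map_mul, SemidirectProduct.mul_left, hr]
  have h2 : Pts.incl π (r' (γ * δ)).left * Pts.cochar μ (c (γ * δ)) =
      (Pts.incl π (r' γ).left * Pts.cochar μ (c γ)) *
        A.onPts R γ (Pts.incl π (r' δ).left * Pts.cochar μ (c δ)) := by
    rw [h1, incl_mul, map_mul c, cochar_mul, map_mul (A.onPts R γ), incl_onPts hM, cochar_onPts hM]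
    have h3 := (incl_comm hM (A'.onPts R γ (r' δ).left) (c γ)).eq
    calc Pts.incl π (r' γ).left * Pts.incl π (A'.onPts R γ (r' δ).left) *
          (Pts.cochar μ (c γ) * Pts.cochar μ (c δ)) =
        Pts.incl π (r' γ).left * (Pts.incl π (A'.onPts R γ (r' δ).left) * Pts.cochar μ (c γ)) *
          Pts.cochar μ (c δ) := by simp only [mul_assoc]
      _ = _ := by rw [h3]; simp only [mul_assoc]
  ext1
  · rw [SemidirectProduct.mul_left]
    exact h2
  · rfl

/-- Conversely, if all matrices `ρ.ev R (r γ)` commute with the projections then `r` comes from `ᴸM` and can be twisted by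
`c⁻¹`. `ρ.gm (r γ).left = ρ.ev R (r γ) * ρ.pm R γ⁻¹` commutes with the projections (`pm_comm`), so
`(r γ).left = incl (g γ)` (`exists_incl_of_comm`), and `cochar μ (c γ)⁻¹ = incl (z γ)` (`exists_cochar'`): put
`(r' γ) = (g γ * z γ, γ)`. It is multiplicative since `incl` is injective (`incl_injective hM.surj`) and
`incl (g γ * z γ) = (r γ).left * cochar μ (c γ)⁻¹` is (`cochar_mul`, `incl_comm`, `cochar_onPts`, `incl_onPts`). -/
theorem exists_levi_hom (hM : IsLevi A A' π μ) {ρ : MatRep A n} (hρ : Faithful ρ) {J : Finset ℤ}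
    {p : ℤ → Matrix (Fin n) (Fin n) ℚ} (hW : Wts μ ρ J p) {R : Type} [CommRing R] [Algebra ℚ R]
    (r : Γ →* A.LGroup R) (hr : ∀ γ, (r γ).right = γ)
    (hcomm : ∀ γ, ∀ l ∈ J, pj R p l * ρ.ev R (r γ) = ρ.ev R (r γ) * pj R p l) (c : Γ →* Rˣ) :
    ∃ r' : Γ →* A'.LGroup R, (∀ γ, (r' γ).right = γ) ∧
      ∀ γ, (r γ).left = Pts.incl π (r' γ).left * Pts.cochar μ (c γ) := by
  have hgm : ∀ γ, ρ.gm (r γ).left = ρ.ev R (r γ) * ρ.pm R γ⁻¹ := by
    intro γ
    rw [MatRep.ev_apply, hr, mul_assoc, MatRep.pm_mul_pm_inv, mul_one]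
  have hex : ∀ γ, ∃ g' : Pts O' R, Pts.incl π g' = (r γ).left := by
    intro γ
    refine exists_incl_of_comm hM hρ hW (r γ).left fun l hl => ?_
    rw [hgm, ← mul_assoc, hcomm γ l hl, mul_assoc, pm_comm hW R γ⁻¹ hl, mul_assoc]
  choose g hg using hex
  have hex2 : ∀ γ, ∃ z : Pts O' R, Pts.incl π z = Pts.cochar μ (c γ)⁻¹ := fun γ =>
    exists_cochar' hM _
  choose z hz using hex2
  have hgz : ∀ γ, Pts.incl π (g γ * z γ) = (r γ).left * Pts.cochar μ (c γ)⁻¹ := fun γ => by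
    rw [incl_mul, hg, hz]
  have hcinv : ∀ t : Rˣ, Pts.cochar μ t⁻¹ = (Pts.cochar μ t)⁻¹ := by
    intro t
    rw [eq_inv_iff_mul_eq_one, ← cochar_mul, inv_mul_cancel, cochar_one]
  refine ⟨MonoidHom.mk' (fun γ => (⟨g γ * z γ, γ⟩ : A'.LGroup R)) fun γ δ => ?_, fun γ => rfl,
    fun γ => ?_⟩
  · have h1 : g (γ * δ) * z (γ * δ) = (g γ * z γ) * A'.onPts R γ (g δ * z δ) := by
      apply incl_injective hM.surj
      rw [hgz, incl_mul, hgz, ← incl_onPts hM, hgz, map_mul (A.onPts R γ), cochar_onPts hM]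
      have h2 : (r (γ * δ)).left = (r γ).left * A.onPts R γ (r δ).left := by
        rw [map_mul, SemidirectProduct.mul_left, hr]
      have h3 : A.onPts R γ (r δ).left = Pts.incl π (A'.onPts R γ (g δ)) := by
        rw [← hg, incl_onPts hM]
      have h4 := (incl_comm hM (A'.onPts R γ (g δ)) (c γ)⁻¹).eq
      rw [h2, h3, map_mul c, mul_inv, cochar_mul]
      calc (r γ).left * Pts.incl π (A'.onPts R γ (g δ)) *
            (Pts.cochar μ (c γ)⁻¹ * Pts.cochar μ (c δ)⁻¹) =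
          (r γ).left * (Pts.incl π (A'.onPts R γ (g δ)) * Pts.cochar μ (c γ)⁻¹) *
            Pts.cochar μ (c δ)⁻¹ := by simp only [mul_assoc]
        _ = _ := by rw [h4]; simp only [mul_assoc]
    ext1
    · rw [SemidirectProduct.mul_left]
      exact h1
    · rfl
  · change (r γ).left = Pts.incl π (g γ * z γ) * Pts.cochar μ (c γ)
    rw [hgz, hcinv, inv_mul_cancel_right]

/-- Conjugate elements of `ᴸG(R)` which differ from elements of `ᴸM(R)` by the same central twist: if `h = incl h'` and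
`h (incl x · μ(t), σ) h⁻¹ = (incl y · μ(t), σ)` then `h' (x, σ) h'⁻¹ = (y, σ)`. Left components:
`h * (incl x * μ(t)) * (onPts σ h)⁻¹ = incl y * μ(t)`; `μ(t)` commutes with points of `M̂`; cancel it; `incl_injective`. -/
theorem conj_of_conj_incl (hM : IsLevi A A' π μ) {R : Type} [CommRing R] [Algebra ℚ R]
    (h' x y : Pts O' R) (t : Rˣ) (σ : Γ)
    (h : Pts.incl π h' * (Pts.incl π x * Pts.cochar μ t) * (A.onPts R σ (Pts.incl π h'))⁻¹ =
      Pts.incl π y * Pts.cochar μ t) : h' * x * (A'.onPts R σ h')⁻¹ = y := by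
  apply incl_injective hM.surj
  rw [incl_mul, incl_mul, incl_inv]
  rw [incl_onPts hM] at h
  have h1 : Commute (Pts.incl π (A'.onPts R σ h'))⁻¹ (Pts.cochar μ t) :=
    (incl_comm hM (A'.onPts R σ h') t).inv_left
  have h2 : Pts.incl π h' * (Pts.incl π x * Pts.cochar μ t) * (Pts.incl π (A'.onPts R σ h'))⁻¹ =
      Pts.incl π h' * Pts.incl π x * (Pts.incl π (A'.onPts R σ h'))⁻¹ * Pts.cochar μ t := by
    calc Pts.incl π h' * (Pts.incl π x * Pts.cochar μ t) * (Pts.incl π (A'.onPts R σ h'))⁻¹ =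
        Pts.incl π h' * Pts.incl π x * (Pts.cochar μ t * (Pts.incl π (A'.onPts R σ h'))⁻¹) := by
          simp only [mul_assoc]
      _ = _ := by rw [← h1.eq]; simp only [mul_assoc]
  rw [h2] at h
  exact mul_right_cancel h

end Pool.Agent.Lib.MP_666dc0_nt.LV
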