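import Pool.Agent.Lib.MP_666dc0_nt.Mg.G044
import Pool.Agent.Lib.MP_666dc0_nt.Mg.G042
import Pool.Agent.Lib.MP_666dc0_nt.Mg.G043
import Pool.Agent.Lib.MP_666dc0_nt.IG.J14b
import Pool.Agent.Lib.MP_666dc0_nt.Mg.G046
import Pool.Agent.Lib.MP_666dc0_nt.LV.H1

open Polynomial Topology

namespace Pool.Agent.Lib.MP_666dc0_nt.LV

open Pool.Agent.Lib.MP_666dc0_nt.IG

variable {O : Type} [CommRing O] [HopfAlgebra ℚ O] {Γ : Type} [Group Γ] {A : HopfAction Γ O}
  {n : ℕ} (ρ : MatRep A n)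

/-- `sg` and extension of coefficients. -/
theorem sg_map {K Ω : Type} [Field K] [Field Ω] [Algebra K Ω] (V : Γ → O → K) {N : ℕ}
    (e : Fin N → Γ) (Gi : Matrix (Fin N) (Fin N) K) (γ : Γ) :
    (sg ρ V e Gi γ).map (algebraMap K Ω) =
      sg ρ (fun γ f => algebraMap K Ω (V γ f)) e (Gi.map (algebraMap K Ω)) γ := by
  ext k j
  change algebraMap K Ω (∑ i, Gi k i * tf ρ V (γ * e j * e i)) =
    ∑ i, algebraMap K Ω (Gi k i) * algebraMap K Ω (tf ρ V (γ * e j * e i))
  rw [map_sum]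
  exact Finset.sum_congr rfl fun i _ => map_mul _ _ _

private lemma X1_aeval_map {K Ω : Type} [Field K] [Field Ω] [Algebra K Ω] {N : ℕ}
    (M : Matrix (Fin N) (Fin N) K) (p : K[X]) :
    (aeval M p).map (algebraMap K Ω) = aeval (M.map (algebraMap K Ω)) (p.map (algebraMap K Ω)) := by
  have h1 : (aeval M p).map (algebraMap K Ω) = (algebraMap K Ω).mapMatrix (aeval M p) := rfl
  have h2 : M.map (algebraMap K Ω) = (algebraMap K Ω).mapMatrix M := rfl
  rw [h1, h2, Polynomial.aeval_def, Polynomial.aeval_def, Polynomial.hom_eval₂, Polynomial.eval₂_map]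
  congr 1
  ext c i j
  rw [RingHom.comp_apply, RingHom.comp_apply, RingHom.mapMatrix_apply, Matrix.map_apply,
    Matrix.algebraMap_matrix_apply, Matrix.algebraMap_matrix_apply]
  split_ifs
  · rfl
  · exact map_zero _

/-- Descent of a homomorphism with traces in `K`. Let `r : Γ → ᴸG(Ω)` be a homomorphism over `Γ` with
`trace (ρ.ev Ω (r γ)) = θ γ ∈ K`. There is a homomorphism `r' : Γ → ᴸG(K)` with the same invariants; it is continuous if `θ` is; trivial
at `u` if `θ (γ u) = θ γ`, ...; semisimple at `σ` if `ρ.ev Ω (r σ)` is killed by a squarefree polynomial over `K`.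

Proof. `inv_mem_of_trace` (H1.lean): all values of invariant functions are in `K`: `V γ f ∈ K` with `algebraMap (V γ f) = (r γ).left.hom f` for
`f ∈ inv γ`. `core_gen` (IG/FGf.lean) with `E = Ω`, `B` the image of `K` (a `ℚ`-subalgebra; `(algebraMap K Ω).toRatAlgHom.range`), `y : B →+* K` the inverse
(`AlgEquiv.ofInjective`): `N, e, Gi, r'` with `sg ρ V e Gi` multiplicative, `HasVal A V K r'`, entries in `FK A (sg ρ V e Gi)`.
`tf ρ V = θ` (injectivity of `K → Ω`; `trF_eval`, `trF_mem`). The rest is the end of the proof of `interpolation` in IG/J15.lean: continuity by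
`continuous_sg`, `continuous_of_mem_FK`, `continuous_of_entries`; triviality at `u` by `FK_eq_one` (`sg ρ V e Gi u = sg ρ V e Gi 1` by the hypothesis on
`θ`, the same for `u⁻¹`), `gm_injective`; semisimplicity: `aeval_sg_eq_zero` over `Ω` (`sg_map`, `ρ' = (ρ.ev Ω).comp r`) gives `p (sg ρ V e Gi σ) = 0`
(matrices over `K`, `K → Ω` injective), `DG_of_squarefree`, `isSemisimpleElt_of_DG` (IG/J14b.lean). -/
theorem descend_trace [TopologicalSpace Γ] [IsTopologicalGroup Γ] [CompactSpace Γ]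
    (hA : IsOpen (A.act.ker : Set Γ)) (hO : LinearlyReductive O) (hρ : Faithful ρ)
    {K Ω : Type} [Field K] [IsAlgClosed K] [CharZero K] [Algebra ℚ K] [TopologicalSpace K]
    [IsTopologicalRing K] [Field Ω] [IsAlgClosed Ω] [Algebra ℚ Ω]
    [Algebra K Ω] (r : Γ →* A.LGroup Ω) (hr : ∀ γ, (r γ).right = γ) (θ : Γ → K)
    (hθc : Continuous θ) (hθ : ∀ γ, algebraMap K Ω (θ γ) = (ρ.ev Ω (r γ)).trace) :
    ∃ r' : Γ →* A.LGroup K, (∀ γ, (r' γ).right = γ) ∧
      (∀ f, Continuous fun γ => (r' γ).left.hom f) ∧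
      (∀ γ, ∀ f ∈ A.inv γ, algebraMap K Ω ((r' γ).left.hom f) = (r γ).left.hom f) ∧
      (∀ u, A.act u = 1 → (∀ γ, θ (γ * u) = θ γ) → (∀ γ, θ (γ * u⁻¹) = θ γ) → (r' u).left = 1) ∧
      ∀ (σ : Γ) (p : K[X]), Squarefree p →
        aeval (ρ.ev Ω (r σ)) (p.map (algebraMap K Ω)) = 0 → A.IsSemisimpleElt (r' σ) := by
  classical
  obtain ⟨G, hG⟩ := exists_redG ρ hO hρ
  obtain ⟨TD⟩ := exists_tensorData G
  have hch : CharZero Ω := algebraRat.charZero Ω
  have hinj : Function.Injective (algebraMap K Ω) := (algebraMap K Ω).injective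
  have hinv : ∀ (γ : Γ) (f : O), f ∈ A.inv γ → ∃ t : K, (r γ).left.hom f = algebraMap K Ω t :=
    fun γ f hf => inv_mem_of_trace ρ hG hρ TD r hr (fun γ => ⟨θ γ, (hθ γ).symm⟩) γ f hf
  let V : Γ → O → K := fun γ f => if h : f ∈ A.inv γ then (hinv γ f h).choose else 0
  have hVs : ∀ γ f, f ∈ A.inv γ → algebraMap K Ω (V γ f) = (r γ).left.hom f := by
    intro γ f hf
    have h1 : V γ f = (hinv γ f hf).choose := dif_pos hf
    rw [h1]
    exact (hinv γ f hf).choose_spec.symm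
  let ι : K →ₐ[ℚ] Ω := (algebraMap K Ω).toRatAlgHom
  have hι : Function.Injective ι := hinj
  let eB : K ≃ₐ[ℚ] ι.range := AlgEquiv.ofInjective ι hι
  let y : ι.range →+* K := (eB.symm : ι.range →ₐ[ℚ] K)
  have hB : ∀ γ, ∀ f ∈ A.inv γ, (r γ).left.hom f ∈ ι.range := fun γ f hf => ⟨V γ f, hVs γ f hf⟩
  have hV : ∀ γ f (hf : f ∈ A.inv γ), V γ f = y ⟨_, hB γ f hf⟩ := by
    intro γ f hf
    change V γ f = eB.symm ⟨_, hB γ f hf⟩
    rw [AlgEquiv.eq_symm_apply]
    exact Subtype.ext (hVs γ f hf)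
  obtain ⟨N, e', Gi, r', h1, hmul, hval, hent⟩ := core_gen ρ hG hρ TD (finite_range_act hA) r hr
    ι.range hB y V hV
  have hval' : ∀ γ, ∀ f ∈ A.inv γ, (r' γ).left.hom f = V γ f := fun γ f hf => by
    rw [hval.val γ f hf]; rfl
  have htfθ : tf ρ V = θ := by
    funext γ
    apply hinj
    rw [tf, hVs γ _ (ρ.trF_mem γ), hθ γ, ← ρ.trF_eval, hr]
  have htf : Continuous (tf ρ V) := by
    rw [htfθ]
    exact hθc
  have hsg : ∀ k l, Continuous fun γ => sg ρ V e' Gi γ k l := fun k l =>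
    continuous_sg ρ V htf e' Gi k l
  have hcomm : ∀ a b : Γ, θ (a * b) = θ (b * a) := by
    intro a b
    apply hinj
    rw [hθ, hθ, map_mul, map_mul, map_mul, map_mul, Matrix.trace_mul_comm]
  refine ⟨r', hval.proj, continuous_of_entries ρ hA hρ r' hval.proj fun i j =>
    continuous_of_mem_FK hA _ hsg (hent i j), ?_, ?_, ?_⟩
  · intro γ f hf
    rw [hval' γ f hf, hVs γ f hf]
  · intro u hu hθu hθu'
    have hsg1 : ∀ w, (∀ γ, θ (γ * w) = θ γ) → sg ρ V e' Gi w = sg ρ V e' Gi 1 := by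
      intro w hw
      ext k l
      change ∑ i, Gi k i * tf ρ V (w * e' l * e' i) = ∑ i, Gi k i * tf ρ V (1 * e' l * e' i)
      refine Finset.sum_congr rfl fun i _ => ?_
      congr 1
      rw [htfθ, mul_assoc w, hcomm, hw, one_mul]
    have hu' : A.act u⁻¹ = 1 := by rw [map_inv, hu, inv_one]
    have hev : ρ.ev K (r' u) = ρ.ev K (r' 1) := by
      ext i j
      exact FK_eq_one (sg ρ V e' Gi) hu (hsg1 u hθu) (hsg1 u⁻¹ hθu') (hent i j)
    have h3 : ρ.gm (r' u).left = ρ.gm 1 := by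
      rw [map_one, map_one, MatRep.ev_apply, hval.proj, ρ.pm_one hu, mul_one] at hev
      rw [hev, MatRep.gm_one]
    exact gm_injective ρ hρ h3
  · intro σ p hp hp0
    have h1' : sg ρ (fun γ f => algebraMap K Ω (V γ f)) e' (Gi.map (algebraMap K Ω)) 1 = 1 := by
      rw [← sg_map, h1]
      exact Matrix.map_one _ (map_zero _) (map_one _)
    have hmul' : ∀ γ δ, sg ρ (fun γ f => algebraMap K Ω (V γ f)) e' (Gi.map (algebraMap K Ω)) (γ * δ) =
        sg ρ (fun γ f => algebraMap K Ω (V γ f)) e' (Gi.map (algebraMap K Ω)) γ *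
          sg ρ (fun γ f => algebraMap K Ω (V γ f)) e' (Gi.map (algebraMap K Ω)) δ := by
      intro γ δ
      rw [← sg_map, ← sg_map, ← sg_map, hmul, Matrix.map_mul]
    have h2 := aeval_sg_eq_zero ρ (fun γ f => algebraMap K Ω (V γ f)) e' (Gi.map (algebraMap K Ω))
      h1' hmul' ((ρ.ev Ω).comp r) (fun δ => by
        change (ρ.ev Ω (r δ)).trace = algebraMap K Ω (tf ρ V δ)
        rw [htfθ, hθ]) σ hp0
    rw [← sg_map, ← X1_aeval_map] at h2
    have h4 : aeval (sg ρ V e' Gi σ) p = 0 := by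
      ext i j
      have h5 := congrFun (congrFun h2 i) j
      rw [Matrix.map_apply, Matrix.zero_apply] at h5
      rw [Matrix.zero_apply]
      exact hinj (h5.trans (map_zero _).symm)
    have h3 : DG (sg ρ V e' Gi σ) := by
      refine DG_of_squarefree (M' := sg ρ V e' Gi σ⁻¹) ?_ ?_ hp h4
      · rw [← hmul, mul_inv_cancel, h1]
      · rw [← hmul, inv_mul_cancel, h1]
    exact isSemisimpleElt_of_DG ρ hρ (finite_range_act hA) (fun Φ hΦ => exists_stable hA hΦ)
      (sg ρ V e' Gi) h1 hmul r' hval.proj hent h3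

end Pool.Agent.Lib.MP_666dc0_nt.LV
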