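import Pool.Agent.Lib.MP_666dc0_nt.LD.D9
import Pool.Agent.Lib.MP_666dc0_nt.LV.Hc
import Pool.Agent.Lib.MP_666dc0_nt.LV.P2
import Pool.Agent.Lib.MP_666dc0_nt.LV.P4
import Pool.Agent.Lib.MP_666dc0_nt.LV.W4

open Polynomial LaurentPolynomial

namespace Pool.Agent.Lib.MP_666dc0_nt.LV

open Pool.Agent.Lib.MP_666dc0_nt.IG

variable {O O' : Type} [CommRing O] [HopfAlgebra ℚ O] [CommRing O'] [HopfAlgebra ℚ O'] {Γ : Type}
  [Group Γ] {A : HopfAction Γ O} {A' : HopfAction Γ O'} {π : O →ₐc[ℚ] O'}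
  {μ : O →ₐc[ℚ] ℚ[T;T⁻¹]} {n : ℕ}

/-- Theorem S (`LD.exists_conj_of_eqv`) with `DG` (`DG.exists_squarefree`-like: the product of distinct linear factors is squarefree;
`X - C` are pairwise coprime, or `DG.exists_squarefree` in IG/J12b.lean with `m = 1`). -/
theorem exists_conj_of_DG [Algebra.FiniteType ℚ O] (hO : LinearlyReductive O) {ρ : MatRep A n}
    (hρ : Faithful ρ) {Ω : Type} [Field Ω] [IsAlgClosed Ω] [Algebra ℚ Ω] (x y : A.LGroup Ω)
    (hxy : x.right = y.right) (hv : ∀ f ∈ A.inv x.right, x.left.hom f = y.left.hom f)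
    (hx : DG (ρ.ev Ω x)) (hy : DG (ρ.ev Ω y)) :
    ∃ h : Pts O Ω, SemidirectProduct.inl h * x * (SemidirectProduct.inl h)⁻¹ = y := by
  have : CharZero Ω := algebraRat.charZero Ω
  obtain ⟨x, σ⟩ := x
  obtain ⟨y, τ⟩ := y
  obtain rfl : σ = τ := hxy
  obtain ⟨p, hp, hpx⟩ := DG.exists_squarefree (M := ρ.ev Ω (⟨x, σ⟩ : A.LGroup Ω)) (m := 1) one_ne_zero
    (by rw [pow_one]; exact hx)
  obtain ⟨q, hq, hqy⟩ := DG.exists_squarefree (M := ρ.ev Ω (⟨y, σ⟩ : A.LGroup Ω)) (m := 1) one_ne_zero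
    (by rw [pow_one]; exact hy)
  obtain ⟨h, hh⟩ := LD.exists_conj_of_eqv hO ρ hρ σ x y hv p q hp hpx hq hqy
  refine ⟨h, ?_⟩
  rw [LD.conj_eq_mk_tc, hh]

private lemma X2_aeval_conj {Ω : Type} [Field Ω] {H H' Y Y' : Matrix (Fin n) (Fin n) Ω}
    (h1 : H * H' = 1) (h2 : H' * H = 1) (h : Y = H' * Y' * H) (P : Polynomial Ω) :
    aeval Y P = H' * aeval Y' P * H := by
  have hpow : ∀ k : ℕ, Y ^ k = H' * Y' ^ k * H := by
    intro k
    induction k with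
    | zero => rw [pow_zero, pow_zero, mul_one, h2]
    | succ k ih =>
      calc Y ^ (k + 1) = H' * Y' ^ k * H * (H' * Y' * H) := by rw [pow_succ, ih, h]
        _ = H' * Y' ^ k * (H * H') * Y' * H := by simp only [mul_assoc]
        _ = H' * Y' ^ (k + 1) * H := by rw [h1, mul_one, pow_succ]; simp only [mul_assoc]
  rw [aeval_eq_sum_range, aeval_eq_sum_range, Finset.mul_sum, Finset.sum_mul]
  refine Finset.sum_congr rfl fun k _ => ?_
  rw [hpow, mul_smul_comm, smul_mul_assoc]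

private lemma X2_kill {Ω : Type} [Field Ω] {J : Finset ℤ} {e : ℤ → Matrix (Fin n) (Fin n) Ω}
    (he : LD.Proj J e) (M : Matrix (Fin n) (Fin n) Ω) (hM : ∀ l ∈ J, e l * M = M * e l) {z : Ω}
    {i : ℤ} (hi : i ∈ J) {ι : Type} (Λ : Finset ι) (α : ι → Ω)
    (h : aeval M (∏ a ∈ Λ, (X - Polynomial.C (α a))) = 0) :
    e i * aeval (M * LD.dg J e z) (∏ a ∈ Λ, (X - Polynomial.C (α a * z ^ i))) = 0 := by
  have h1 : ∀ k : ℕ, e i * (M * LD.dg J e z) ^ k = e i * (z ^ i • M) ^ k := by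
    intro k
    induction k with
    | zero => rw [pow_zero, pow_zero]
    | succ k ih =>
      have hc : e i * (z ^ i • M) ^ k = (z ^ i • M) ^ k * e i := by
        have : Commute (e i) (z ^ i • M) := by
          rw [commute_iff_eq, mul_smul_comm, smul_mul_assoc, hM i hi]
        exact this.pow_right k
      calc e i * (M * LD.dg J e z) ^ (k + 1)
          = (z ^ i • M) ^ k * e i * (M * LD.dg J e z) := by
            rw [pow_succ, ← mul_assoc, ih, hc]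
        _ = (z ^ i • M) ^ k * (e i * M) * LD.dg J e z := by simp only [mul_assoc]
        _ = (z ^ i • M) ^ k * M * (e i * LD.dg J e z) := by rw [hM i hi]; simp only [mul_assoc]
        _ = (z ^ i • M) ^ k * M * (z ^ i • e i) := by rw [(he.e_mul_dg z hi).1]
        _ = (z ^ i • M) ^ k * (z ^ i • M) * e i := by
            rw [mul_smul_comm, mul_smul_comm, smul_mul_assoc]
        _ = e i * (z ^ i • M) ^ (k + 1) := by
            rw [pow_succ]
            have : Commute (e i) (z ^ i • M) := by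
              rw [commute_iff_eq, mul_smul_comm, smul_mul_assoc, hM i hi]
            exact ((this.pow_right k).mul_right this).symm.eq
  have h2 : ∀ P : Polynomial Ω, e i * aeval (M * LD.dg J e z) P = e i * aeval (z ^ i • M) P := by
    intro P
    rw [aeval_eq_sum_range, aeval_eq_sum_range, Finset.mul_sum, Finset.mul_sum]
    refine Finset.sum_congr rfl fun k _ => ?_
    rw [mul_smul_comm, mul_smul_comm, h1]
  rw [h2]
  have h3 : aeval (z ^ i • M) (∏ a ∈ Λ, (X - Polynomial.C (α a * z ^ i))) =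
      aeval M ((∏ a ∈ Λ, (X - Polynomial.C (α a * z ^ i))).comp (Polynomial.C (z ^ i) * X)) := by
    rw [aeval_comp, map_mul, aeval_X, aeval_C, ← Algebra.smul_def]
  have h4 : (∏ a ∈ Λ, (X - Polynomial.C (α a * z ^ i))).comp (Polynomial.C (z ^ i) * X) =
      Polynomial.C (z ^ i) ^ Λ.card * ∏ a ∈ Λ, (X - Polynomial.C (α a)) := by
    rw [prod_comp, ← Finset.prod_const, ← Finset.prod_mul_distrib]
    refine Finset.prod_congr rfl fun a _ => ?_
    rw [sub_comp, X_comp, Polynomial.C_comp, Polynomial.C_mul]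
    ring
  rw [h3, h4, map_mul, h, mul_zero, mul_zero]

/-- Matching at `σ`. `x = r σ = (incl x'.left · μ(c), σ)` with `x' ∈ ᴸM(Ω)` over `σ`, and `y = (incl m · μ(c), σ)`, `m ∈ M̂(K)`, have the same invariants.
Then `x'` is conjugate to `(m, σ)` under `M̂(Ω)`.

Proof. `exists_conj_of_DG`: `h x h⁻¹ = y`. Let `Y = ρ.ev Ω x`, `q i = pj Ω p i`, `q' i = gm h⁻¹ * pj Ω p i * gm h`. `q` commutes with `Y` (`ev_eq_dg`-like: `x` is in
`ᴸM` up to `μ(c)`: `ev_incl_comm`, `ev_mul_cochar`, `Wts.dg`), `q'` commutes with `Y` since `pj` commutes with `ρ.ev Ω y`. `trace (q i * Y ^ b) ∈ K c ^ (i b)` by `htr`: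
`Y ^ b = (ρ.ev (incl x')) ^ b * (dg c) ^ b`, `q i * dg c ^ b = c ^ (i b) • q i`. `q' i` is killed by `∏ α ∈ Λ, (Y - α c ^ i)`: conjugate by `gm h`: `pj i * ∏ (ρ.ev y - α c ^ i)`, and
`ρ.ev y * pj i = c ^ i • M₀ * pj i` with `M₀` killed by `∏ α ∈ Λ, (X - α)` (`DG.exists_Lam`, `hm`). `proj_unique`: `q i = q' i`, so `gm h` commutes with `pj i`, `h = incl h'`
(`exists_incl_of_comm`), and `conj_of_conj_incl` gives the claim. -/
theorem match_levi [Algebra.FiniteType ℚ O] (hO : LinearlyReductive O) (hM : IsLevi A A' π μ)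
    {ρ : MatRep A n} (hρ : Faithful ρ) {J : Finset ℤ} {p : ℤ → Matrix (Fin n) (Fin n) ℚ}
    (hW : Wts μ ρ J p) {K Ω : Type} [Field K] [IsAlgClosed K] [CharZero K] [Algebra ℚ K]
    [Field Ω] [IsAlgClosed Ω] [Algebra ℚ Ω] [Algebra K Ω] (σ : Γ) (x' : Pts O' Ω) (m : Pts O' K)
    (c : Ωˣ) (hc : Transcendental K (c : Ω))
    (hv : ∀ f ∈ A.inv σ, (Pts.incl π x' * Pts.cochar μ c).hom f =
      (Pts.incl π (Pts.map (algebraMap K Ω).toRatAlgHom m) * Pts.cochar μ c).hom f)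
    (hx : DG (ρ.ev Ω (⟨Pts.incl π x' * Pts.cochar μ c, σ⟩ : A.LGroup Ω)))
    (hm : DG (ρ.ev K (⟨Pts.incl π m, σ⟩ : A.LGroup K)))
    (htr : ∀ i ∈ J, ∀ b : ℕ, 1 ≤ b → ∃ t : K,
      (pj Ω p i * (ρ.ev Ω (⟨Pts.incl π x', σ⟩ : A.LGroup Ω)) ^ b).trace = algebraMap K Ω t) :
    ∃ h' : Pts O' Ω, h' * x' * (A'.onPts Ω σ h')⁻¹ = Pts.map (algebraMap K Ω).toRatAlgHom m := by
  have hcne : (c : Ω) ≠ 0 := c.ne_zero
  have he : LD.Proj J (pj Ω p) := hW.proj Ω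
  set M₀ : Matrix (Fin n) (Fin n) Ω :=
    (ρ.ev K (⟨Pts.incl π m, σ⟩ : A.LGroup K)).map (algebraMap K Ω) with hM₀
  have hcommM : ∀ l ∈ J, pj Ω p l * M₀ = M₀ * pj Ω p l := by
    intro l hl
    have h1 := congrArg (fun N : Matrix (Fin n) (Fin n) K => N.map (algebraMap K Ω))
      (ev_incl_comm (R := K) hM hW m σ hl)
    simp only [Matrix.map_mul] at h1
    rw [pj_map (R := K) (S := Ω) p (algebraMap K Ω) l] at h1
    exact h1
  set x : A.LGroup Ω := ⟨Pts.incl π x' * Pts.cochar μ c, σ⟩ with hxdef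
  set y : A.LGroup Ω := ⟨Pts.incl π (Pts.map (algebraMap K Ω).toRatAlgHom m) * Pts.cochar μ c, σ⟩
    with hydef
  have hyev : ρ.ev Ω y = M₀ * LD.dg J (pj Ω p) (c : Ω) := ev_eq_dg hM hW m c y rfl
  have hy : DG (ρ.ev Ω y) := by
    rw [hyev]
    exact DG_twist hm he hcommM hc
  obtain ⟨h, hh⟩ := exists_conj_of_DG hO hρ x y rfl hv hx hy
  set Y : Matrix (Fin n) (Fin n) Ω := ρ.ev Ω x with hYdef
  set X' : Matrix (Fin n) (Fin n) Ω := ρ.ev Ω (⟨Pts.incl π x', σ⟩ : A.LGroup Ω) with hX'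
  have hYX : Y = X' * LD.dg J (pj Ω p) (c : Ω) := by
    rw [hYdef, hxdef, ev_mul_cochar hM, hW.dg]
  have hX'comm : ∀ l ∈ J, pj Ω p l * X' = X' * pj Ω p l := fun l hl =>
    ev_incl_comm hM hW x' σ hl
  have hdgc : ∀ l ∈ J, pj Ω p l * LD.dg J (pj Ω p) (c : Ω) =
      LD.dg J (pj Ω p) (c : Ω) * pj Ω p l := fun l hl => by
    rw [(he.e_mul_dg (c : Ω) hl).1, (he.e_mul_dg (c : Ω) hl).2]
  have hcommY : ∀ l ∈ J, pj Ω p l * Y = Y * pj Ω p l := by
    intro l hl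
    rw [hYX, ← mul_assoc, hX'comm l hl, mul_assoc, hdgc l hl, mul_assoc]
  have hcommy : ∀ l ∈ J, pj Ω p l * ρ.ev Ω y = ρ.ev Ω y * pj Ω p l := by
    intro l hl
    rw [hyev, ← mul_assoc, hcommM l hl, mul_assoc, hdgc l hl, mul_assoc]
  have hinv1 : ρ.gm h * ρ.gm h⁻¹ = 1 := ρ.gm_mul_inv h
  have hinv2 : ρ.gm h⁻¹ * ρ.gm h = 1 := ρ.gm_inv_mul h
  have hevinl : ∀ g : Pts O Ω, ρ.ev Ω (SemidirectProduct.inl g : A.LGroup Ω) = ρ.gm g := by
    intro g
    rw [MatRep.ev_apply, SemidirectProduct.left_inl, SemidirectProduct.right_inl, map_one, mul_one]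
  have hconj : ρ.gm h * Y * ρ.gm h⁻¹ = ρ.ev Ω y := by
    have h1 := congrArg (ρ.ev Ω) hh
    rw [map_mul, map_mul, ← map_inv (SemidirectProduct.inl : Pts O Ω →* A.LGroup Ω), hevinl,
      hevinl] at h1
    exact h1
  have hYy : Y = ρ.gm h⁻¹ * ρ.ev Ω y * ρ.gm h := by
    calc Y = (ρ.gm h⁻¹ * ρ.gm h) * Y * (ρ.gm h⁻¹ * ρ.gm h) := by rw [hinv2, one_mul, mul_one]
      _ = ρ.gm h⁻¹ * (ρ.gm h * Y * ρ.gm h⁻¹) * ρ.gm h := by simp only [mul_assoc]
      _ = _ := by rw [hconj]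
  set q' : ℤ → Matrix (Fin n) (Fin n) Ω := fun i => ρ.gm h⁻¹ * pj Ω p i * ρ.gm h with hq'def
  have hcm : ∀ B D : Matrix (Fin n) (Fin n) Ω,
      (ρ.gm h⁻¹ * B * ρ.gm h) * (ρ.gm h⁻¹ * D * ρ.gm h) = ρ.gm h⁻¹ * (B * D) * ρ.gm h := by
    intro B D
    calc (ρ.gm h⁻¹ * B * ρ.gm h) * (ρ.gm h⁻¹ * D * ρ.gm h)
        = ρ.gm h⁻¹ * B * (ρ.gm h * ρ.gm h⁻¹) * D * ρ.gm h := by simp only [mul_assoc]
      _ = _ := by rw [hinv1, mul_one]; simp only [mul_assoc]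
  have hq' : LD.Proj J q' := by
    refine ⟨fun i hi => ?_, fun i hi j hj hij => ?_, ?_⟩
    · simp only [hq'def]
      rw [hcm, he.idem i hi]
    · simp only [hq'def]
      rw [hcm, he.orth i hi j hj hij, mul_zero, zero_mul]
    · simp only [hq'def]
      rw [← Finset.sum_mul, ← Finset.mul_sum, he.sum_eq, mul_one, hinv2]
  have hq'Y : ∀ l ∈ J, q' l * Y = Y * q' l := by
    intro l hl
    rw [hYy]
    simp only [hq'def]
    rw [hcm, hcm, hcommy l hl]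
  have hYY' : Y * ρ.ev Ω x⁻¹ = 1 := by
    rw [hYdef, ← map_mul, mul_inv_cancel, map_one]
  have htr' : ∀ i ∈ J, ∀ b : ℕ, 1 ≤ b → ∃ t : K, (pj Ω p i * Y ^ b).trace =
      algebraMap K Ω t * (c : Ω) ^ (i * (b : ℤ)) := by
    intro i hi b hb
    obtain ⟨t, ht⟩ := htr i hi b hb
    refine ⟨t, ?_⟩
    rw [hYX, he.pow X' hX'comm (c : Ω) hcne b, Finset.mul_sum, Finset.sum_eq_single i]
    · rw [mul_smul_comm, ← mul_assoc, he.idem i hi, Matrix.trace_smul, ht, smul_eq_mul, mul_comm]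
    · intro j hj hji
      rw [mul_smul_comm, ← mul_assoc, he.orth i hi j hj (Ne.symm hji), zero_mul, smul_zero]
    · intro hi'
      exact absurd hi hi'
  obtain ⟨Λ, h0, hΛ⟩ := DG.exists_Lam hm Ω
  have hkill : ∀ i ∈ J, q' i * aeval Y (∏ α ∈ Λ, (X - Polynomial.C (algebraMap K Ω α * (c : Ω) ^ i))) = 0 := by
    intro i hi
    rw [X2_aeval_conj hinv1 hinv2 hYy]
    simp only [hq'def]
    rw [hcm, hyev, X2_kill he M₀ hcommM hi Λ (fun a => algebraMap K Ω a) hΛ, mul_zero, zero_mul]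
  have hqq := proj_unique hc he hq' Y (ρ.ev Ω x⁻¹) hYY' hcommY hq'Y htr' Λ h0 hkill
  obtain ⟨h', hh'⟩ := exists_incl_of_comm hM hρ hW h (fun l hl => by
    have h1 := hqq l hl
    simp only [hq'def] at h1
    calc pj Ω p l * ρ.gm h = (ρ.gm h * ρ.gm h⁻¹) * pj Ω p l * ρ.gm h := by rw [hinv1, one_mul]
      _ = ρ.gm h * (ρ.gm h⁻¹ * pj Ω p l * ρ.gm h) := by simp only [mul_assoc]
      _ = ρ.gm h * pj Ω p l := by rw [← h1])
  refine ⟨h', conj_of_conj_incl hM h' x' _ c σ ?_⟩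
  rw [hh']
  have h2 := congrArg SemidirectProduct.left hh
  rw [A.conj_inl_left] at h2
  exact h2

end Pool.Agent.Lib.MP_666dc0_nt.LV
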