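import Pool.Agent.Lib.MP_666dc0_nt.Defs

open NumberField IsDedekindDomain Topology
open scoped NumberField

namespace Pool.Agent.Lib.MP_666dc0_nt.LV

variable {F : Type} [Field F] [NumberField F]

/-- Different `N`-th roots of unity in `F̄` are different modulo a prime `P` not containing `N`.
Put `w = ζ * ζ'⁻¹ ≠ 1`, `w ^ N = 1`; then `∑_{i < N} w ^ i = 0`, and `w ≡ 1 mod P` would give `N ∈ P`. (`ζ, ζ'` are units of the ring of
integers; `ζ - ζ' = ζ' (w - 1)`.) -/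
theorem root_eq_of_mem {P : Ideal (𝓞 (AlgebraicClosure F))} (hP : P.IsPrime) {N : ℕ}
    (hN : (N : 𝓞 (AlgebraicClosure F)) ∉ P) {ζ ζ' : 𝓞 (AlgebraicClosure F)} (h : ζ ^ N = 1)
    (h' : ζ' ^ N = 1) (hm : ζ - ζ' ∈ P) : ζ = ζ' := by
  have hN0 : N ≠ 0 := by
    rintro rfl
    exact hN (by rw [Nat.cast_zero]; exact P.zero_mem)
  obtain ⟨M, rfl⟩ : ∃ M, N = M + 1 := Nat.exists_eq_succ_of_ne_zero hN0
  obtain ⟨w, hw⟩ : ∃ w, w = ζ * ζ' ^ M := ⟨_, rfl⟩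
  have hwN : w ^ (M + 1) = 1 := by
    rw [hw, mul_pow, h, one_mul, ← pow_mul, mul_comm, pow_mul, h', one_pow]
  have hw1 : w - 1 ∈ P := by
    have h1 : w - 1 = (ζ - ζ') * ζ' ^ M := by
      rw [hw, sub_mul, ← pow_succ' ζ' M, h']
    rw [h1]
    exact P.mul_mem_right _ hm
  by_contra hne
  have hw2 : w - 1 ≠ 0 := by
    intro h1
    apply hne
    have h2 : w = 1 := sub_eq_zero.1 h1
    calc ζ = ζ * ζ' ^ (M + 1) := by rw [h', mul_one]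
      _ = w * ζ' := by rw [hw, pow_succ]; ring
      _ = ζ' := by rw [h2, one_mul]
  have hsum : ∑ i ∈ Finset.range (M + 1), w ^ i = 0 := by
    have h1 := mul_geom_sum w (M + 1)
    rw [hwN, sub_self] at h1
    exact (mul_eq_zero.1 h1).resolve_left hw2
  apply hN
  have h2 : ((M + 1 : ℕ) : 𝓞 (AlgebraicClosure F)) =
      -∑ i ∈ Finset.range (M + 1), (w ^ i - 1) := by
    rw [Finset.sum_sub_distrib, hsum, Finset.sum_const, Finset.card_range, zero_sub, neg_neg,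
      nsmul_eq_mul, mul_one]
  rw [h2]
  refine P.neg_mem (P.sum_mem fun i _ => ?_)
  have h3 := sub_dvd_pow_sub_pow w 1 i
  rw [one_pow] at h3
  exact P.mem_of_dvd h3 hw1

private theorem Y1_not_mem {v : HeightOneSpectrum (𝓞 F)} {P : Ideal (𝓞 (AlgebraicClosure F))}
    (hP : IsOver v P) {ℓ : ℕ} (hℓ : (ℓ : 𝓞 F) ∉ v.asIdeal) (k : ℕ) :
    ((ℓ ^ k : ℕ) : 𝓞 (AlgebraicClosure F)) ∉ P := by
  intro h
  rw [Nat.cast_pow] at h
  have h1 : (ℓ : 𝓞 (AlgebraicClosure F)) ∈ P := hP.1.mem_of_pow_mem k h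
  apply hℓ
  rw [← hP.2, Ideal.mem_comap, map_natCast]
  exact h1

private theorem Y1_main {v : HeightOneSpectrum (𝓞 F)} {P : Ideal (𝓞 (AlgebraicClosure F))}
    (hP : IsOver v P) {σ : Gal(AlgebraicClosure F/F)} (m : ℕ)
    (hσ : ∀ x : 𝓞 (AlgebraicClosure F), σ • x - x ^ m ∈ P) {ℓ : ℕ}
    (hℓ : (ℓ : 𝓞 F) ∉ v.asIdeal) (k : ℕ) (ζ : AlgebraicClosure F) (hζ : ζ ^ (ℓ ^ k) = 1) :
    σ ζ = ζ ^ m := by
  have hℓ0 : ℓ ≠ 0 := by
    rintro rfl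
    exact hℓ (by rw [Nat.cast_zero]; exact v.asIdeal.zero_mem)
  have hint : IsIntegral ℤ ζ := by
    refine IsIntegral.of_pow (n := ℓ ^ k) (pow_pos (Nat.pos_of_ne_zero hℓ0) k) ?_
    rw [hζ]
    exact isIntegral_one
  obtain ⟨z, hz⟩ : ∃ z : 𝓞 (AlgebraicClosure F), z = ⟨ζ, hint⟩ := ⟨_, rfl⟩
  have hzc : (z : AlgebraicClosure F) = ζ := by rw [hz]; rfl
  have hzp : z ^ (ℓ ^ k) = 1 := by
    apply RingOfIntegers.ext
    rw [hz]
    show ζ ^ (ℓ ^ k) = 1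
    exact hζ
  have h1 : σ • z = z ^ m := by
    refine root_eq_of_mem hP.1 (Y1_not_mem hP hℓ k) ?_ ?_ (hσ z)
    · rw [← smul_pow', hzp, smul_one]
    · rw [← pow_mul, mul_comm, pow_mul, hzp, one_pow]
  have h2 := congrArg (fun y : 𝓞 (AlgebraicClosure F) => (y : AlgebraicClosure F)) h1
  have h3 : ((σ • z : 𝓞 (AlgebraicClosure F)) : AlgebraicClosure F) = σ (z : AlgebraicClosure F) :=
    rfl
  have h4 : ((z ^ m : 𝓞 (AlgebraicClosure F)) : AlgebraicClosure F) =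
      (z : AlgebraicClosure F) ^ m := rfl
  simp only [h3, h4, hzc] at h2
  exact h2

/-- A Frobenius element acts on roots of unity of order prime to `v` by raising to the power `N(v)`: `φ ζ - ζ ^ q ∈ P`, both are
`ℓ ^ k`-th roots of unity, `root_eq_of_mem`; `(ℓ : 𝓞 F) ∉ v.asIdeal` gives `(ℓ ^ k : 𝓞 F̄) ∉ P` (`IsOver`). -/
theorem frob_root {v : HeightOneSpectrum (𝓞 F)} {P : Ideal (𝓞 (AlgebraicClosure F))}
    (hP : IsOver v P) {σ : Gal(AlgebraicClosure F/F)} (hσ : IsFrob v P σ) {ℓ : ℕ}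
    (hℓ : (ℓ : 𝓞 F) ∉ v.asIdeal) (k : ℕ) (ζ : AlgebraicClosure F) (hζ : ζ ^ (ℓ ^ k) = 1) :
    σ ζ = ζ ^ Nat.card (𝓞 F ⧸ v.asIdeal) :=
  Y1_main hP _ hσ hℓ k ζ hζ

/-- Elements of the inertia group act trivially on roots of unity of order prime to `v`. -/
theorem inertia_root {v : HeightOneSpectrum (𝓞 F)} {P : Ideal (𝓞 (AlgebraicClosure F))}
    {u : Gal(AlgebraicClosure F/F)} (hu : IsInertiaAt v P u) {ℓ : ℕ}
    (hℓ : (ℓ : 𝓞 F) ∉ v.asIdeal) (k : ℕ) (ζ : AlgebraicClosure F) (hζ : ζ ^ (ℓ ^ k) = 1) :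
    u ζ = ζ := by
  have h1 := Y1_main hu.1 (σ := u) 1 (fun x => by rw [pow_one]; exact hu.2 x) hℓ k ζ hζ
  rwa [pow_one] at h1

end Pool.Agent.Lib.MP_666dc0_nt.LV
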