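import Mathlib

open NumberField IsDedekindDomain Topology
open scoped NumberField

namespace Pool.Agent.Lib.MP_666dc0_nt.LV

variable {F : Type} [Field F] [NumberField F]

/-- The cyclotomic character with values in `ℤ_ℓˣ`. Mathlib: `cyclotomicCharacter (AlgebraicClosure F) ℓ : (L ≃+* L) →* ℤ_[ℓ]ˣ`,
composed with `Gal(AlgebraicClosure F/F) → (AlgebraicClosure F ≃+* AlgebraicClosure F)` (`AlgEquiv.toRingEquiv`-like homomorphism,
`MulSemiringAction.toRingAut` or similar); `cyclotomicCharacter.spec`, `cyclotomicCharacter.continuous` (Mathlib/NumberTheory/Cyclotomic/CyclotomicCharacter.lean);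
`F̄` has enough roots of unity (algebraically closed, characteristic zero). -/
theorem exists_cyclo_int (ℓ : ℕ) [Fact ℓ.Prime] :
    ∃ ε : Gal(AlgebraicClosure F/F) →* ℤ_[ℓ]ˣ, Continuous ε ∧
      ∀ (g : Gal(AlgebraicClosure F/F)) (k : ℕ) (ζ : AlgebraicClosure F), ζ ^ (ℓ ^ k) = 1 →
        g ζ = ζ ^ (PadicInt.toZModPow k (ε g : ℤ_[ℓ])).val := by
  have hne : ∀ i : ℕ, NeZero (ℓ ^ i) := fun i => ⟨pow_ne_zero i (Fact.out : ℓ.Prime).ne_zero⟩
  refine ⟨(cyclotomicCharacter (AlgebraicClosure F) ℓ).comp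
    (MulSemiringAction.toRingAut Gal(AlgebraicClosure F/F) (AlgebraicClosure F)),
    cyclotomicCharacter.continuous ℓ F (AlgebraicClosure F), fun g k ζ hζ => ?_⟩
  exact cyclotomicCharacter.spec (L := AlgebraicClosure F) ℓ (n := k)
    (MulSemiringAction.toRingAut Gal(AlgebraicClosure F/F) (AlgebraicClosure F) g) ζ hζ

/-- The value of `ε` is determined by the action on roots of unity: if `g ζ = ζ ^ a` for all `ℓ ^ k`-th roots of unity
`ζ` and all `k` then `ε g = a` (`a` a natural number): `F̄` contains primitive `ℓ ^ k`-th roots of unity, so `a ≡ ε g mod ℓ ^ k` for all `k`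
(`PadicInt.ext_of_toZModPow`). -/
theorem cyclo_eq {ℓ : ℕ} [Fact ℓ.Prime] {ε : Gal(AlgebraicClosure F/F) →* ℤ_[ℓ]ˣ}
    (hε : ∀ (g : Gal(AlgebraicClosure F/F)) (k : ℕ) (ζ : AlgebraicClosure F), ζ ^ (ℓ ^ k) = 1 →
        g ζ = ζ ^ (PadicInt.toZModPow k (ε g : ℤ_[ℓ])).val) (g : Gal(AlgebraicClosure F/F)) (a : ℕ)
    (h : ∀ (k : ℕ) (ζ : AlgebraicClosure F), ζ ^ (ℓ ^ k) = 1 → g ζ = ζ ^ a) :
    (ε g : ℤ_[ℓ]) = a := by
  refine PadicInt.ext_of_toZModPow.mp fun n => ?_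
  have hne : NeZero (ℓ ^ n) := ⟨pow_ne_zero n (Fact.out : ℓ.Prime).ne_zero⟩
  obtain ⟨ζ, hζ⟩ := HasEnoughRootsOfUnity.exists_primitiveRoot (AlgebraicClosure F) (ℓ ^ n)
  have h4 : ζ ^ a = ζ ^ (PadicInt.toZModPow n (ε g : ℤ_[ℓ])).val := by
    rw [← h n ζ hζ.pow_eq_one, ← hε g n ζ hζ.pow_eq_one]
  have h5 : ζ ^ (a % ℓ ^ n) = ζ ^ a := by
    have h6 := pow_mod_orderOf ζ a
    rwa [← hζ.eq_orderOf] at h6
  have h7 := hζ.pow_inj (Nat.mod_lt a (Nat.pos_of_neZero _)) (ZMod.val_lt _) (h5.trans h4)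
  rw [map_natCast, ← ZMod.natCast_zmod_val (PadicInt.toZModPow n _), ← h7, ZMod.natCast_mod]

end Pool.Agent.Lib.MP_666dc0_nt.LV
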