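import Pool.Agent.Lib.MP_666dc0_nt.Mg.G053
import Pool.Agent.Lib.MP_666dc0_nt.LV.Y1
import Pool.Agent.Lib.MP_666dc0_nt.LV.Y2
import Pool.Agent.Lib.MP_666dc0_nt.LeviDefs

open NumberField IsDedekindDomain Topology
open scoped NumberField

namespace Pool.Agent.Lib.MP_666dc0_nt.LV

variable {F : Type} [Field F] [NumberField F]

/-- The cyclotomic character (or its inverse) as a continuous character with values in `ℚ̄_ℓˣ`, `s (φ v) = N(v)`.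
`s = ` image of `ε` (`exists_cyclo_int`) under `ℤ_ℓˣ → ℚ̄_ℓˣ` (continuous), if all `φ v` are arithmetic Frobenii (`frob_root`, `cyclo_eq`),
and `s = ε⁻¹` if all `φ v` are geometric (`ε ((φ v)⁻¹) = N(v)`). Inertia: `inertia_root` and `cyclo_eq` with `a = 1`. -/
theorem exists_cyclo (S : Finset (HeightOneSpectrum (𝓞 F)))
    (φ : HeightOneSpectrum (𝓞 F) → Gal(AlgebraicClosure F/F))
    (hφ : (∀ v, v ∉ S → ∃ P, IsOver v P ∧ IsFrob v P (φ v)) ∨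
      ∀ v, v ∉ S → ∃ P, IsOver v P ∧ IsFrob v P (φ v)⁻¹) (ℓ : ℕ) [Fact ℓ.Prime] :
    ∃ s : Gal(AlgebraicClosure F/F) →* (PadicAlgCl ℓ)ˣ,
      Continuous (fun γ => (s γ : PadicAlgCl ℓ)) ∧
      (∀ v, v ∉ S → (ℓ : 𝓞 F) ∉ v.asIdeal → s (φ v) = normUnit (PadicAlgCl ℓ) v) ∧
      ∀ v, (ℓ : 𝓞 F) ∉ v.asIdeal → ∀ P u, IsInertiaAt v P u → s u = 1 := by
  obtain ⟨ε, hεc, hε⟩ := exists_cyclo_int (F := F) ℓ
  obtain ⟨f, hf⟩ : ∃ f : ℤ_[ℓ] →+* PadicAlgCl ℓ, Continuous f := by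
    refine ⟨(algebraMap ℚ_[ℓ] (PadicAlgCl ℓ)).comp PadicInt.Coe.ringHom, ?_⟩
    have h1 : Continuous (algebraMap ℚ_[ℓ] (PadicAlgCl ℓ)) := continuous_algebraMap _ _
    exact h1.comp continuous_subtype_val
  obtain ⟨s₀, hs₀⟩ : ∃ s₀ : Gal(AlgebraicClosure F/F) →* (PadicAlgCl ℓ)ˣ,
      ∀ γ, (s₀ γ : PadicAlgCl ℓ) = f (ε γ : ℤ_[ℓ]) :=
    ⟨(Units.map f.toMonoidHom).comp ε, fun _ => rfl⟩
  have hs₀c : Continuous (fun γ => (s₀ γ : PadicAlgCl ℓ)) := by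
    simp only [hs₀]
    exact hf.comp (Units.continuous_val.comp hεc)
  have hfrob : ∀ v : HeightOneSpectrum (𝓞 F), (ℓ : 𝓞 F) ∉ v.asIdeal →
      ∀ (P : Ideal (𝓞 (AlgebraicClosure F))) (σ : Gal(AlgebraicClosure F/F)), IsOver v P →
        IsFrob v P σ → s₀ σ = normUnit (PadicAlgCl ℓ) v := by
    intro v hv P σ hP hσ
    have h1 := cyclo_eq hε σ (Nat.card (𝓞 F ⧸ v.asIdeal))
      (fun k ζ hζ => frob_root hP hσ hv k ζ hζ)
    refine Units.ext ?_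
    rw [hs₀, h1, map_natCast]
    rfl
  have hinert : ∀ v : HeightOneSpectrum (𝓞 F), (ℓ : 𝓞 F) ∉ v.asIdeal → ∀ P u,
      IsInertiaAt v P u → s₀ u = 1 := by
    intro v hv P u hu
    have h1 := cyclo_eq hε u 1 (fun k ζ hζ => by rw [pow_one]; exact inertia_root hu hv k ζ hζ)
    refine Units.ext ?_
    rw [hs₀, h1, Nat.cast_one, map_one, Units.val_one]
  rcases hφ with h | h
  · refine ⟨s₀, hs₀c, fun v hvS hv => ?_, hinert⟩
    obtain ⟨P, hP, hσ⟩ := h v hvS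
    exact hfrob v hv P _ hP hσ
  · refine ⟨s₀⁻¹, ?_, fun v hvS hv => ?_, fun v hv P u hu => ?_⟩
    · have h1 : (fun γ => ((s₀⁻¹ : Gal(AlgebraicClosure F/F) →* (PadicAlgCl ℓ)ˣ) γ :
          PadicAlgCl ℓ)) = (fun γ => (s₀ γ : PadicAlgCl ℓ)) ∘ fun γ => γ⁻¹ := by
        funext γ
        show (((s₀ γ)⁻¹ : (PadicAlgCl ℓ)ˣ) : PadicAlgCl ℓ) = (s₀ γ⁻¹ : PadicAlgCl ℓ)
        rw [map_inv]
      rw [h1]
      exact hs₀c.comp continuous_inv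
    · obtain ⟨P, hP, hσ⟩ := h v hvS
      have h1 := hfrob v hv P _ hP hσ
      rw [map_inv] at h1
      exact h1
    · show (s₀ u)⁻¹ = 1
      rw [hinert v hv P u hu, inv_one]

/-- `N(v) ≥ 2` has infinite order in a field of characteristic zero (`two_le_absNorm`, `card_quot_eq_absNorm`). -/
theorem normUnit_injective (K : Type) [Field K] [CharZero K] (v : HeightOneSpectrum (𝓞 F)) :
    Function.Injective fun k : ℤ => ((normUnit K v ^ k : Kˣ) : K) := by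
  have h2 : 2 ≤ Nat.card (𝓞 F ⧸ v.asIdeal) := by
    rw [card_quot_eq_absNorm]
    exact_mod_cast two_le_absNorm v
  have hv : ∀ k : ℤ, ((normUnit K v ^ k : Kˣ) : K) =
      (((Nat.card (𝓞 F ⧸ v.asIdeal) : ℚ) ^ k : ℚ) : K) := by
    intro k
    rw [Units.val_zpow_eq_zpow_val, Rat.cast_zpow, Rat.cast_natCast]
    rfl
  intro k j hkj
  simp only [hv] at hkj
  have h3 := Rat.cast_injective hkj
  have h4 : (1 : ℚ) < (Nat.card (𝓞 F ⧸ v.asIdeal) : ℚ) := by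
    exact_mod_cast (show 1 < Nat.card (𝓞 F ⧸ v.asIdeal) by omega)
  exact zpow_right_injective₀ (by linarith) h4.ne' h3

/-- Weak density. The elements `δ (φ v) ^ k δ⁻¹` are dense (`exists_frob_near` in IG/J2.lean, see the proof of `exists_theta` in
IG/J4.lean: a neighbourhood of `γ` contains `γ • M.fixingSubgroup`). -/
theorem dense_frob {S : Finset (HeightOneSpectrum (𝓞 F))}
    {φ : HeightOneSpectrum (𝓞 F) → Gal(AlgebraicClosure F/F)}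
    (hφ : ∀ v, v ∉ S → ∃ P : Ideal (𝓞 (AlgebraicClosure F)), IsOver v P ∧
      (IsFrob v P (φ v) ∨ IsFrob v P (φ v)⁻¹)) (ℓ : ℕ) (hℓ : 0 < ℓ) :
    Dense {w : Gal(AlgebraicClosure F/F) | ∃ v, v ∉ S ∧ (ℓ : 𝓞 F) ∉ v.asIdeal ∧
      ∃ (δ : Gal(AlgebraicClosure F/F)) (k : ℕ), w = δ * φ v ^ k * δ⁻¹} := by
  rw [dense_iff_inter_open]
  rintro V hV ⟨γ, hγ⟩
  have h1 : (fun u : Gal(AlgebraicClosure F/F) => γ * u) ⁻¹' V ∈ 𝓝 (1 : Gal(AlgebraicClosure F/F)) := by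
    refine (continuous_const_mul γ).continuousAt.preimage_mem_nhds ?_
    rw [mul_one]
    exact hV.mem_nhds hγ
  obtain ⟨E, hE, hEV⟩ := (krullTopology_mem_nhds_one_iff F (AlgebraicClosure F) _).1 h1
  obtain ⟨v, hv, hℓv, δ, k, hk⟩ := IG.exists_frob_near hφ ℓ hℓ E.fixingSubgroup
    (IntermediateField.fixingSubgroup_isOpen E) γ
  refine ⟨δ * φ v ^ k * δ⁻¹, ?_, v, hv, hℓv, δ, k, rfl⟩
  have h2 : γ * (γ⁻¹ * (δ * φ v ^ k * δ⁻¹)) ∈ V := hEV hk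
  rwa [mul_inv_cancel_left] at h2

end Pool.Agent.Lib.MP_666dc0_nt.LV
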