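import Pool.Agent.Lib.MP_666dc0_nt.LV.U1
import Pool.Agent.Lib.MP_666dc0_nt.LV.U2
import Pool.Agent.Lib.MP_666dc0_nt.LV.H3
import Pool.Agent.Lib.MP_666dc0_nt.LV.N1

open Polynomial LaurentPolynomial

namespace Pool.Agent.Lib.MP_666dc0_nt.LV

open Pool.Agent.Lib.MP_666dc0_nt.IG

variable {O O' : Type} [CommRing O] [HopfAlgebra ℚ O] [CommRing O'] [HopfAlgebra ℚ O'] {Γ : Type}
  [Group Γ] {A : HopfAction Γ O} {A' : HopfAction Γ O'} {π : O →ₐc[ℚ] O'}
  {μ : O →ₐc[ℚ] ℚ[T;T⁻¹]} {n : ℕ}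

/-- The ultraproduct of the `r k` and a minimal point with the same values. -/
theorem exists_ultra_point (hM : IsLevi A A' π μ) {ρ : MatRep A n} {G : Red n} (hG : IsRedG ρ G)
    (hρ : Faithful ρ) (TD : TensorData G) (hfin : (Set.range A.act).Finite) {J : Finset ℤ}
    {p : ℤ → Matrix (Fin n) (Fin n) ℚ} (hW : Wts μ ρ J p) {K : Type} [Field K] [IsAlgClosed K]
    [CharZero K] [Algebra ℚ K] (s : Γ →* Kˣ) {ι : Type} (φ : ι → Γ)
    (hinf : ∀ i, Function.Injective fun k : ℤ => ((s (φ i) ^ k : Kˣ) : K)) (m : ι → Pts O' K)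
    (hm : ∀ i, DG (ρ.ev K (⟨Pts.incl π (m i), φ i⟩ : A.LGroup K))) (Z : Set ℤ)
    (hZ : Z.Infinite) (r : ℤ → Γ →* A.LGroup K) (hr : ∀ k ∈ Z, ∀ γ, (r k γ).right = γ)
    (hss : ∀ k ∈ Z, ∀ i, A.IsSemisimpleElt (r k (φ i)))
    (hv : ∀ i, ∀ k ∈ Z, ∀ f ∈ A.inv (φ i),
      (r k (φ i)).left.hom f = (Pts.incl π (m i) * Pts.cochar μ (s (φ i) ^ k)).hom f) :
    ∃ (K1 Ω : Type) (_ : Field K1) (_ : CharZero K1) (_ : Field Ω) (_ : IsAlgClosed Ω)
      (_ : Algebra ℚ Ω) (_ : Algebra K1 Ω) (_ : Algebra K Ω) (V : Γ → O → K1)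
      (r₁ : Γ →* A.LGroup Ω) (c : Γ →* Ωˣ), IsMinPt ρ V Ω r₁ ∧
      (∀ i, Transcendental K (c (φ i) : Ω)) ∧
      (∀ r₂ : Γ →* A.LGroup Ω, HasVal A V Ω r₂ → ∀ (w : Γ) (D : K) (E : ℤ → K),
        (∀ k ∈ Z, D * (ρ.ev K (r k w)).trace = ∑ l ∈ J, E l * (s w : K) ^ (l * k)) →
        algebraMap K Ω D * (ρ.ev Ω (r₂ w)).trace = ∑ l ∈ J, (c w : Ω) ^ l * algebraMap K Ω (E l)) ∧
      (∀ r₂ : Γ →* A.LGroup Ω, HasVal A V Ω r₂ → ∀ i, ∀ f ∈ A.inv (φ i), (r₂ (φ i)).left.hom f =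
        (Pts.incl π (Pts.map (algebraMap K Ω).toRatAlgHom (m i)) *
          Pts.cochar μ (c (φ i))).hom f) ∧
      ∀ r₂ : Γ →* A.LGroup Ω, IsMinPt ρ V Ω r₂ → ∀ i, DG (ρ.ev Ω (r₂ (φ i))) := by
  classical
  have hZi : Infinite Z := hZ.to_subtype
  obtain ⟨K1, _, _, θ, hθ⟩ := exists_ultra Z K
  let algKK1 : Algebra K K1 := (θ.comp (Pi.constRingHom Z K)).toAlgebra
  have halg : ∀ x : K, algebraMap K K1 x = θ (fun _ => x) := fun x => rfl
  have hc0 : CharZero K1 := charZero_of_injective_algebraMap (algebraMap K K1).injective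
  obtain ⟨rE, hrE, hrE'⟩ := exists_prod_hom (fun z : Z => r z) (fun z γ => hr z z.2 γ)
  let rU : Γ →* A.LGroup K1 := (A.mapL θ.toRatAlgHom).comp rE
  have hrU : ∀ γ, (rU γ).right = γ := fun γ => by
    change (A.mapL θ.toRatAlgHom (rE γ)).right = γ
    rw [HopfAction.mapL_right, hrE]
  have hrUv : ∀ γ f, (rU γ).left.hom f = θ (fun z : Z => (r z γ).left.hom f) := fun γ f => by
    change θ ((rE γ).left.hom f) = _
    congr 1
    funext z
    exact hrE' z γ f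
  let V : Γ → O → K1 := fun γ f => (rU γ).left.hom f
  have hval : HasVal A V K1 rU := ⟨hrU, fun γ f _ => rfl⟩
  obtain ⟨Ω, _, _, _, r₁, hcl, hmin⟩ := exists_min ρ ⟨K1, _, _, _, rU, hval⟩
  let algKΩ : Algebra K Ω := ((algebraMap K1 Ω).comp (algebraMap K K1)).toAlgebra
  have htow : IsScalarTower K K1 Ω := IsScalarTower.of_algebraMap_eq (fun x => rfl)
  have halgΩ : ∀ x : K, algebraMap K Ω x = algebraMap K1 Ω (algebraMap K K1 x) := fun x => rfl
  obtain ⟨c₁, hc₁⟩ := exists_unit_hom (Z := Z) θ s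
  let c : Γ →* Ωˣ := (Units.map (algebraMap K1 Ω : K1 →* Ω)).comp c₁
  have hc : ∀ γ, (c γ : Ω) = algebraMap K1 Ω (c₁ γ : K1) := fun γ => rfl
  have htr1 : ∀ i, Transcendental K (c₁ (φ i) : K1) := fun i => by
    rw [hc₁]
    refine transcendental_ultra θ hθ halg ?_
    intro k k' hkk
    exact Subtype.ext (hinf i hkk)
  have htr : ∀ i, Transcendental K (c (φ i) : Ω) := fun i => by
    rw [hc, transcendental_algebraMap_iff (algebraMap K1 Ω).injective]
    exact htr1 i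
  have hev : ∀ γ i j, ρ.ev K1 (rU γ) i j = θ (fun z : Z => ρ.ev K (r z γ) i j) := fun γ i j => by
    change ρ.ev K1 (A.mapL θ.toRatAlgHom (rE γ)) i j = _
    rw [MatRep.ev_mapL]
    change θ (ρ.ev (Z → K) (rE γ) i j) = _
    congr 1
    funext z
    have h1 : (ρ.ev (Z → K) (rE γ)).map (Pi.evalAlgHom ℚ (fun _ : Z => K) z) = ρ.ev K (r z γ) := by
      rw [← MatRep.ev_mapL]
      congr 1
      refine SemidirectProduct.ext (Pts.ext (AlgHom.ext fun f => hrE' z γ f)) ?_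
      rw [HopfAction.mapL_right, hrE, hr z z.2]
    exact congrFun (congrFun h1 i) j
  refine ⟨K1, Ω, inferInstance, hc0, inferInstance, hcl, inferInstance, inferInstance, algKΩ, V, r₁,
    c, hmin, htr, ?_, ?_, ?_⟩
  · -- identity
    intro r₂ hr₂ w D E hDE
    have h1 : (ρ.ev Ω (r₂ w)).trace = algebraMap K1 Ω (ρ.ev K1 (rU w)).trace := by
      have h2 := ρ.trF_eval (r₂ w)
      rw [hr₂.proj w, hr₂.val w _ (ρ.trF_mem w)] at h2
      rw [← h2]
      congr 1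
      have h3 := ρ.trF_eval (rU w)
      rw [hrU w] at h3
      exact h3
    have h4 : (ρ.ev K1 (rU w)).trace = θ (fun z : Z => (ρ.ev K (r z w)).trace) := by
      have h5 : (fun z : Z => (ρ.ev K (r z w)).trace) = ∑ i, fun z : Z => ρ.ev K (r z w) i i := by
        funext z
        rw [Finset.sum_apply]
        rfl
      rw [h5, map_sum]
      exact Finset.sum_congr rfl fun i _ => hev w i i
    have h6 : algebraMap K K1 D * (ρ.ev K1 (rU w)).trace =
        ∑ l ∈ J, (c₁ w : K1) ^ l * algebraMap K K1 (E l) := by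
      have hcl' : ∀ l : ℤ, θ (fun z : Z => (s w : K) ^ (l * (z : ℤ))) = (c₁ w : K1) ^ l := by
        intro l
        have h8 := hc₁ (w ^ l)
        rw [map_zpow, Units.val_zpow_eq_zpow_val] at h8
        rw [h8]
        congr 1
        funext z
        rw [map_zpow, ← zpow_mul, Units.val_zpow_eq_zpow_val]
      rw [h4, halg, ← map_mul]
      have h7 : (fun _ : Z => D) * (fun z : Z => (ρ.ev K (r z w)).trace) =
          ∑ l ∈ J, (fun z : Z => (s w : K) ^ (l * (z : ℤ))) * (fun _ : Z => E l) := by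
        funext z
        rw [Pi.mul_apply, hDE z z.2, Finset.sum_apply]
        exact Finset.sum_congr rfl fun l _ => mul_comm _ _
      rw [h7, map_sum]
      refine Finset.sum_congr rfl fun l _ => ?_
      rw [map_mul, hcl']
      rfl
    rw [h1, halgΩ, ← map_mul, h6, map_sum]
    refine Finset.sum_congr rfl fun l _ => ?_
    rw [map_mul, map_zpow₀]
    rfl
  · intro r₂ hr₂ i f hf
    rw [hr₂.val (φ i) f hf]
    change algebraMap K1 Ω ((rU (φ i)).left.hom f) = _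
    rw [hrUv]
    have h1 : (fun z : Z => (r z (φ i)).left.hom f) =
        fun z : Z => (Pts.incl π (m i) * Pts.cochar μ (s (φ i) ^ (z : ℤ))).hom f := by
      funext z
      exact hv i z z.2 f hf
    rw [h1, value_ultra θ halg (m i) (fun z : Z => s (φ i) ^ (z : ℤ)) (c₁ (φ i)) (hc₁ (φ i)) f]
    change (Pts.map (algebraMap K1 Ω).toRatAlgHom (Pts.incl π
      (Pts.map (algebraMap K K1).toRatAlgHom (m i)) * Pts.cochar μ (c₁ (φ i)))).hom f = _
    rw [map_mul, incl_map, cochar_map]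
    rfl
  · intro r₂ hr₂ i
    refine DG_of_min ρ hG hρ TD hfin hr₂ rU hrU (fun γ f _ => rfl) (φ i) ?_
    obtain ⟨Λ, h0, hΛ⟩ := DG.exists_Lam (hm i) K
    have h2 := DG_ultra θ halg (fun z : Z => ρ.ev K (r z (φ i))) (fun z : Z => s (φ i) ^ (z : ℤ))
      (c₁ (φ i)) (hc₁ (φ i)) (htr1 i) Λ h0 J (fun z => by
        obtain ⟨q, hq1, hq2⟩ := exists_squarefree_ev ρ (exists_pow_act hfin _) (hss z z.2 i)
        refine aeval_of_values hM hW (r z (φ i)) (m i) (s (φ i) ^ (z : ℤ)) ?_ hq1 hq2 Λ ?_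
        · rw [hr z z.2]
          exact fun f hf => hv i z z.2 f hf
        · rw [hr z z.2]
          have e1 : (ρ.ev K (⟨Pts.incl π (m i), φ i⟩ : A.LGroup K)).map (algebraMap K K) =
              ρ.ev K (⟨Pts.incl π (m i), φ i⟩ : A.LGroup K) := by
            ext i j
            rfl
          rw [e1] at hΛ
          exact hΛ)
    have h3 : (Matrix.of fun a b => θ (fun z : Z => ρ.ev K (r z (φ i)) a b)) =
        ρ.ev K1 (rU (φ i)) := by
      ext a b
      exact (hev (φ i) a b).symm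
    rwa [h3] at h2

end Pool.Agent.Lib.MP_666dc0_nt.LV
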