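import Pool.Agent.Lib.MP_666dc0_nt.LV.Ht
import Pool.Agent.Lib.MP_666dc0_nt.LV.N3
import Pool.Agent.Lib.MP_666dc0_nt.LV.T1
import Pool.Agent.Lib.MP_666dc0_nt.LV.X1
import Pool.Agent.Lib.MP_666dc0_nt.LV.X2
import Pool.Agent.Lib.MP_666dc0_nt.LV.Z1

open Polynomial LaurentPolynomial

namespace Pool.Agent.Lib.MP_666dc0_nt.LV

open Pool.Agent.Lib.MP_666dc0_nt.IG

variable {O O' : Type} [CommRing O] [HopfAlgebra ℚ O] [CommRing O'] [HopfAlgebra ℚ O'] {Γ : Type}
  [Group Γ] {A : HopfAction Γ O} {A' : HopfAction Γ O'} {π : O →ₐc[ℚ] O'}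
  {μ : O →ₐc[ℚ] ℚ[T;T⁻¹]} {n : ℕ}

private theorem Z2_aeval_conj {R : Type} [CommRing R] {N : ℕ} (B B' M : Matrix (Fin N) (Fin N) R)
    (h1 : B * B' = 1) (h2 : B' * B = 1) (q : Polynomial R) :
    aeval (B' * M * B) q = B' * aeval M q * B := by
  induction q using Polynomial.induction_on' with
  | add p q hp hq => rw [map_add, map_add, hp, hq, mul_add, add_mul]
  | monomial k a =>
    have h3 : (B' * M * B) ^ k = B' * M ^ k * B := by
      induction k with
      | zero => rw [pow_zero, pow_zero, mul_one, h2]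
      | succ k ih =>
        rw [pow_succ, ih, pow_succ]
        calc B' * M ^ k * B * (B' * M * B) = B' * M ^ k * (B * B') * M * B := by
              simp only [mul_assoc]
          _ = B' * (M ^ k * M) * B := by rw [h1, mul_one]; simp only [mul_assoc]
    rw [aeval_monomial, aeval_monomial, h3, Algebra.algebraMap_eq_smul_one, smul_one_mul,
      smul_one_mul, mul_smul_comm, smul_mul_assoc]

private theorem Z2_aeval_map {K Ω : Type} [Field K] [Field Ω] [Algebra K Ω] {N : ℕ}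
    (M : Matrix (Fin N) (Fin N) K) (q : K[X]) (h : aeval M q = 0) :
    aeval (M.map (algebraMap K Ω)) (q.map (algebraMap K Ω)) = 0 := by
  have h1 : aeval (M.map (algebraMap K Ω)) (q.map (algebraMap K Ω)) =
      (aeval M q).map (algebraMap K Ω) := by
    rw [Polynomial.aeval_map_algebraMap, Polynomial.aeval_eq_sum_range,
      Polynomial.aeval_eq_sum_range]
    change _ = (RingHom.mapMatrix (algebraMap K Ω)) _
    rw [map_sum]
    refine Finset.sum_congr rfl fun i _ => ?_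
    rw [Algebra.smul_def, Algebra.smul_def, map_mul, map_pow]
    congr 1
    ext a b
    rw [RingHom.mapMatrix_apply, Matrix.map_apply, Matrix.algebraMap_matrix_apply,
      Matrix.algebraMap_matrix_apply]
    split_ifs <;> simp
  rw [h1, h]
  ext i j
  simp

/-- Levi descent for a compact group `Γ`. -/
theorem levi_abs [Algebra.FiniteType ℚ O] [TopologicalSpace Γ] [IsTopologicalGroup Γ]
    [CompactSpace Γ] (hO : LinearlyReductive O) (hO' : LinearlyReductive O')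
    (hA : IsOpen (A.act.ker : Set Γ)) (hM : IsLevi A A' π μ) {K : Type} [Field K] [IsAlgClosed K]
    [CharZero K] [Algebra ℚ K] [TopologicalSpace K] [IsTopologicalDivisionRing K] [T2Space K]
    (s : Γ →* Kˣ) (hs : Continuous fun γ => (s γ : K)) {ι : Type} (φ : ι → Γ)
    (hΦ : Dense {w : Γ | ∃ (i : ι) (δ : Γ) (a : ℕ), w = δ * φ i ^ a * δ⁻¹})
    (hinf : ∀ i, Function.Injective fun k : ℤ => ((s (φ i) ^ k : Kˣ) : K)) (m : ι → Pts O' K)
    (hm : ∀ i, A'.IsSemisimpleElt (⟨m i, φ i⟩ : A'.LGroup K)) (Z : Set ℤ)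
    (hZ : Z.Infinite) (r : ℤ → Γ →* A.LGroup K) (hr : ∀ k ∈ Z, ∀ γ, (r k γ).right = γ)
    (hc : ∀ k ∈ Z, ∀ f : O, Continuous fun γ => (r k γ).left.hom f)
    (hss : ∀ k ∈ Z, ∀ i, A.IsSemisimpleElt (r k (φ i)))
    (hv : ∀ i, ∀ k ∈ Z, ∀ f ∈ A.inv (φ i),
      (r k (φ i)).left.hom f = (Pts.incl π (m i) * Pts.cochar μ (s (φ i) ^ k)).hom f) :
    ∃ r' : Γ →* A'.LGroup K, (∀ γ, (r' γ).right = γ) ∧
      (∀ f, Continuous fun γ => (r' γ).left.hom f) ∧
      (∀ u, A.act u = 1 → s u = 1 → (∀ k ∈ Z, (r k u).left = 1) → (r' u).left = 1) ∧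
      ∀ i, A'.IsSemisimpleElt (r' (φ i)) ∧
        ∀ f ∈ A'.inv (φ i), (r' (φ i)).left.hom f = (m i).hom f := by
  classical
  obtain ⟨n, ρ, hρ⟩ := exists_faithful hA
  obtain ⟨G, hG⟩ := exists_redG ρ hO hρ
  obtain ⟨TD⟩ := exists_tensorData G
  have hfin := finite_range_act hA
  obtain ⟨J, p, hW⟩ := exists_wts (A := A) hM.fixed ρ
  obtain ⟨ρ', hρ'a, hρ'P⟩ := exists_restrict hM ρ
  have hρ' : Faithful ρ' := faithful_restrict hM hρ hρ'a
  have hA' : IsOpen (A'.act.ker : Set Γ) := isOpen_ker' hM hA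
  -- a place
  obtain ⟨w₀, i₀, -⟩ := hΦ.nonempty
  set σ₀ : Γ := φ i₀ with hσ₀def
  -- the family as a function on `Γ`
  let mσ : Γ → Pts O' K := fun σ => if h : ∃ i, φ i = σ then m h.choose else 1
  have hmσ : ∀ σ ∈ Set.range φ, ∀ k ∈ Z, ∀ f ∈ A.inv σ,
      (r k σ).left.hom f = (Pts.incl π (mσ σ) * Pts.cochar μ (s σ ^ k)).hom f := by
    intro σ hσ k hk f hf
    have h1 : ∃ i, φ i = σ := hσ
    have h2 : mσ σ = m h1.choose := dif_pos h1
    have h3 := hv h1.choose k hk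
    rw [h1.choose_spec] at h3
    rw [h2]
    exact h3 f hf
  -- the exponents
  obtain ⟨t, htZ, htc⟩ := hZ.exists_subset_card_eq J.card
  let kv : Fin J.card → ℤ := fun a => t.orderEmbOfFin htc a
  have hkv : ∀ b, kv b ∈ Z := fun b => htZ (Finset.orderEmbOfFin_mem t htc b)
  have hkvm : StrictMono kv := fun _ _ h => (t.orderEmbOfFin htc).strictMono h
  -- the functions `D`, `E`
  let D : Γ → K := fun w => (LD.vdm (jv J) kv (s w : K)).det
  let E : ℤ → Γ → K := fun l w => etaJ J kv (s w : K) (fun b => (ρ.ev K (r (kv b) w)).trace) l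
  have hDE : ∀ w, ∀ k ∈ Z, D w * (ρ.ev K (r k w)).trace = ∑ l ∈ J, E l w * (s w : K) ^ (l * k) :=
    fun w k hk => identityI hA hM hW r hr hc s hs (Set.range φ) mσ hmσ (by
      refine hΦ.mono ?_
      rintro w ⟨i, δ, a, rfl⟩
      exact ⟨φ i, ⟨i, rfl⟩, δ, a, rfl⟩) kv hkv k hk w
  have hsz : ∀ z : ℤ, Continuous fun γ => (s γ : K) ^ z := fun z => by
    have h1 : (fun γ => (s γ : K) ^ z) = (fun γ => (s γ : K)) ∘ fun γ => γ ^ z := by
      funext γ
      rw [Function.comp_apply, map_zpow, Units.val_zpow_eq_zpow_val]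
    rw [h1]
    exact hs.comp (continuous_zpow z)
  have hDc : Continuous D := continuous_det J kv (fun γ => (s γ : K)) hsz
  have hEc : ∀ l, Continuous (E l) := fun l =>
    continuous_etaJ J kv (fun γ => (s γ : K)) hsz (fun b γ => (ρ.ev K (r (kv b) γ)).trace)
      (fun b => continuous_trace_ev hA ρ (r (kv b)) (hr _ (hkv b)) (hc _ (hkv b))) l
  have hD0 : ∀ γ, {a : ℕ | D (σ₀ ^ a * γ) = 0}.Finite := fun γ => by
    have h1 := LD.finite_det_eq_zero (jv_strictMono J) hkvm (s σ₀ : K) (s γ : K) (s σ₀).ne_zero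
      (s γ).ne_zero (fun a ha h => by
        have h2 := @hinf i₀ (a : ℤ) 0 (by
          change ((s σ₀ ^ (a : ℤ) : Kˣ) : K) = ((s σ₀ ^ (0 : ℤ) : Kˣ) : K)
          rw [zpow_natCast, Units.val_pow_eq_pow_val, h, zpow_zero, Units.val_one])
        omega)
    refine h1.subset fun a ha => ?_
    change (LD.vdm (jv J) kv (s σ₀ ^ a * s γ : K)).det = 0
    have h3 : (LD.vdm (jv J) kv (s (σ₀ ^ a * γ) : K)).det = 0 := ha
    rwa [map_mul, map_pow, Units.val_mul, Units.val_pow_eq_pow_val] at h3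
  have hmDG : ∀ i, DG (ρ.ev K (⟨Pts.incl π (m i), φ i⟩ : A.LGroup K)) := fun i => by
    have h1 := DG_ev ρ' (exists_pow_act (finite_range_act hA') _) (hm i)
    rw [ev_restrict hρ'a hρ'P] at h1
    exact h1
  obtain ⟨K1, Ω, _, _, _, _, _, _, _, V, r₁, c, hmin₁, htr, hid, hval, hdg⟩ :=
    exists_ultra_point hM hG hρ TD hfin hW s φ hinf m hmDG Z hZ r hr hss hv
  -- conjugate to the standard form at `σ₀`
  obtain ⟨g, hg⟩ := exists_conj_of_DG hO hρ (r₁ σ₀)
    (⟨Pts.incl π (Pts.map (algebraMap K Ω).toRatAlgHom (m i₀)) * Pts.cochar μ (c σ₀), σ₀⟩ :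
      A.LGroup Ω) (hmin₁.val.proj σ₀) (by
        rw [hmin₁.val.proj σ₀]
        exact hval r₁ hmin₁.val i₀) (hdg r₁ hmin₁ i₀) (by
        rw [ev_eq_dg hM hW (m i₀) (c σ₀) _ rfl]
        refine DG_twist (hmDG i₀) (hW.proj Ω) ?_ (htr i₀)
        intro l hl
        have h1 := congrArg (fun M : Matrix (Fin n) (Fin n) K => M.map (algebraMap K Ω))
          (ev_incl_comm hM hW (m i₀) σ₀ hl)
        rw [Matrix.map_mul, Matrix.map_mul, pj_map] at h1
        exact h1)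
  obtain ⟨r₂, hmin, hr₂⟩ := exists_conj_min ρ hmin₁ g
  have hr₂σ : (r₂ σ₀).left = Pts.incl π (Pts.map (algebraMap K Ω).toRatAlgHom (m i₀)) *
      Pts.cochar μ (c σ₀) := by
    rw [hr₂ σ₀, hg]
  have hidw : ∀ w, algebraMap K Ω (D w) * (ρ.ev Ω (r₂ w)).trace =
      ∑ l ∈ J, (c w : Ω) ^ l * algebraMap K Ω (E l w) := fun w =>
    hid r₂ hmin.val w (D w) (fun l => E l w) (hDE w)
  have hDch : ∀ γ δ, (fun x : NN => algebraMap K Ω (D (wd σ₀ γ δ x))) ∈ LD.CH NN K Ω :=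
    fun γ δ => det_wd_mem J kv s σ₀ γ δ
  have hEch : ∀ l, ∀ γ δ, (fun x : NN => algebraMap K Ω (E l (wd σ₀ γ δ x))) ∈ LD.CH NN K Ω :=
    fun l γ δ => eta_wd_mem J kv s (fun b => (ρ.ev K).comp (r (kv b))) σ₀ γ δ
      (fun b => DG_ev ρ (exists_pow_act hfin _) (hss _ (hkv b) i₀)) l
  have hcomm := heart_comm hM hG hρ TD hW hmin σ₀ (m i₀) c (htr i₀) hr₂σ (hmDG i₀) D E hidw
    hD0 hDch hEch
  obtain ⟨r', hr', hrr'⟩ := exists_levi_hom hM hρ hW r₂ hmin.val.proj hcomm c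
  have htrace := heart_trace hM hW hmin.val.proj σ₀ (m i₀) c (htr i₀) hr₂σ (hmDG i₀) D E
    hidw hDch hEch r' hr' hrr'
  have hθ : ∀ l : ℤ, ∃ θ : Γ → K, l ∈ J → (Continuous θ ∧ (∀ γ, algebraMap K Ω (θ γ) =
      (pj Ω p l * ρ.ev Ω (⟨Pts.incl π (r' γ).left, γ⟩ : A.LGroup Ω)).trace) ∧
      ∀ u, (∀ w, D (w * u) = D w ∧ E l (w * u) = E l w) → ∀ γ, θ (γ * u) = θ γ) := by
    intro l
    by_cases hl : l ∈ J
    · obtain ⟨θ, hθ⟩ := exists_theta σ₀ (hmDG i₀)
        (fun γ => pj Ω p l * ρ.ev Ω (⟨Pts.incl π (r' γ).left, γ⟩ : A.LGroup Ω)) D (E l) hDc (hEc l)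
        hD0 (fun γ a => htrace γ a hl)
      exact ⟨θ, fun _ => hθ⟩
    · exact ⟨fun _ => 0, fun h => absurd h hl⟩
  choose θ hθ using hθ
  let Θ : Γ → K := fun γ => ∑ l ∈ J, θ l γ
  have hΘc : Continuous Θ := continuous_finsetSum _ fun l hl => (hθ l hl).1
  have hsum : ∑ l ∈ J, pj Ω p l = 1 := (hW.proj Ω).sum_eq
  have hev' : ∀ γ, ρ'.ev Ω (r' γ) = ρ.ev Ω (⟨Pts.incl π (r' γ).left, γ⟩ : A.LGroup Ω) := fun γ => by
    rw [ev_restrict hρ'a hρ'P, hr' γ]
  have hΘ : ∀ γ, algebraMap K Ω (Θ γ) = (ρ'.ev Ω (r' γ)).trace := fun γ => by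
    change algebraMap K Ω (∑ l ∈ J, θ l γ) = _
    rw [map_sum, hev', Finset.sum_congr rfl fun l hl => (hθ l hl).2.1 γ, ← Matrix.trace_sum,
      ← Finset.sum_mul, hsum, one_mul]
  obtain ⟨rK, hrK, hrKc, hrKv, hrKu, hrKs⟩ := descend_trace ρ' hA' hO' hρ' r' hr' Θ hΘc hΘ
  refine ⟨rK, hrK, hrKc, ?_, ?_⟩
  · intro u hu hsu hru
    have hu' : A'.act u = 1 := by
      ext f
      obtain ⟨f, rfl⟩ := hM.surj f
      rw [← hM.act, hu]
      rfl
    have key : ∀ u : Γ, A.act u = 1 → s u = 1 → (∀ k ∈ Z, (r k u).left = 1) →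
        ∀ γ, Θ (γ * u) = Θ γ := by
      intro u hu hsu hru γ
      refine Finset.sum_congr rfl fun l hl => (hθ l hl).2.2 u (fun w => ?_) γ
      have h1 : s (w * u) = s w := by rw [map_mul, hsu, mul_one]
      have h2 : ∀ b, (ρ.ev K (r (kv b) (w * u))).trace = (ρ.ev K (r (kv b) w)).trace := by
        intro b
        rw [map_mul, map_mul, ρ.ev_eq_one (hru _ (hkv b)) (by rw [hr _ (hkv b)]; exact hu), mul_one]
      constructor
      · change (LD.vdm (jv J) kv (s (w * u) : K)).det = _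
        rw [h1]
      · change etaJ J kv (s (w * u) : K) (fun b => (ρ.ev K (r (kv b) (w * u))).trace) l = _
        simp only [h1, h2]
        rfl
    refine hrKu u hu' (key u hu hsu hru) (key u⁻¹ ?_ ?_ ?_)
    · rw [map_inv, hu, inv_one]
    · rw [map_inv, hsu, inv_one]
    · intro k hk
      rw [map_inv, SemidirectProduct.inv_left, hru k hk, inv_one, map_one]
  · intro i
    set σ : Γ := φ i with hσdef
    have hx : (⟨Pts.incl π (r' σ).left * Pts.cochar μ (c σ), σ⟩ : A.LGroup Ω) = r₂ σ := by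
      refine SemidirectProduct.ext (hrr' σ).symm ?_
      exact (hmin.val.proj σ).symm
    obtain ⟨h', hh'⟩ := match_levi hO hM hρ hW σ (r' σ).left (m i) (c σ) (htr i) (by
        rw [← hrr']
        exact hval r₂ hmin.val i) (by
        rw [hx]
        exact hdg r₂ hmin i) (hmDG i) (by
        intro l hl b _
        refine ⟨θ l (σ ^ b), ?_⟩
        rw [(hθ l hl).2.1, ← hev', ← hev', map_pow, map_pow])
    have hvalM : ∀ f ∈ A'.inv σ, (r' σ).left.hom f = algebraMap K Ω ((m i).hom f) := by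
      intro f hf
      have h1 := A'.mem_inv.1 hf Ω h' (r' σ).left
      rw [hh'] at h1
      exact h1.symm
    constructor
    · obtain ⟨q, hq1, hq2⟩ := exists_squarefree_ev ρ'
        (exists_pow_act (finite_range_act hA') _) (hm i)
      refine hrKs σ q hq1 ?_
      have h1 : SemidirectProduct.inl h' * r' σ * (SemidirectProduct.inl h')⁻¹ =
          A'.mapL (algebraMap K Ω).toRatAlgHom (⟨m i, σ⟩ : A'.LGroup K) := by
        refine SemidirectProduct.ext ?_ ?_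
        · rw [A'.conj_inl_left, hr' σ, hh']
          rfl
        · simp [hr' σ]
      have h2 : ρ'.ev Ω (r' σ) = ρ'.ev Ω (SemidirectProduct.inl h')⁻¹ *
          (ρ'.ev K (⟨m i, σ⟩ : A'.LGroup K)).map (algebraMap K Ω) *
          ρ'.ev Ω (SemidirectProduct.inl h') := by
        have h3 := ρ'.ev_mapL (algebraMap K Ω).toRatAlgHom (⟨m i, σ⟩ : A'.LGroup K)
        change _ = (ρ'.ev K (⟨m i, σ⟩ : A'.LGroup K)).map (algebraMap K Ω) at h3
        rw [← h3, ← h1, ← map_mul, ← map_mul]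
        congr 1
        group
      have h4 : ρ'.ev Ω (SemidirectProduct.inl h') * ρ'.ev Ω (SemidirectProduct.inl h')⁻¹ = 1 := by
        rw [← map_mul, mul_inv_cancel, map_one]
      have h5 : ρ'.ev Ω (SemidirectProduct.inl h')⁻¹ * ρ'.ev Ω (SemidirectProduct.inl h') = 1 := by
        rw [← map_mul, inv_mul_cancel, map_one]
      rw [h2, Z2_aeval_conj _ _ _ h4 h5, Z2_aeval_map _ _ hq2, mul_zero, zero_mul]
    · intro f hf
      apply (algebraMap K Ω).injective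
      rw [hrKv σ f hf]
      exact hvalM f hf

end Pool.Agent.Lib.MP_666dc0_nt.LV
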