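import Pool.Agent.Lib.MP_666dc0_nt.LV.Z2
import Pool.Agent.Lib.MP_666dc0_nt.LV.Y3
import Pool.Agent.Lib.MP_666dc0_nt.LV.E1

open NumberField IsDedekindDomain LaurentPolynomial
open scoped NumberField

namespace Pool.Agent.Lib.MP_666dc0_nt.LV

open Pool.Agent.Lib.MP_666dc0_nt.IG

variable {F : Type} [Field F] [NumberField F]

theorem frob_or {S : Finset (HeightOneSpectrum (𝓞 F))}
    {φ : HeightOneSpectrum (𝓞 F) → Gal(AlgebraicClosure F/F)}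
    (hφ : (∀ v, v ∉ S → ∃ P, IsOver v P ∧ IsFrob v P (φ v)) ∨
      ∀ v, v ∉ S → ∃ P, IsOver v P ∧ IsFrob v P (φ v)⁻¹) :
    ∀ v, v ∉ S → ∃ P : Ideal (𝓞 (AlgebraicClosure F)), IsOver v P ∧
      (IsFrob v P (φ v) ∨ IsFrob v P (φ v)⁻¹) := by
  intro v hv
  rcases hφ with h | h
  · obtain ⟨P, h1, h2⟩ := h v hv
    exact ⟨P, h1, Or.inl h2⟩
  · obtain ⟨P, h1, h2⟩ := h v hv
    exact ⟨P, h1, Or.inr h2⟩

/-- The `ℓ`-adic theorem, hard direction. -/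
theorem levi_adic {O O' : Type} [CommRing O] [HopfAlgebra ℚ O] [Algebra.FiniteType ℚ O] [CommRing O']
    [HopfAlgebra ℚ O'] (hO : LinearlyReductive O) (hO' : LinearlyReductive O')
    (A : HopfAction Gal(AlgebraicClosure F/F) O) (A' : HopfAction Gal(AlgebraicClosure F/F) O')
    (hA : IsOpen (A.act.ker : Set Gal(AlgebraicClosure F/F)))
    (π : O →ₐc[ℚ] O') (μ : O →ₐc[ℚ] ℚ[T;T⁻¹]) (hM : IsLevi A A' π μ)
    (S : Finset (HeightOneSpectrum (𝓞 F)))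
    (hS : ∀ v, v ∉ S → ∀ P u, IsInertiaAt v P u → A.act u = 1)
    (φ : HeightOneSpectrum (𝓞 F) → Gal(AlgebraicClosure F/F))
    (hφ : (∀ v, v ∉ S → ∃ P, IsOver v P ∧ IsFrob v P (φ v)) ∨
      ∀ v, v ∉ S → ∃ P, IsOver v P ∧ IsFrob v P (φ v)⁻¹)
    (ℓ : ℕ) [Fact ℓ.Prime] (m : ∀ _ : HeightOneSpectrum (𝓞 F), Pts O' (PadicAlgCl ℓ))
    (hm : ∀ v, v ∉ S → (ℓ : 𝓞 F) ∉ v.asIdeal →
      A'.IsSemisimpleElt (⟨m v, φ v⟩ : A'.LGroup (PadicAlgCl ℓ)))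
    (hk : {k : ℤ | HasRep A S φ ℓ fun v => A.cls (φ v)
      (Pts.incl π (m v) * Pts.cochar μ (normUnit (PadicAlgCl ℓ) v ^ k))}.Infinite) :
    HasRep A' S φ ℓ fun v => A'.cls (φ v) (m v) := by
  classical
  obtain ⟨s, hs, hsφ, hsu⟩ := exists_cyclo S φ hφ ℓ
  set Z : Set ℤ := {k : ℤ | HasRep A S φ ℓ fun v => A.cls (φ v)
    (Pts.incl π (m v) * Pts.cochar μ (normUnit (PadicAlgCl ℓ) v ^ k))} with hZ
  have hch : ∀ k : ℤ, ∃ r : Gal(AlgebraicClosure F/F) →* A.LGroup (PadicAlgCl ℓ), k ∈ Z →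
      (IsAdmissible A r ∧ ∀ v, v ∉ S → (ℓ : 𝓞 F) ∉ v.asIdeal → IsConjAt A r v (φ v)
        (A.cls (φ v) (Pts.incl π (m v) * Pts.cochar μ (normUnit (PadicAlgCl ℓ) v ^ k)))) := by
    intro k
    by_cases hk : k ∈ Z
    · obtain ⟨r, hr⟩ := hk
      exact ⟨r, fun _ => hr⟩
    · exact ⟨SemidirectProduct.inr, fun h => absurd h hk⟩
  choose r hr using hch
  let ι : Type := {v : HeightOneSpectrum (𝓞 F) // v ∉ S ∧ (ℓ : 𝓞 F) ∉ v.asIdeal}
  obtain ⟨r', h1, h2, h3, h4⟩ := levi_abs (A := A) (A' := A') hO hO' hA hM s hs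
    (fun i : ι => φ i.1) (by
      refine (dense_frob (frob_or hφ) ℓ (Fact.out : ℓ.Prime).pos).mono ?_
      rintro w ⟨v, hv, hv', δ, k, rfl⟩
      exact ⟨⟨v, hv, hv'⟩, δ, k, rfl⟩)
    (fun i => by
      rw [hsφ i.1 i.2.1 i.2.2]
      exact normUnit_injective (PadicAlgCl ℓ) i.1)
    (fun i => m i.1) (fun i => hm i.1 i.2.1 i.2.2) Z hk r (fun k hk => (hr k hk).1.proj)
    (fun k hk => (hr k hk).1.cont) (fun k hk i => ((hr k hk).2 i.1 i.2.1 i.2.2).semisimple)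
    (fun i k hk f hf => by
      rw [hsφ i.1 i.2.1 i.2.2]
      exact ((hr k hk).2 i.1 i.2.1 i.2.2).value ⟨f, hf⟩)
  refine ⟨r', ⟨h1, h2⟩, fun v hv hvℓ => ⟨fun P u hu => ?_, ?_, ?_⟩⟩
  · exact h3 u (hS v hv P u hu) (hsu v hvℓ P u hu)
      fun k hk => ((hr k hk).2 v hv hvℓ).unram P u hu
  · exact (h4 ⟨v, hv, hvℓ⟩).1
  · intro f
    exact (h4 ⟨v, hv, hvℓ⟩).2 f f.2

/-- The `ℓ`-adic theorem, easy direction. -/
theorem levi_adic_easy {O O' : Type} [CommRing O] [HopfAlgebra ℚ O] [Algebra.FiniteType ℚ O]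
    [CommRing O'] [HopfAlgebra ℚ O']
    (A : HopfAction Gal(AlgebraicClosure F/F) O) (A' : HopfAction Gal(AlgebraicClosure F/F) O')
    (hA : IsOpen (A.act.ker : Set Gal(AlgebraicClosure F/F)))
    (π : O →ₐc[ℚ] O') (μ : O →ₐc[ℚ] ℚ[T;T⁻¹]) (hM : IsLevi A A' π μ)
    (S : Finset (HeightOneSpectrum (𝓞 F)))
    (φ : HeightOneSpectrum (𝓞 F) → Gal(AlgebraicClosure F/F))
    (hφ : (∀ v, v ∉ S → ∃ P, IsOver v P ∧ IsFrob v P (φ v)) ∨
      ∀ v, v ∉ S → ∃ P, IsOver v P ∧ IsFrob v P (φ v)⁻¹)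
    (ℓ : ℕ) [Fact ℓ.Prime] (x : ∀ v, A'.inv (φ v) →+* PadicAlgCl ℓ) (k : ℤ)
    (y : ∀ v, A.inv (φ v) →+* PadicAlgCl ℓ)
    (hy : ∀ v, v ∉ S → (ℓ : 𝓞 F) ∉ v.asIdeal → ∀ g : Pts O' (PadicAlgCl ℓ), A'.cls (φ v) g = x v →
      A.cls (φ v) (Pts.incl π g * Pts.cochar μ (normUnit (PadicAlgCl ℓ) v ^ k)) = y v)
    (h : HasRep A' S φ ℓ x) : HasRep A S φ ℓ y := by
  classical
  obtain ⟨s, hs, hsφ, hsu⟩ := exists_cyclo S φ hφ ℓ
  obtain ⟨r', hr', hr'v⟩ := h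
  obtain ⟨r, hr, hrl⟩ := exists_twisted_hom hM r' hr'.proj ((zpowGroupHom k).comp s)
  have hsc : Continuous fun γ => (s γ : PadicAlgCl ℓ) ^ k := by
    have h1 : (fun γ => (s γ : PadicAlgCl ℓ) ^ k) = (fun γ => (s γ : PadicAlgCl ℓ)) ∘
        fun γ => γ ^ k := by
      funext γ
      rw [Function.comp_apply, map_zpow, Units.val_zpow_eq_zpow_val]
    rw [h1]
    exact hs.comp (continuous_zpow k)
  have hsc' : Continuous fun γ => (s γ : PadicAlgCl ℓ) ^ (-k) := by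
    have h1 : (fun γ => (s γ : PadicAlgCl ℓ) ^ (-k)) = (fun γ => (s γ : PadicAlgCl ℓ)) ∘
        fun γ => γ ^ (-k) := by
      funext γ
      rw [Function.comp_apply, map_zpow, Units.val_zpow_eq_zpow_val]
    rw [h1]
    exact hs.comp (continuous_zpow (-k))
  refine ⟨r, ⟨hr, fun f => ?_⟩, fun v hv hvℓ => ⟨fun P u hu => ?_, ?_, ?_⟩⟩
  · have h1 : (fun γ => (r γ).left.hom f) = fun γ =>
        (Pts.incl π (r' γ).left * Pts.cochar μ (s γ ^ k)).hom f := by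
      funext γ
      rw [hrl γ]
      rfl
    rw [h1]
    refine continuous_incl_cochar π μ (fun γ => (r' γ).left) hr'.cont (fun γ => s γ ^ k) ?_ ?_ f
    · simpa only [Units.val_zpow_eq_zpow_val] using hsc
    · have h2 : (fun γ => (((s γ ^ k)⁻¹ : (PadicAlgCl ℓ)ˣ) : PadicAlgCl ℓ)) =
          fun γ => (s γ : PadicAlgCl ℓ) ^ (-k) := by
        funext γ
        rw [← zpow_neg, Units.val_zpow_eq_zpow_val]
      rw [h2]
      exact hsc'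
  · rw [hrl u]
    change Pts.incl π (r' u).left * Pts.cochar μ (s u ^ k) = 1
    rw [(hr'v v hv hvℓ).unram P u hu, hsu v hvℓ P u hu, one_zpow, cochar_one, incl_one, mul_one]
  · have h1 := isSemisimpleElt_incl_cochar hM (finite_range_act hA) (r' (φ v))
      (hr'v v hv hvℓ).semisimple (s (φ v) ^ k)
    have h2 : (⟨Pts.incl π (r' (φ v)).left * Pts.cochar μ (s (φ v) ^ k), (r' (φ v)).right⟩ :
        A.LGroup (PadicAlgCl ℓ)) = r (φ v) := by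
      refine SemidirectProduct.ext (hrl (φ v)).symm ?_
      rw [hr (φ v)]
      exact hr'.proj (φ v)
    rwa [h2] at h1
  · intro f
    have h1 : A'.cls (φ v) (r' (φ v)).left = x v := by
      ext f
      exact (hr'v v hv hvℓ).value f
    rw [← hy v hv hvℓ _ h1, hrl (φ v)]
    change _ = (Pts.incl π (r' (φ v)).left * Pts.cochar μ (normUnit (PadicAlgCl ℓ) v ^ k)).hom f
    rw [← hsφ v hv hvℓ]
    rfl

end Pool.Agent.Lib.MP_666dc0_nt.LV
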