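import Pool.Agent.Lib.MP_666dc0_nt.LV.Z3
import Pool.Agent.Lib.MP_666dc0_nt.LV.G1
import Pool.Agent.Lib.MP_666dc0_nt.FieldOfDef

open NumberField IsDedekindDomain LaurentPolynomial
open scoped NumberField

namespace Pool.Agent.Lib.MP_666dc0_nt.LV

open Pool.Agent.Lib.MP_666dc0_nt.IG

variable {F : Type} [Field F] [NumberField F]

theorem units_map_normUnit {K L : Type} [Field K] [CharZero K] [Field L] [CharZero L] (ι : K →+* L)
    (v : HeightOneSpectrum (𝓞 F)) (k : ℤ) :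
    Units.map (ι : K →* L) (normUnit K v ^ k) = normUnit L v ^ k := by
  rw [map_zpow]
  congr 1
  ext
  change ι (Nat.card (𝓞 F ⧸ v.asIdeal) : K) = (Nat.card (𝓞 F ⧸ v.asIdeal) : L)
  exact map_natCast ι _

/-- (1) ⇒ (2). -/
theorem levi_one_two {O O' : Type} [CommRing O] [HopfAlgebra ℚ O] [Algebra.FiniteType ℚ O]
    [CommRing O'] [HopfAlgebra ℚ O']
    (A : HopfAction Gal(AlgebraicClosure F/F) O) (A' : HopfAction Gal(AlgebraicClosure F/F) O')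
    (hA : IsOpen (A.act.ker : Set Gal(AlgebraicClosure F/F)))
    (π : O →ₐc[ℚ] O') (μ : O →ₐc[ℚ] ℚ[T;T⁻¹]) (hM : IsLevi A A' π μ)
    (S : Finset (HeightOneSpectrum (𝓞 F)))
    (φ : HeightOneSpectrum (𝓞 F) → Gal(AlgebraicClosure F/F))
    (hφ : (∀ v, v ∉ S → ∃ P, IsOver v P ∧ IsFrob v P (φ v)) ∨
      ∀ v, v ∉ S → ∃ P, IsOver v P ∧ IsFrob v P (φ v)⁻¹)
    (m : ∀ _ : HeightOneSpectrum (𝓞 F), Pts O' ℂ) (Λ : Set ℕ)
    (h : SatisfiesQ1 A' S φ Λ fun v => A'.cls (φ v) (m v)) (k : ℤ) :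
    SatisfiesQ1 A S φ Λ fun v =>
      A.cls (φ v) (Pts.incl π (m v) * Pts.cochar μ (normUnit ℂ v ^ k)) := by
  obtain ⟨E, hE, t, ht, hr⟩ := h
  choose θ hθ using fun v => exists_twist_fun hM (φ v) (normUnit ℚ v ^ k)
  refine ⟨E, hE, fun v => (t v).comp (θ v : A.inv (φ v) →+* A'.inv (φ v)), ?_, ?_⟩
  · intro v hv hv' f
    change ((t v (θ v f) : E) : ℂ) = (Pts.incl π (m v) * Pts.cochar μ (normUnit ℂ v ^ k)).hom f
    rw [ht v hv hv']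
    have h1 := hθ v ℂ (m v) f
    rw [units_map_normUnit] at h1
    exact h1.symm
  · intro ℓ _ hℓ ι
    refine levi_adic_easy A A' hA π μ hM S φ hφ ℓ (fun v => ι.comp (t v)) k _ ?_ (hr ℓ hℓ ι)
    intro v hv hvℓ g hg
    ext f
    change (Pts.incl π g * Pts.cochar μ (normUnit (PadicAlgCl ℓ) v ^ k)).hom f = ι (t v (θ v f))
    have h1 := hθ v (PadicAlgCl ℓ) g f
    rw [units_map_normUnit] at h1
    rw [h1]
    exact congrArg (fun ψ : A'.inv (φ v) →+* PadicAlgCl ℓ => ψ (θ v f)) hg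

/-- (2) ⇒ (3). -/
theorem levi_two_three {O O' : Type} [CommRing O] [HopfAlgebra ℚ O]
    [CommRing O'] [HopfAlgebra ℚ O']
    (A : HopfAction Gal(AlgebraicClosure F/F) O)
    (π : O →ₐc[ℚ] O') (μ : O →ₐc[ℚ] ℚ[T;T⁻¹])
    (S : Finset (HeightOneSpectrum (𝓞 F)))
    (φ : HeightOneSpectrum (𝓞 F) → Gal(AlgebraicClosure F/F))
    (m : ∀ _ : HeightOneSpectrum (𝓞 F), Pts O' ℂ) (Λ : Set ℕ)
    (h : ∀ k : ℤ, SatisfiesQ1 A S φ Λ fun v =>
      A.cls (φ v) (Pts.incl π (m v) * Pts.cochar μ (normUnit ℂ v ^ k)))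
    (ℓ : ℕ) [Fact ℓ.Prime] (hℓ : ℓ ∈ Λ) (ι : ℂ →+* PadicAlgCl ℓ) :
    {k : ℤ | HasRep A S φ ℓ fun v => ι.comp
      (A.cls (φ v) (Pts.incl π (m v) * Pts.cochar μ (normUnit ℂ v ^ k)))}.Infinite := by
  have h1 : {k : ℤ | HasRep A S φ ℓ fun v => ι.comp
      (A.cls (φ v) (Pts.incl π (m v) * Pts.cochar μ (normUnit ℂ v ^ k)))} = Set.univ := by
    refine Set.eq_univ_of_forall fun k => ?_
    obtain ⟨E, _, t, ht, hr⟩ := h k
    obtain ⟨r, hr1, hr2⟩ := hr ℓ hℓ (ι.comp (algebraMap E ℂ))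
    refine ⟨r, hr1, fun v hv hvℓ => ?_⟩
    have h3 := hr2 v hv hvℓ
    have h4 : (ι.comp (algebraMap E ℂ)).comp (t v) = ι.comp
        (A.cls (φ v) (Pts.incl π (m v) * Pts.cochar μ (normUnit ℂ v ^ k))) := by
      ext f
      exact congrArg ι (ht v hv ⟨ℓ, hℓ, hvℓ⟩ f)
    beta_reduce at h3 ⊢
    rwa [h4] at h3
  rw [h1]
  exact Set.infinite_univ

/-- (3) ⇒ (1). -/
theorem levi_three_one {O O' : Type} [CommRing O] [HopfAlgebra ℚ O] [Algebra.FiniteType ℚ O]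
    [CommRing O'] [HopfAlgebra ℚ O'] (hO : LinearlyReductive O) (hO' : LinearlyReductive O')
    (A : HopfAction Gal(AlgebraicClosure F/F) O) (A' : HopfAction Gal(AlgebraicClosure F/F) O')
    (hA : IsOpen (A.act.ker : Set Gal(AlgebraicClosure F/F)))
    (π : O →ₐc[ℚ] O') (μ : O →ₐc[ℚ] ℚ[T;T⁻¹]) (hM : IsLevi A A' π μ)
    (S : Finset (HeightOneSpectrum (𝓞 F)))
    (hS : ∀ v, v ∉ S → ∀ P u, IsInertiaAt v P u → A.act u = 1)
    (φ : HeightOneSpectrum (𝓞 F) → Gal(AlgebraicClosure F/F))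
    (hφ : (∀ v, v ∉ S → ∃ P, IsOver v P ∧ IsFrob v P (φ v)) ∨
      ∀ v, v ∉ S → ∃ P, IsOver v P ∧ IsFrob v P (φ v)⁻¹)
    (m : ∀ _ : HeightOneSpectrum (𝓞 F), Pts O' ℂ)
    (hm : ∀ v, v ∉ S → A'.IsSemisimpleElt (⟨m v, φ v⟩ : A'.LGroup ℂ))
    (Λ : Set ℕ) (hΛ : ∀ ℓ ∈ Λ, ℓ.Prime)
    (h : ∀ (ℓ : ℕ) [Fact ℓ.Prime], ℓ ∈ Λ → ∀ ι : ℂ →+* PadicAlgCl ℓ, Function.Bijective ι →
        {k : ℤ | HasRep A S φ ℓ fun v => ι.comp
          (A.cls (φ v) (Pts.incl π (m v) * Pts.cochar μ (normUnit ℂ v ^ k)))}.Infinite) :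
    SatisfiesQ1 A' S φ Λ fun v => A'.cls (φ v) (m v) := by
  have hft : Algebra.FiniteType ℚ O' := Algebra.FiniteType.of_surjective
    (π : O →ₐ[ℚ] O') hM.surj
  have hact : ∀ u, A.act u = 1 → A'.act u = 1 := by
    intro u hu
    ext f
    obtain ⟨f, rfl⟩ := hM.surj f
    rw [← hM.act, hu]
    rfl
  have hA' : IsOpen (A'.act.ker : Set Gal(AlgebraicClosure F/F)) := isOpen_ker' hM hA
  refine (FieldOfDef.result hO' A' hA' S (fun v hv P u hu => hact u (hS v hv P u hu)) φ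
    (frob_or hφ) (fun v => A'.cls (φ v) (m v)) Λ hΛ).2 ?_
  intro ℓ _ hℓ ι hι
  have h1 := h ℓ hℓ ι hι
  have h2 := levi_adic hO hO' A A' hA π μ hM S hS φ hφ ℓ
    (fun v => Pts.map ι.toRatAlgHom (m v)) (fun v hv _ =>
      isSemisimpleElt_map (finite_range_act hA') ι (⟨m v, φ v⟩ : A'.LGroup ℂ) (hm v hv)) (by
    refine h1.mono ?_
    rintro k ⟨r, hr1, hr2⟩
    refine ⟨r, hr1, fun v hv hvℓ => ?_⟩
    have h3 := hr2 v hv hvℓ
    have h4 : ι.comp (A.cls (φ v) (Pts.incl π (m v) * Pts.cochar μ (normUnit ℂ v ^ k))) =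
        A.cls (φ v) (Pts.incl π (Pts.map ι.toRatAlgHom (m v)) *
          Pts.cochar μ (normUnit (PadicAlgCl ℓ) v ^ k)) := by
      ext f
      have h5 : Pts.map ι.toRatAlgHom (Pts.incl π (m v) * Pts.cochar μ (normUnit ℂ v ^ k)) =
          Pts.incl π (Pts.map ι.toRatAlgHom (m v)) *
            Pts.cochar μ (normUnit (PadicAlgCl ℓ) v ^ k) := by
        rw [map_mul, incl_map, cochar_map, ← units_map_normUnit ι]
        rfl
      exact congrArg (fun g : Pts O (PadicAlgCl ℓ) => g.hom (f : O)) h5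
    beta_reduce at h3 ⊢
    rwa [h4] at h3)
  obtain ⟨r, hr1, hr2⟩ := h2
  exact ⟨r, hr1, fun v hv hvℓ => hr2 v hv hvℓ⟩

end Pool.Agent.Lib.MP_666dc0_nt.LV
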