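import Pool.Agent.Lib.MP_666dc0_nt.LV.Z4
import Pool.Agent.Lib.MP_666dc0_nt.LV.SS

/-!
# Arbitrary points of `M̂`
-/

open NumberField IsDedekindDomain LaurentPolynomial
open scoped NumberField

namespace Pool.Agent.Lib.MP_666dc0_nt.LV

variable {F : Type} [Field F] [NumberField F]

/-- The class of `incl g * μ(t)` in `ᴸG` depends only on the class of `g` in `ᴸM`. -/
theorem cls_twist_congr {Γ : Type} [Group Γ] {O O' : Type} [CommRing O] [HopfAlgebra ℚ O]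
    [CommRing O'] [HopfAlgebra ℚ O'] {A : HopfAction Γ O} {A' : HopfAction Γ O'}
    {π : O →ₐc[ℚ] O'} {μ : O →ₐc[ℚ] ℚ[T;T⁻¹]} (hM : IsLevi A A' π μ) (σ : Γ) (t : ℚˣ)
    {R : Type} [CommRing R] [Algebra ℚ R] {g g' : Pts O' R}
    (h : ∀ f ∈ A'.inv σ, g'.hom f = g.hom f) :
    A.cls σ (Pts.incl π g' * Pts.cochar μ (Units.map (algebraMap ℚ R : ℚ →* R) t)) =
      A.cls σ (Pts.incl π g * Pts.cochar μ (Units.map (algebraMap ℚ R : ℚ →* R) t)) := by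
  obtain ⟨θ, hθ⟩ := exists_twist_fun hM σ t
  ext f
  change (Pts.incl π g' * Pts.cochar μ (Units.map (algebraMap ℚ R : ℚ →* R) t)).hom (f : O) =
    (Pts.incl π g * Pts.cochar μ (Units.map (algebraMap ℚ R : ℚ →* R) t)).hom (f : O)
  rw [hθ R g' f, hθ R g f]
  exact h _ (θ f).2

/-- (3) ⇒ (1), without the semisimplicity of the `m v`. -/
theorem levi_three_one' {O O' : Type} [CommRing O] [HopfAlgebra ℚ O] [Algebra.FiniteType ℚ O]
    [CommRing O'] [HopfAlgebra ℚ O'] (hO : LinearlyReductive O) (hO' : LinearlyReductive O')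
    (A : HopfAction Gal(AlgebraicClosure F/F) O) (A' : HopfAction Gal(AlgebraicClosure F/F) O')
    (hA : IsOpen (A.act.ker : Set Gal(AlgebraicClosure F/F)))
    (π : O →ₐc[ℚ] O') (μ : O →ₐc[ℚ] ℚ[T;T⁻¹]) (hM : IsLevi A A' π μ)
    (S : Finset (HeightOneSpectrum (𝓞 F)))
    (hS : ∀ v, v ∉ S → ∀ P u, IsInertiaAt v P u → A.act u = 1)
    (φ : HeightOneSpectrum (𝓞 F) → Gal(AlgebraicClosure F/F))
    (hφ : (∀ v, v ∉ S → ∃ P, IsOver v P ∧ IsFrob v P (φ v)) ∨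
      ∀ v, v ∉ S → ∃ P, IsOver v P ∧ IsFrob v P (φ v)⁻¹)
    (m : ∀ _ : HeightOneSpectrum (𝓞 F), Pts O' ℂ)
    (Λ : Set ℕ) (hΛ : ∀ ℓ ∈ Λ, ℓ.Prime)
    (h : ∀ (ℓ : ℕ) [Fact ℓ.Prime], ℓ ∈ Λ → ∀ ι : ℂ →+* PadicAlgCl ℓ, Function.Bijective ι →
        {k : ℤ | HasRep A S φ ℓ fun v => ι.comp
          (A.cls (φ v) (Pts.incl π (m v) * Pts.cochar μ (normUnit ℂ v ^ k)))}.Infinite) :
    SatisfiesQ1 A' S φ Λ fun v => A'.cls (φ v) (m v) := by
  have hft : Algebra.FiniteType ℚ O' := Algebra.FiniteType.of_surjective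
    (π : O →ₐ[ℚ] O') hM.surj
  have hA' : IsOpen (A'.act.ker : Set Gal(AlgebraicClosure F/F)) := isOpen_ker' hM hA
  choose m' hm'1 hm'2 using fun v => exists_semisimple hO' A' (finite_range_act hA') (φ v) (m v)
  have h1 : (fun v => A'.cls (φ v) (m v)) = fun v => A'.cls (φ v) (m' v) := by
    funext v
    ext f
    exact (hm'2 v f f.2).symm
  have h2 : ∀ (k : ℤ) v, A.cls (φ v) (Pts.incl π (m' v) * Pts.cochar μ (normUnit ℂ v ^ k)) =
      A.cls (φ v) (Pts.incl π (m v) * Pts.cochar μ (normUnit ℂ v ^ k)) := by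
    intro k v
    have h3 := cls_twist_congr hM (φ v) (normUnit ℚ v ^ k) (hm'2 v)
    rwa [units_map_normUnit] at h3
  rw [h1]
  refine levi_three_one hO hO' A A' hA π μ hM S hS φ hφ m' (fun v _ => hm'1 v) Λ hΛ ?_
  intro ℓ _ hℓ ι hι
  simp only [h2]
  exact h ℓ hℓ ι hι

end Pool.Agent.Lib.MP_666dc0_nt.LV
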